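import Pool.Agent.L0h31.KE.Mom

/-!
# Poincare inequality for the fibres
-/

set_option autoImplicit false
set_option linter.unusedSectionVars false

namespace Pool.Agent.L0h31.KE

open MeasureTheory Set Matrix
open scoped ENNReal InnerProductSpace
open Pool.Agent.H212R2.KLS

/-- the Poincare inequality with the constant `K` for the functions on the set `B` -/
def PIn {W : Type} [NormedAddCommGroup W] [NormedSpace ℝ W] [MeasureSpace W] (K : ℝ)
    (B : Set W) : Prop :=
  ∀ f : W → ℝ, ContDiff ℝ 1 f → ∃ c : ℝ, ∫ x in B, (f x - c) ^ 2 ≤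
    K * ∫ x in B, ‖fderiv ℝ f x‖ ^ 2

theorem PIn.mono {W : Type} [NormedAddCommGroup W] [NormedSpace ℝ W] [MeasureSpace W] {K K' : ℝ}
    {B : Set W} (h : PIn K B) (hK : K ≤ K') : PIn K' B := by
  intro f hf
  obtain ⟨c, hc⟩ := h f hf
  refine ⟨c, hc.trans (mul_le_mul_of_nonneg_right hK ?_)⟩
  exact integral_nonneg fun _ => sq_nonneg _

/-- transport by an isometry -/
theorem PIn.iso {W W' : Type} [NormedAddCommGroup W] [InnerProductSpace ℝ W]
    [FiniteDimensional ℝ W] [MeasurableSpace W] [BorelSpace W] [NormedAddCommGroup W']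
    [InnerProductSpace ℝ W'] [FiniteDimensional ℝ W'] [MeasurableSpace W'] [BorelSpace W']
    {K : ℝ} {B : Set W} {B' : Set W'} (e : W ≃ₗᵢ[ℝ] W') (hB : ∀ x, x ∈ B ↔ e x ∈ B')
    (h : PIn K B) : PIn K B' := by
  intro f hf
  obtain ⟨c, hc⟩ := h (fun x => f (e x)) (hf.comp e.toContinuousLinearEquiv.contDiff)
  refine ⟨c, ?_⟩
  have hBp : B = e ⁻¹' B' := by
    ext x
    exact hB x
  have hmp := e.measurePreserving
  have hemb : MeasurableEmbedding e := e.toHomeomorph.measurableEmbedding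
  have e1 : ∀ F : W' → ℝ, ∫ x in B', F x = ∫ x in B, F (e x) := by
    intro F
    rw [hBp, hmp.setIntegral_preimage_emb hemb]
  rw [e1, e1]
  refine hc.trans (le_of_eq ?_)
  congr 1
  refine integral_congr_ae (Filter.Eventually.of_forall fun x => ?_)
  have h1 : fderiv ℝ (fun x => f (e x)) x = (fderiv ℝ f (e x)).comp
      (e.toContinuousLinearEquiv : W →L[ℝ] W') := by
    have h2 : HasFDerivAt (fun x => f (e x)) ((fderiv ℝ f (e x)).comp
        (e.toContinuousLinearEquiv : W →L[ℝ] W')) x :=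
      ((hf.differentiable one_ne_zero) _).hasFDerivAt.comp x
        e.toContinuousLinearEquiv.hasFDerivAt
    exact h2.fderiv
  have h3 : ‖fderiv ℝ (fun x => f (e x)) x‖ = ‖fderiv ℝ f (e x)‖ := by
    rw [h1]
    exact ContinuousLinearMap.opNorm_comp_linearIsometryEquiv _ e
  simp only [h3]

section types

variable {α γ : Type} [Fintype α] [Fintype γ] [DecidableEq α] [DecidableEq γ]

/-- matrices with rows in `α` and columns in `γ` -/
abbrev EA (α γ : Type) : Type := EuclideanSpace ℝ (α × γ)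

/-- the bilinear form of a matrix -/
def bl (C : EA α γ) (a : α → ℝ) (b : γ → ℝ) : ℝ := ∑ i, ∑ j, a i * C (i, j) * b j

/-- the unit ball of the operator norm -/
def Ba (α γ : Type) [Fintype α] [Fintype γ] : Set (EA α γ) :=
  {C | ∀ (a : α → ℝ) (b : γ → ℝ), (bl C a b) ^ 2 ≤ (∑ i, a i ^ 2) * ∑ j, b j ^ 2}

theorem bl_mv {m n : ℕ} (X : E m n) (a : Fin m → ℝ) (b : Fin n → ℝ) :
    bl X a b = ∑ i, a i * mv X (WithLp.toLp 2 b) i := by
  unfold bl
  refine Finset.sum_congr rfl fun i _ => ?_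
  rw [T2.mv_apply, Finset.mul_sum]
  refine Finset.sum_congr rfl fun j _ => ?_
  simp [mul_assoc]

theorem Bc_eq {m n : ℕ} (X : E m n) : X ∈ Bc m n ↔ X ∈ Ba (Fin m) (Fin n) := by
  constructor
  · intro h a b
    have h1 := h (WithLp.toLp 2 b)
    rw [one_mul] at h1
    have h2 : ‖mv X (WithLp.toLp 2 b)‖ ^ 2 ≤ ∑ j, b j ^ 2 := by
      have := pow_le_pow_left₀ (norm_nonneg _) h1 2
      refine this.trans (le_of_eq ?_)
      rw [EuclideanSpace.real_norm_sq_eq]
    rw [bl_mv]
    refine (Finset.sum_mul_sq_le_sq_mul_sq _ _ _).trans ?_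
    refine mul_le_mul_of_nonneg_left ?_ (Finset.sum_nonneg fun i _ => sq_nonneg _)
    rw [← EuclideanSpace.real_norm_sq_eq]
    exact h2
  · intro h v
    rw [one_mul]
    have h1 := h (fun i => mv X v i) (fun j => v j)
    rw [bl_mv] at h1
    have e1 : ∑ i, mv X v i * mv X (WithLp.toLp 2 fun j => v j) i = ‖mv X v‖ ^ 2 := by
      rw [EuclideanSpace.real_norm_sq_eq]
      exact Finset.sum_congr rfl fun i _ => (pow_two _).symm
    rw [e1, ← EuclideanSpace.real_norm_sq_eq, ← EuclideanSpace.real_norm_sq_eq] at h1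
    by_contra hlt
    rw [not_le] at hlt
    have hp : 0 < ‖mv X v‖ := (norm_nonneg _).trans_lt hlt
    have h3 : ‖v‖ ^ 2 < ‖mv X v‖ ^ 2 := pow_lt_pow_left₀ hlt (norm_nonneg _) two_ne_zero
    have h4 : 0 < ‖mv X v‖ ^ 2 := by positivity
    nlinarith

theorem Ba_reindex {m n : ℕ} (e1 : Fin m ≃ α) (e2 : Fin n ≃ γ) (X : E m n) :
    X ∈ Ba (Fin m) (Fin n) ↔
      LinearIsometryEquiv.piLpCongrLeft 2 ℝ ℝ (e1.prodCongr e2) X ∈ Ba α γ := by
  have key : ∀ (a : α → ℝ) (b : γ → ℝ),
      bl (LinearIsometryEquiv.piLpCongrLeft 2 ℝ ℝ (e1.prodCongr e2) X : EA α γ) a b =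
        bl X (fun i => a (e1 i)) (fun j => b (e2 j)) := by
    intro a b
    unfold bl
    rw [← Equiv.sum_comp e1]
    refine Finset.sum_congr rfl fun i _ => ?_
    rw [← Equiv.sum_comp e2]
    refine Finset.sum_congr rfl fun j _ => ?_
    rw [LinearIsometryEquiv.piLpCongrLeft_apply]
    simp [Equiv.piCongrLeft'_apply]
  constructor
  · intro h a b
    rw [key]
    refine (h _ _).trans (le_of_eq ?_)
    rw [Equiv.sum_comp e1 fun i => a i ^ 2, Equiv.sum_comp e2 fun j => b j ^ 2]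
  · intro h a b
    have h1 := h (fun i => a (e1.symm i)) (fun j => b (e2.symm j))
    rw [key] at h1
    simp only [Equiv.symm_apply_apply] at h1
    refine h1.trans (le_of_eq ?_)
    rw [Equiv.sum_comp e1.symm fun i => a i ^ 2, Equiv.sum_comp e2.symm fun j => b j ^ 2]

theorem Ba_swap (X : EA α γ) : X ∈ Ba α γ ↔
    LinearIsometryEquiv.piLpCongrLeft 2 ℝ ℝ (Equiv.prodComm α γ) X ∈ Ba γ α := by
  have key : ∀ (a : γ → ℝ) (b : α → ℝ),
      bl (LinearIsometryEquiv.piLpCongrLeft 2 ℝ ℝ (Equiv.prodComm α γ) X : EA γ α) a b =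
        bl X b a := by
    intro a b
    unfold bl
    rw [Finset.sum_comm]
    refine Finset.sum_congr rfl fun i _ => Finset.sum_congr rfl fun j _ => ?_
    rw [LinearIsometryEquiv.piLpCongrLeft_apply]
    simp [Equiv.piCongrLeft'_apply]
    ring
  constructor
  · intro h a b
    rw [key, mul_comm]
    exact h b a
  · intro h a b
    have := h b a
    rw [key, mul_comm] at this
    exact this

end types

/-- Poincare inequality for the unit ball of the operator norm, any shape -/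
theorem opballA : ∃ C : ℝ, 0 < C ∧ ∀ (α γ : Type) [Fintype α] [Fintype γ] [DecidableEq α]
    [DecidableEq γ], 5 ≤ Fintype.card α + Fintype.card γ →
    PIn (C / ((Fintype.card α + Fintype.card γ : ℕ) : ℝ)) (Ba α γ) := by
  obtain ⟨C, hC, H⟩ := opball
  refine ⟨2 * C, by positivity, ?_⟩
  -- the case of more rows than columns
  have main : ∀ (α γ : Type) [Fintype α] [Fintype γ] [DecidableEq α]
      [DecidableEq γ], 5 ≤ Fintype.card α + Fintype.card γ → 1 ≤ Fintype.card γ →
      Fintype.card γ ≤ Fintype.card α →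
      PIn (2 * C / ((Fintype.card α + Fintype.card γ : ℕ) : ℝ)) (Ba α γ) := by
    intro α γ _ _ _ _ h5 h1 hle
    have hm0 : (0 : ℝ) < Fintype.card α := by
      have : 0 < Fintype.card α := by omega
      exact_mod_cast this
    have h2 : PIn (C / (Fintype.card α : ℝ)) (Ba α γ) := by
      refine PIn.iso (LinearIsometryEquiv.piLpCongrLeft 2 ℝ ℝ
        ((Fintype.equivFin α).symm.prodCongr (Fintype.equivFin γ).symm))
        (Ba_reindex (Fintype.equivFin α).symm (Fintype.equivFin γ).symm) ?_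
      have h3 : Bc (Fintype.card α) (Fintype.card γ) =
          Ba (Fin (Fintype.card α)) (Fin (Fintype.card γ)) := by
        ext X
        exact Bc_eq X
      rw [← h3]
      intro f hf
      exact H (by omega) h1 hle f hf
    refine h2.mono ?_
    rw [div_le_div_iff₀ hm0 (by
      have : 0 < Fintype.card α + Fintype.card γ := by omega
      exact_mod_cast this)]
    have : ((Fintype.card α + Fintype.card γ : ℕ) : ℝ) ≤ 2 * Fintype.card α := by
      have : Fintype.card α + Fintype.card γ ≤ 2 * Fintype.card α := by omega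
      exact_mod_cast this
    nlinarith
  intro α γ _ _ _ _ h5
  by_cases hα : Fintype.card α = 0
  · have : IsEmpty α := Fintype.card_eq_zero_iff.1 hα
    intro f _
    refine ⟨f 0, ?_⟩
    have e : ∀ x : EA α γ, (f x - f 0) ^ 2 = 0 := by
      intro x
      rw [Subsingleton.elim x 0]
      ring
    simp_rw [e]
    rw [integral_zero]
    have : 0 ≤ ∫ x in Ba α γ, ‖fderiv ℝ f x‖ ^ 2 := integral_nonneg fun _ => sq_nonneg _
    positivity
  by_cases hγ : Fintype.card γ = 0
  · have : IsEmpty γ := Fintype.card_eq_zero_iff.1 hγ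
    intro f _
    refine ⟨f 0, ?_⟩
    have e : ∀ x : EA α γ, (f x - f 0) ^ 2 = 0 := by
      intro x
      rw [Subsingleton.elim x 0]
      ring
    simp_rw [e]
    rw [integral_zero]
    have : 0 ≤ ∫ x in Ba α γ, ‖fderiv ℝ f x‖ ^ 2 := integral_nonneg fun _ => sq_nonneg _
    positivity
  rcases le_total (Fintype.card γ) (Fintype.card α) with hle | hle
  · exact main α γ h5 (by omega) hle
  · have h := main γ α (by omega) (by omega) hle
    rw [add_comm] at h
    exact h.iso (LinearIsometryEquiv.piLpCongrLeft 2 ℝ ℝ (Equiv.prodComm γ α)) Ba_swap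

section fibre

variable {α γ : Type} [Fintype α] [Fintype γ] [DecidableEq α] [DecidableEq γ]

/-- right multiplication -/
def mR (L : Matrix γ γ ℝ) : EA α γ →ₗ[ℝ] EA α γ where
  toFun C := WithLp.toLp 2 fun p => ∑ k, C (p.1, k) * L k p.2
  map_add' C D := by
    ext p
    simp [add_mul, Finset.sum_add_distrib]
  map_smul' c C := by
    ext p
    simp [mul_assoc, Finset.mul_sum]

theorem mR_apply (L : Matrix γ γ ℝ) (C : EA α γ) (p : α × γ) :
    mR L C p = ∑ k, C (p.1, k) * L k p.2 := rfl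

theorem bl_mR (L : Matrix γ γ ℝ) (C : EA α γ) (a : α → ℝ) (b : γ → ℝ) :
    bl (mR L C) a b = bl C a (L *ᵥ b) := by
  unfold bl
  refine Finset.sum_congr rfl fun i _ => ?_
  simp only [mR_apply, Matrix.mulVec, dotProduct, Finset.mul_sum, Finset.sum_mul]
  rw [Finset.sum_comm]
  refine Finset.sum_congr rfl fun j _ => Finset.sum_congr rfl fun k _ => ?_
  ring

theorem mR_mR (L M : Matrix γ γ ℝ) (C : EA α γ) : mR L (mR M C) = mR (M * L) C := by
  ext p
  simp only [mR_apply, Matrix.mul_apply, Finset.mul_sum, Finset.sum_mul]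
  rw [Finset.sum_comm]
  refine Finset.sum_congr rfl fun j _ => Finset.sum_congr rfl fun k _ => ?_
  ring

theorem mR_one (C : EA α γ) : mR (1 : Matrix γ γ ℝ) C = C := by
  ext p
  rw [mR_apply]
  simp [Matrix.one_apply]

/-- the fibre -/
def Fb (α : Type) [Fintype α] (Y : Matrix γ γ ℝ) : Set (EA α γ) :=
  {C | ∀ (a : α → ℝ) (b : γ → ℝ), (bl C a b) ^ 2 ≤ (∑ i, a i ^ 2) * (b ⬝ᵥ (Y *ᵥ b))}

open scoped MatrixOrder in
theorem sqrt_ex {Y : Matrix γ γ ℝ} (hY : Y.PosDef) : ∃ L : Matrix γ γ ℝ, Lᵀ = L ∧ L * L = Y ∧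
    L.det ≠ 0 := by
  have h0 : (CFC.sqrt Y).PosSemidef := (CFC.sqrt_nonneg Y).posSemidef
  have h1 : CFC.sqrt Y * CFC.sqrt Y = Y := CFC.sqrt_mul_sqrt_self Y hY.posSemidef.nonneg
  have h2 : (CFC.sqrt Y)ᵀ = CFC.sqrt Y := by
    have := h0.isHermitian
    rwa [Matrix.IsHermitian, Matrix.conjTranspose_eq_transpose_of_trivial] at this
  refine ⟨_, h2, h1, fun h3 => ?_⟩
  have h4 := congrArg Matrix.det h1
  rw [Matrix.det_mul, h3, mul_zero] at h4
  exact hY.det_pos.ne h4

theorem quad_LL {L : Matrix γ γ ℝ} (hL : Lᵀ = L) (b : γ → ℝ) :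
    b ⬝ᵥ ((L * L) *ᵥ b) = ∑ j, (L *ᵥ b) j ^ 2 := by
  rw [← Matrix.mulVec_mulVec, Matrix.dotProduct_mulVec, ← Matrix.mulVec_transpose, hL]
  simp only [dotProduct, pow_two]

theorem norm_mR {L : Matrix γ γ ℝ} (hL : Lᵀ = L) {K : ℝ}
    (hK : ∀ b : γ → ℝ, b ⬝ᵥ ((L * L) *ᵥ b) ≤ K * ∑ j, b j ^ 2) (C : EA α γ) :
    ‖mR L C‖ ^ 2 ≤ K * ‖C‖ ^ 2 := by
  rw [EuclideanSpace.real_norm_sq_eq, EuclideanSpace.real_norm_sq_eq, Fintype.sum_prod_type,
    Fintype.sum_prod_type, Finset.mul_sum]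
  refine Finset.sum_le_sum fun i _ => ?_
  have h := hK fun k => C (i, k)
  rw [quad_LL hL] at h
  refine le_trans (le_of_eq ?_) h
  refine Finset.sum_congr rfl fun j _ => ?_
  rw [mR_apply]
  congr 1
  simp only [Matrix.mulVec, dotProduct]
  refine Finset.sum_congr rfl fun k _ => ?_
  have : L k j = L j k := by
    conv_lhs => rw [← hL]
    rfl
  rw [this]
  ring

theorem mem_Fb {L : Matrix γ γ ℝ} (hL : Lᵀ = L) (hd : L.det ≠ 0) (C : EA α γ) :
    mR L C ∈ Fb α (L * L) ↔ C ∈ Ba α γ := by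
  have hu : IsUnit L.det := isUnit_iff_ne_zero.2 hd
  constructor
  · intro h a b
    have h1 := h a (L⁻¹ *ᵥ b)
    rw [bl_mR, quad_LL hL, Matrix.mulVec_mulVec, Matrix.mul_nonsing_inv _ hu,
      Matrix.one_mulVec] at h1
    exact h1
  · intro h a b
    rw [bl_mR, quad_LL hL]
    exact h a _

/-- Poincare inequality for the fibres -/
theorem PIn_Fb {K0 : ℝ} (hK0 : 0 ≤ K0) (h0 : PIn K0 (Ba α γ)) {Y : Matrix γ γ ℝ} (hY : Y.PosDef)
    {K : ℝ} (hK : ∀ b : γ → ℝ, b ⬝ᵥ (Y *ᵥ b) ≤ K * ∑ j, b j ^ 2) (hK1 : 0 ≤ K) :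
    PIn (K0 * K) (Fb α Y) := by
  obtain ⟨L, hLT, hLL, hLd⟩ := sqrt_ex hY
  have hu : IsUnit L.det := isUnit_iff_ne_zero.2 hLd
  rw [← hLL] at hK ⊢
  set T : EA α γ →ₗ[ℝ] EA α γ := mR L with hT
  have hTd : LinearMap.det T ≠ 0 := by
    have h1 : (mR L⁻¹ : EA α γ →ₗ[ℝ] EA α γ) ∘ₗ T = LinearMap.id := by
      ext1 C
      rw [LinearMap.comp_apply, hT, mR_mR, Matrix.mul_nonsing_inv _ hu, mR_one]
      rfl
    intro h2
    have := congrArg LinearMap.det h1
    rw [LinearMap.det_comp, h2, mul_zero, LinearMap.det_id] at this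
    exact zero_ne_one this
  intro f hf
  have hTc : Continuous T := LinearMap.continuous_of_finiteDimensional T
  set Tc : EA α γ →L[ℝ] EA α γ := LinearMap.toContinuousLinearMap T with hTcdef
  obtain ⟨c, hc⟩ := h0 (fun x => f (T x)) (hf.comp Tc.contDiff)
  refine ⟨c, ?_⟩
  have hemb : MeasurableEmbedding T := by
    have e := LinearEquiv.ofIsUnitDet (M := EA α γ) (M' := EA α γ)
      (v := (EuclideanSpace.basisFun (α × γ) ℝ).toBasis)
      (v' := (EuclideanSpace.basisFun (α × γ) ℝ).toBasis) (f := T) (by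
        rw [LinearMap.det_toMatrix]
        exact isUnit_iff_ne_zero.2 hTd)
    have hinj : Function.Injective T := by
      have h1 : Function.LeftInverse (mR L⁻¹ : EA α γ →ₗ[ℝ] EA α γ) T := by
        intro C
        rw [hT, mR_mR, Matrix.mul_nonsing_inv _ hu, mR_one]
      exact h1.injective
    exact hTc.measurableEmbedding hinj
  have hBp : Ba α γ = T ⁻¹' (Fb α (L * L)) := by
    ext C
    exact (mem_Fb hLT hLd C).symm
  set J : ℝ := |(LinearMap.det T)⁻¹| with hJ
  have hJ0 : 0 < J := abs_pos.2 (inv_ne_zero hTd)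
  have e1 : ∀ F : EA α γ → ℝ, ∫ x in Ba α γ, F (T x) = J * ∫ x in Fb α (L * L), F x := by
    intro F
    rw [hBp, ← hemb.setIntegral_map, Measure.map_linearMap_addHaar_eq_smul_addHaar _ hTd,
      Measure.restrict_smul, integral_smul_measure, ENNReal.toReal_ofReal hJ0.le, smul_eq_mul]
  have hTn : ‖Tc‖ ^ 2 ≤ K := by
    have h1 : ‖Tc‖ ≤ Real.sqrt K := by
      refine Tc.opNorm_le_bound (Real.sqrt_nonneg _) fun x => ?_
      have h2 := norm_mR hLT hK x
      have h3 : ‖Tc x‖ ^ 2 ≤ (Real.sqrt K * ‖x‖) ^ 2 := by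
        rw [mul_pow, Real.sq_sqrt hK1]
        exact h2
      exact (pow_le_pow_iff_left₀ (norm_nonneg _) (by positivity) two_ne_zero).1 h3
    calc ‖Tc‖ ^ 2 ≤ Real.sqrt K ^ 2 := pow_le_pow_left₀ (norm_nonneg _) h1 2
      _ = K := Real.sq_sqrt hK1
  have hder : ∀ x, ‖fderiv ℝ (fun x => f (T x)) x‖ ^ 2 ≤ K * ‖fderiv ℝ f (T x)‖ ^ 2 := by
    intro x
    have h1 : HasFDerivAt (fun x => f (T x)) ((fderiv ℝ f (T x)).comp Tc) x :=
      ((hf.differentiable one_ne_zero) _).hasFDerivAt.comp x Tc.hasFDerivAt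
    rw [h1.fderiv]
    have h2 := ContinuousLinearMap.opNorm_comp_le (fderiv ℝ f (T x)) Tc
    calc ‖(fderiv ℝ f (T x)).comp Tc‖ ^ 2 ≤ (‖fderiv ℝ f (T x)‖ * ‖Tc‖) ^ 2 :=
          pow_le_pow_left₀ (norm_nonneg _) h2 2
      _ = ‖Tc‖ ^ 2 * ‖fderiv ℝ f (T x)‖ ^ 2 := by ring
      _ ≤ _ := mul_le_mul_of_nonneg_right hTn (sq_nonneg _)
  -- boundedness of the ball
  have hBb : Bornology.IsBounded (Ba α γ) := by
    rw [isBounded_iff_forall_norm_le]
    refine ⟨Real.sqrt (Fintype.card (α × γ)), fun x hx => ?_⟩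
    rw [EuclideanSpace.norm_eq]
    refine Real.sqrt_le_sqrt ?_
    calc ∑ p, ‖x p‖ ^ 2 ≤ ∑ _p : α × γ, (1 : ℝ) := by
          refine Finset.sum_le_sum fun p _ => ?_
          have h1 := hx (Pi.single p.1 1) (Pi.single p.2 1)
          have e2 : bl x (Pi.single p.1 1) (Pi.single p.2 1) = x p := by
            unfold bl
            rw [Finset.sum_eq_single p.1, Finset.sum_eq_single p.2]
            · simp
            · intro j _ hj
              simp [Pi.single_apply, hj]
            · simp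
            · intro i _ hi
              simp [Pi.single_apply, hi]
            · simp
          have e3 : ∀ (δ : Type) [Fintype δ] [DecidableEq δ] (k : δ),
              ∑ i, (Pi.single k 1 : δ → ℝ) i ^ 2 = 1 := by
            intro δ _ _ k
            rw [Finset.sum_eq_single k]
            · simp
            · intro i _ hi
              simp [Pi.single_apply, hi]
            · simp
          rw [e2, e3, e3, one_mul] at h1
          rw [Real.norm_eq_abs, sq_abs]
          exact h1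
      _ = _ := by simp
  have hBm : MeasurableSet (Ba α γ) := by
    refine IsClosed.measurableSet ?_
    have : Ba α γ = ⋂ (a : α → ℝ) (b : γ → ℝ),
        {C : EA α γ | (bl C a b) ^ 2 ≤ (∑ i, a i ^ 2) * ∑ j, b j ^ 2} := by
      ext C
      simp [Ba]
    rw [this]
    refine isClosed_iInter fun a => isClosed_iInter fun b => isClosed_le ?_ continuous_const
    unfold bl
    fun_prop
  have hint : ∀ F : EA α γ → ℝ, Continuous F → IntegrableOn F (Ba α γ) := fun F hF =>
    (hF.locallyIntegrable.integrableOn_isCompact (hBb.isCompact_closure)).mono_set subset_closure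
  have h5 : ∫ x in Ba α γ, ‖fderiv ℝ (fun x => f (T x)) x‖ ^ 2 ≤
      K * ∫ x in Ba α γ, ‖fderiv ℝ f (T x)‖ ^ 2 := by
    rw [← integral_const_mul]
    refine integral_mono (hint _ ?_) ((hint _ ?_).const_mul K) hder
    · exact ((hf.comp Tc.contDiff).continuous_fderiv one_ne_zero).norm.pow 2
    · exact ((hf.continuous_fderiv one_ne_zero).comp hTc).norm.pow 2
  have h6 := hc.trans (mul_le_mul_of_nonneg_left h5 hK0)
  rw [e1 (fun y => (f y - c) ^ 2), e1 (fun y => ‖fderiv ℝ f y‖ ^ 2)] at h6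
  have h7 : J * ∫ x in Fb α (L * L), (f x - c) ^ 2 ≤
      J * (K0 * K * ∫ x in Fb α (L * L), ‖fderiv ℝ f x‖ ^ 2) := by
    refine h6.trans (le_of_eq ?_)
    ring
  exact le_of_mul_le_mul_left h7 hJ0

end fibre

end Pool.Agent.L0h31.KE
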