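import Pool.Agent.L0h31.KE.Ccw

/-!
# The compact body, in general coordinates
-/

set_option autoImplicit false
set_option linter.unusedSectionVars false

namespace Pool.Agent.L0h31.KE

open MeasureTheory Set Matrix
open scoped ENNReal InnerProductSpace
open Pool.Agent.H212R2.KLS (V Sy PD sM sOf cong sM_transpose R9.cong_mem_iff sM_sOf)

variable {n : ℕ} {κ : Type} [DecidableEq κ]

/-- positive semidefinite matrices with diagonal blocks `1` -/
def Kc (β : Fin n → κ) : Set (Eo β) :=
  {x | ∀ v : Fin n → ℝ, 0 ≤ v ⬝ᵥ (sM (oneS n + so β x) *ᵥ v)}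

theorem Ko_sub (β : Fin n → κ) : Ko β ⊆ Kc β := fun _ hx v => quad_nonneg hx v

theorem smul_Kc (β : Fin n → κ) {x : Eo β} (hx : x ∈ Kc β) {t : ℝ} (h0 : 0 ≤ t) (h1 : t < 1) :
    t • x ∈ Ko β := by
  intro v hv
  have e : oneS n + so β (t • x) = (1 - t) • oneS n + t • (oneS n + so β x) := by
    rw [map_smul, smul_add, ← add_assoc, ← add_smul, sub_add_cancel, one_smul]
  have e2 : sM ((1 - t) • oneS n + t • (oneS n + so β x)) =
      (1 - t) • sM (oneS n) + t • sM (oneS n + so β x) := rfl
  rw [e, e2, Matrix.add_mulVec, Matrix.smul_mulVec, Matrix.smul_mulVec, dotProduct_add,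
    dotProduct_smul, dotProduct_smul, smul_eq_mul, smul_eq_mul]
  have h2 := one_mem_PD (n := n) v hv
  have h3 := hx v
  have h4 := mul_pos (by linarith : 0 < 1 - t) h2
  have h5 := mul_nonneg h0 h3
  linarith

theorem Kc_sub (β : Fin n → κ) : Kc β ⊆ closure (Ko β) := by
  intro x hx
  have hlim : Filter.Tendsto (fun t : ℝ => t • x) (nhdsWithin 1 (Set.Ico 0 1)) (nhds x) := by
    have : Filter.Tendsto (fun t : ℝ => t • x) (nhds 1) (nhds ((1 : ℝ) • x)) :=
      (continuous_id.smul continuous_const).tendsto 1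
    rw [one_smul] at this
    exact this.mono_left nhdsWithin_le_nhds
  have hNe : (nhdsWithin (1 : ℝ) (Set.Ico 0 1)).NeBot := by
    rw [← mem_closure_iff_nhdsWithin_neBot, closure_Ico (by norm_num)]
    simp
  refine mem_closure_of_tendsto hlim ?_
  filter_upwards [self_mem_nhdsWithin] with t ht
  exact smul_Kc β hx ht.1 ht.2

theorem Kc_ae (β : Fin n → κ) : Kc β =ᵐ[volume] Ko β := by
  have h3 : closure (Ko β) =ᵐ[volume] Ko β := by
    have hf := (convex_Ko β).addHaar_frontier (volume : Measure (Eo β))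
    have h4 : closure (Ko β) =ᵐ[volume] interior (Ko β) := by
      refine (Filter.EventuallyEq.symm ?_)
      rw [ae_eq_set]
      refine ⟨?_, hf⟩
      rw [sdiff_eq_bot_iff.2 (interior_subset.trans subset_closure)]
      exact measure_empty
    rwa [(isOpen_Ko β).interior_eq] at h4
  exact Filter.EventuallyLE.antisymm ((Kc_sub β).eventuallyLE.trans h3.le)
    (Ko_sub β).eventuallyLE

theorem Kc_closed (β : Fin n → κ) : IsClosed (Kc β) := by
  have : Kc β = ⋂ v : Fin n → ℝ, {x | 0 ≤ v ⬝ᵥ (sM (oneS n + so β x) *ᵥ v)} := by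
    ext x
    simp [Kc]
  rw [this]
  refine isClosed_iInter fun v => isClosed_le continuous_const ?_
  have h1 : Continuous fun x : Eo β => sM (oneS n + so β x) :=
    Pool.Agent.H212R2.KLS.R9.continuous_sM.comp (continuous_const.add (continuous_so β))
  fun_prop

theorem Kc_compact (β : Fin n → κ) : IsCompact (Kc β) :=
  (bdd_Ko β).isCompact_closure.of_isClosed_subset (Kc_closed β) (Kc_sub β)

theorem Kc_convex (β : Fin n → κ) : Convex ℝ (Kc β) := by
  intro x hx y hy a b ha hb hab v
  have e : oneS n + so β (a • x + b • y) = a • (oneS n + so β x) + b • (oneS n + so β y) := by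
    rw [map_add, map_smul, map_smul, smul_add, smul_add]
    have : oneS n = a • oneS n + b • oneS n := by rw [← add_smul, hab, one_smul]
    conv_lhs => rw [this]
    abel
  have e2 : sM (a • (oneS n + so β x) + b • (oneS n + so β y)) =
      a • sM (oneS n + so β x) + b • sM (oneS n + so β y) := rfl
  rw [e, e2, Matrix.add_mulVec, Matrix.smul_mulVec, Matrix.smul_mulVec, dotProduct_add,
    dotProduct_smul, dotProduct_smul, smul_eq_mul, smul_eq_mul]
  exact add_nonneg (mul_nonneg ha (hx v)) (mul_nonneg hb (hy v))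

/-- a body in the coordinates `A` -/
theorem body_of (β : Fin n → κ) {N : ℕ} (A : Eo β ≃ₗ[ℝ] V N) {K : Set (V N)}
    (h : A ⁻¹' K = Kc β) : IsCompact K ∧ Convex ℝ K ∧ (interior K).Nonempty := by
  have hK : K = A '' Kc β := by
    rw [← h, image_preimage_eq _ A.surjective]
  have hAc : Continuous A := LinearMap.continuous_of_finiteDimensional A.toLinearMap
  refine ⟨?_, ?_, ?_⟩
  · rw [hK]
    exact (Kc_compact β).image hAc
  · rw [hK]
    exact (Kc_convex β).linear_image A.toLinearMap
  · have hopen : IsOpen (A '' Ko β) := by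
      have := A.toContinuousLinearEquiv.toHomeomorph.isOpenMap (Ko β) (isOpen_Ko β)
      exact this
    have hsub : A '' Ko β ⊆ K := by
      rw [hK]
      exact image_mono (Ko_sub β)
    exact ⟨A 0, interior_maximal hsub hopen ⟨0, zero_mem_Ko β, rfl⟩⟩

variable [Fintype κ]

/-- the coordinates given by a linear map to the symmetric matrices and a block diagonal matrix -/
theorem coords (β : Fin n → κ) {N : ℕ} (S : Matrix (Fin n) (Fin n) ℝ) (hS : S.PosDef)
    (hB : ∀ i j, β i ≠ β j → S i j = 0) (ι : V N →ₗ[ℝ] Matrix (Fin n) (Fin n) ℝ)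
    (hinj : Function.Injective ι)
    (hr : ∀ X : Matrix (Fin n) (Fin n) ℝ, (∃ x, ι x = X) ↔ X.IsSymm ∧ ∀ i j, β i = β j → X i j = 0) :
    ∃ A : Eo β ≃ₗ[ℝ] V N, A ⁻¹' {x | (S + ι x).PosSemidef} = Kc β := by
  -- coordinates of the off-diagonal part
  have hsym : ∀ x, (ι x).IsSymm := fun x => ((hr _).1 ⟨x, rfl⟩).1
  have hz : ∀ x i j, β i = β j → ι x i j = 0 := fun x => ((hr _).1 ⟨x, rfl⟩).2
  let I1 : V N →ₗ[ℝ] Eo β :=
    { toFun := fun x => WithLp.toLp 2 fun p => ι x p.1.1 p.1.2
      map_add' := fun x y => by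
        ext p
        change ι (x + y) p.1.1 p.1.2 = ι x p.1.1 p.1.2 + ι y p.1.1 p.1.2
        rw [map_add]
        rfl
      map_smul' := fun c x => by
        ext p
        change ι (c • x) p.1.1 p.1.2 = c * ι x p.1.1 p.1.2
        rw [map_smul]
        rfl }
  have hI1 : ∀ x, soM β (I1 x) = ι x := by
    intro x
    refine off_ext (β := β) ?_ (hsym x) (fun i j hij => ?_) fun p => ?_
    · ext i j
      exact soM_symm β _ j i
    · rw [soM_eq β _ i j hij, hz x i j hij]
    · rw [soM_lt]
      rfl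
  have hbij : Function.Bijective I1 := by
    constructor
    · intro x y hxy
      apply hinj
      rw [← hI1 x, ← hI1 y, hxy]
    · intro y
      obtain ⟨x, hx⟩ := (hr (soM β y)).2 ⟨by
        ext i j
        exact soM_symm β y j i, fun i j hij => soM_eq β y i j hij⟩
      refine ⟨x, ?_⟩
      ext p
      change ι x p.1.1 p.1.2 = y p
      rw [hx, soM_lt]
  let E1 : V N ≃ₗ[ℝ] Eo β := LinearEquiv.ofBijective I1 hbij
  -- the matrix `S`
  have hST : Sᵀ = S := by
    have := hS.isHermitian
    rwa [Matrix.IsHermitian, Matrix.conjTranspose_eq_transpose_of_trivial] at this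
  set G : Sy n := sOf S hST with hG
  have hGM : sM G = S := rfl
  have hGP : G ∈ PD n := by
    intro v hv
    have := hS.dotProduct_mulVec_pos hv
    change 0 < v ⬝ᵥ (S *ᵥ v)
    simpa using this
  have hGB : IsB β (sM G) := fun i j hij => hB i j hij
  have hbd : bd β G = G := bd_of_isB hGB
  set T := Tm β G with hT
  have hTd : T.det ≠ 0 := Tm_det β hGP
  have hTB : IsB β T := Tm_isB β hGP
  have hTu : IsUnit T.det := isUnit_iff_ne_zero.2 hTd
  have hTG : cong T G = oneS n := by
    have := cong_bd β hGP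
    rwa [hbd] at this
  have hNd : LinearMap.det (NT β T) ≠ 0 := NT_det hTB hTd
  let E2 : Eo β ≃ₗ[ℝ] Eo β := LinearMap.equivOfDetNeZero (NT β T) hNd
  have hE2 : ∀ y, E2 y = NT β T y := fun y => rfl
  refine ⟨(E1.trans E2).symm, ?_⟩
  ext y
  set x := (E1.trans E2).symm y with hx
  have hy : y = NT β T (I1 x) := by
    have h1 : (E1.trans E2) x = y := LinearEquiv.apply_symm_apply _ _
    rw [← h1]
    rfl
  have hcong : oneS n + so β y = cong T (G + so β (I1 x)) := by
    rw [cong_add, hTG, hy, NT_apply, cong_so hTB]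
  have hquad : ∀ v : Fin n → ℝ, v ⬝ᵥ (sM (oneS n + so β y) *ᵥ v) =
      (T *ᵥ v) ⬝ᵥ ((S + ι x) *ᵥ (T *ᵥ v)) := by
    intro v
    rw [hcong, quad_cong]
    have : sM (G + so β (I1 x)) = S + ι x := by
      change S + soM β (I1 x) = S + ι x
      rw [hI1]
    rw [this]
  change (S + ι x).PosSemidef ↔ y ∈ Kc β
  constructor
  · intro h v
    rw [hquad]
    have := h.dotProduct_mulVec_nonneg (T *ᵥ v)
    simpa using this
  · intro h
    refine Matrix.PosSemidef.of_dotProduct_mulVec_nonneg ?_ fun w => ?_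
    · rw [Matrix.IsHermitian, Matrix.conjTranspose_eq_transpose_of_trivial, Matrix.transpose_add,
        hST]
      congr 1
      exact hsym x
    · have h1 := h (T⁻¹ *ᵥ w)
      rw [hquad, Matrix.mulVec_mulVec, Matrix.mul_nonsing_inv _ hTu, Matrix.one_mulVec] at h1
      simpa using h1

end Pool.Agent.L0h31.KE
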