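import Pool.Agent.L0h31.KE.Fib2

/-!
# Averages over the fibres and the weighted Poincare inequality on `Ko`
-/

set_option autoImplicit false
set_option linter.unusedSectionVars false

namespace Pool.Agent.L0h31.KE

open MeasureTheory Set Matrix
open scoped ENNReal InnerProductSpace
open Pool.Agent.H212R2.KLS

variable {n : ℕ} {κ : Type} [DecidableEq κ]

/-- the average minimises the mean square -/
theorem avg_min {W : Type} [MeasurableSpace W] {μ : Measure W} [IsFiniteMeasure μ] {F : W → ℝ}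
    (hF : Integrable F μ) (hF2 : Integrable (fun x => F x ^ 2) μ) (c : ℝ) :
    ∫ x, (F x - (μ.real univ)⁻¹ * ∫ y, F y ∂μ) ^ 2 ∂μ ≤ ∫ x, (F x - c) ^ 2 ∂μ := by
  set M := μ.real univ with hM
  set I := ∫ y, F y ∂μ with hI
  have key : ∀ d : ℝ, ∫ x, (F x - d) ^ 2 ∂μ = ∫ x, F x ^ 2 ∂μ - 2 * d * I + d ^ 2 * M := by
    intro d
    have e : ∀ x, (F x - d) ^ 2 = (F x ^ 2 - 2 * d * F x) + d ^ 2 := fun x => by ring
    simp_rw [e]
    have i1 : Integrable (fun x => F x ^ 2 - 2 * d * F x) μ := hF2.sub (hF.const_mul _)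
    rw [integral_add i1 (integrable_const _),
      integral_sub hF2 (hF.const_mul _), integral_const_mul, integral_const, smul_eq_mul]
    ring
  rw [key, key]
  by_cases hM0 : M = 0
  · have h0 : μ = 0 := by
      rw [← Measure.measure_univ_eq_zero]
      rw [hM, Measure.real, ENNReal.toReal_eq_zero_iff] at hM0
      rcases hM0 with h | h
      · exact h
      · exact absurd h (measure_ne_top _ _)
    have hI0 : I = 0 := by
      rw [hI, h0]
      simp
    rw [hM0, hI0]
    simp
  · have hMp : 0 < M := lt_of_le_of_ne measureReal_nonneg (Ne.symm hM0)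
    have e : M⁻¹ * I * M = I := by
      field_simp
    have h1 : 2 * (M⁻¹ * I) * I - (M⁻¹ * I) ^ 2 * M = M⁻¹ * I ^ 2 := by
      field_simp
      ring
    have h2 : 2 * c * I - c ^ 2 * M ≤ M⁻¹ * I ^ 2 := by
      rw [inv_mul_eq_div, le_div_iff₀ hMp]
      nlinarith [sq_nonneg (c * M - I)]
    linarith

/-- the average over the fibre -/
noncomputable def hh (β : Fin n → κ) (a : κ) (f : Eo β → ℝ) (y : Ob β a → ℝ) : ℝ :=
  ((volume : Measure (EA (Al β a) (Ga β a))).real (Sf β a y))⁻¹ *
    ∫ C in Sf β a y, f (gl β a (C, y))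

theorem hh_bdd (β : Fin n → κ) (a : κ) (f : Eo β → ℝ) {B : ℝ} (hB : ∀ x, |f x| ≤ B)
    (y : Ob β a → ℝ) : |hh β a f y| ≤ B := by
  have hB0 : 0 ≤ B := (abs_nonneg _).trans (hB 0)
  unfold hh
  rw [abs_mul, abs_inv, abs_of_nonneg measureReal_nonneg]
  have h1 : |∫ C in Sf β a y, f (gl β a (C, y))| ≤ B * volume.real (Sf β a y) := by
    have := norm_setIntegral_le_of_norm_le_const (μ := volume)
      (f := fun C => f (gl β a (C, y))) (C := B) (bdd_Sf β a y).measure_lt_top
      (fun C _ => by rw [Real.norm_eq_abs]; exact hB _)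
    rwa [Real.norm_eq_abs] at this
  by_cases h0 : volume.real (Sf β a y) = 0
  · rw [h0]
    simp [hB0]
  · have hp : 0 < volume.real (Sf β a y) := lt_of_le_of_ne measureReal_nonneg (Ne.symm h0)
    rw [inv_mul_le_iff₀ hp, mul_comm]
    exact h1

theorem measurableSet_gr (β : Fin n → κ) (a : κ) :
    MeasurableSet {z : (Ob β a → ℝ) × EA (Al β a) (Ga β a) | gl β a (z.2, z.1) ∈ Ko β} := by
  have hc : Continuous fun z : (Ob β a → ℝ) × EA (Al β a) (Ga β a) => gl β a (z.2, z.1) :=
    (continuous_gl β a).comp (continuous_snd.prodMk continuous_fst)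
  exact ((isOpen_Ko β).preimage hc).measurableSet

theorem measurable_hh (β : Fin n → κ) (a : κ) (f : Eo β → ℝ) (hf : Measurable f) :
    Measurable (hh β a f) := by
  unfold hh
  have hS := measurableSet_gr β a
  have hc : Measurable fun z : (Ob β a → ℝ) × EA (Al β a) (Ga β a) => gl β a (z.2, z.1) :=
    ((continuous_gl β a).comp (continuous_snd.prodMk continuous_fst)).measurable
  refine Measurable.mul (Measurable.inv ?_) ?_
  · exact (measurable_measure_prodMk_left hS).ennreal_toReal
  · have h1 : StronglyMeasurable fun y : Ob β a → ℝ => ∫ C : EA (Al β a) (Ga β a),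
        {z : (Ob β a → ℝ) × EA (Al β a) (Ga β a) | gl β a (z.2, z.1) ∈ Ko β}.indicator
          (fun z => f (gl β a (z.2, z.1))) (y, C) := by
      refine StronglyMeasurable.integral_prod_right (f := fun (y : Ob β a → ℝ)
        (C : EA (Al β a) (Ga β a)) => {z : (Ob β a → ℝ) × EA (Al β a) (Ga β a) |
          gl β a (z.2, z.1) ∈ Ko β}.indicator (fun z => f (gl β a (z.2, z.1))) (y, C)) ?_
      exact ((hf.comp hc).indicator hS).stronglyMeasurable
    have e : (fun y : Ob β a → ℝ => ∫ C in Sf β a y, f (gl β a (C, y))) = fun y =>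
        ∫ C : EA (Al β a) (Ga β a),
        {z : (Ob β a → ℝ) × EA (Al β a) (Ga β a) | gl β a (z.2, z.1) ∈ Ko β}.indicator
          (fun z => f (gl β a (z.2, z.1))) (y, C) := by
      funext y
      rw [← integral_indicator (isOpen_Sf β a y).measurableSet]
      rfl
    rw [e]
    exact h1.measurable

/-- integrals over `Ko` and over the fibres -/
theorem fub (β : Fin n → κ) (a : κ) : ∃ c : ℝ≥0∞, c ≠ 0 ∧ c ≠ ⊤ ∧
    ∀ φ : Eo β → ℝ≥0∞, Measurable φ →
    ∫⁻ x in Ko β, φ x = c * ∫⁻ y : Ob β a → ℝ, ∫⁻ C in Sf β a y, φ (gl β a (C, y)) := by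
  have i1 : ((volume : Measure (EA (Al β a) (Ga β a))).prod
      (volume : Measure (Ob β a → ℝ))).IsAddHaarMeasure :=
    Measure.prod.instIsAddHaarMeasure _ _
  obtain ⟨c, h0, h1, h⟩ := haar_lin ((volume : Measure (EA (Al β a) (Ga β a))).prod
      (volume : Measure (Ob β a → ℝ))) (volume : Measure (Eo β)) (gl β a)
  refine ⟨c, h0, h1, fun φ hφ => ?_⟩
  have hKm : MeasurableSet (Ko β) := (isOpen_Ko β).measurableSet
  have hm : Measurable ((Ko β).indicator φ) := hφ.indicator hKm
  rw [← lintegral_indicator hKm, h _ hm, lintegral_prod_symm']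
  · congr 1
    refine lintegral_congr fun y => ?_
    rw [← lintegral_indicator (isOpen_Sf β a y).measurableSet]
    rfl
  · exact hm.comp (continuous_gl β a).measurable

/-- the inequality for one block -/
theorem blk (β : Fin n → κ) (a : κ) {K0 : ℝ} (hK0 : 0 ≤ K0)
    (h0 : PIn K0 (Ba (Al β a) (Ga β a))) (f : Eo β → ℝ) (hf : ContDiff ℝ 1 f) {B : ℝ}
    (hB : ∀ x, |f x| ≤ B) :
    ∃ h : Eo β → ℝ, Measurable h ∧ (∀ x, |h x| ≤ B) ∧ (∀ x, h x = h (pj β a x)) ∧
      ∫ x in Ko β, (f x - h x) ^ 2 ≤ ∫ x in Ko β, K0 * (Lam β x * gr β a f x) := by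
  have hglm : Measurable (gl β a).symm :=
    (LinearMap.continuous_of_finiteDimensional (gl β a).symm.toLinearMap).measurable
  have hfm : Measurable f := hf.continuous.measurable
  have hhm : Measurable fun x : Eo β => hh β a f ((gl β a).symm x).2 :=
    (measurable_hh β a f hfm).comp (measurable_snd.comp hglm)
  refine ⟨fun x => hh β a f ((gl β a).symm x).2, hhm, fun x => hh_bdd β a f hB _,
    fun x => ?_, ?_⟩
  · have e : ((gl β a).symm x).2 = ((gl β a).symm (pj β a x)).2 := by
      funext q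
      change x q.1 = pj β a x q.1
      have h := q.2
      unfold tch at h
      change x q.1 = if β q.1.1.1 = a ∨ β q.1.1.2 = a then 0 else x q.1
      rw [if_neg h]
    change hh β a f ((gl β a).symm x).2 = hh β a f ((gl β a).symm (pj β a x)).2
    rw [e]
  obtain ⟨c, hc0, hc1, hc⟩ := fub β a
  have hRn : ∀ x, 0 ≤ K0 * (Lam β x * gr β a f x) := fun x =>
    mul_nonneg hK0 (mul_nonneg (Lam_nonneg β x) (gr_nonneg β a f x))
  have hRc : Continuous fun x => K0 * (Lam β x * gr β a f x) :=
    continuous_const.mul ((continuous_Lam β).mul (continuous_gr β a f hf))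
  have hLm : Measurable fun x => (f x - hh β a f ((gl β a).symm x).2) ^ 2 :=
    (hfm.sub hhm).pow_const 2
  have hfin : IsFiniteMeasure (volume.restrict (Ko β)) :=
    ⟨by rw [Measure.restrict_apply_univ]; exact (bdd_Ko β).measure_lt_top⟩
  have hLi : Integrable (fun x => (f x - hh β a f ((gl β a).symm x).2) ^ 2)
      (volume.restrict (Ko β)) := by
    refine Integrable.mono' (integrable_const ((2 * B) ^ 2)) hLm.aestronglyMeasurable
      (Filter.Eventually.of_forall fun x => ?_)
    rw [Real.norm_eq_abs, abs_of_nonneg (sq_nonneg _), ← sq_abs]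
    refine pow_le_pow_left₀ (abs_nonneg _) ?_ 2
    have h1 := hB x
    have h2 := hh_bdd β a f hB ((gl β a).symm x).2
    calc |f x - hh β a f ((gl β a).symm x).2| ≤ |f x| + |hh β a f ((gl β a).symm x).2| :=
          abs_sub _ _
      _ ≤ 2 * B := by linarith
  have hRi : Integrable (fun x => K0 * (Lam β x * gr β a f x)) (volume.restrict (Ko β)) :=
    intOn (bdd_Ko β) hRc
  rw [← ENNReal.ofReal_le_ofReal_iff (integral_nonneg fun x => hRn x),
    ofReal_integral_eq_lintegral_ofReal hLi (Filter.Eventually.of_forall fun x => sq_nonneg _),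
    ofReal_integral_eq_lintegral_ofReal hRi (Filter.Eventually.of_forall hRn),
    hc (fun x => ENNReal.ofReal ((f x - hh β a f ((gl β a).symm x).2) ^ 2))
      (ENNReal.measurable_ofReal.comp hLm),
    hc (fun x => ENNReal.ofReal (K0 * (Lam β x * gr β a f x)))
      (ENNReal.measurable_ofReal.comp hRc.measurable)]
  refine mul_le_mul_right (lintegral_mono fun y => ?_) c
  have e : ∀ C : EA (Al β a) (Ga β a), ((gl β a).symm (gl β a (C, y))).2 = y := by
    intro C
    rw [LinearEquiv.symm_apply_apply]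
  simp_rw [e]
  have hSf : IsFiniteMeasure ((volume : Measure (EA (Al β a) (Ga β a))).restrict (Sf β a y)) :=
    ⟨by rw [Measure.restrict_apply_univ]; exact (bdd_Sf β a y).measure_lt_top⟩
  have hFc : Continuous fun C : EA (Al β a) (Ga β a) => f (gl β a (C, y)) :=
    hf.continuous.comp (continuous_gl_left β a y)
  have hGc : Continuous fun C : EA (Al β a) (Ga β a) =>
      K0 * (Lam β (gl β a (C, y)) * gr β a f (gl β a (C, y))) :=
    hRc.comp (continuous_gl_left β a y)
  rw [← ofReal_integral_eq_lintegral_ofReal, ← ofReal_integral_eq_lintegral_ofReal]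
  · refine ENNReal.ofReal_le_ofReal ?_
    obtain ⟨d, hd⟩ := fibP β a hK0 h0 f hf y
    refine le_trans ?_ hd
    have := avg_min (μ := (volume : Measure (EA (Al β a) (Ga β a))).restrict (Sf β a y))
      (F := fun C => f (gl β a (C, y))) (intOn (bdd_Sf β a y) hFc)
      (intOn (bdd_Sf β a y) (hFc.pow 2)) d
    refine le_trans (le_of_eq ?_) this
    unfold hh
    rw [measureReal_restrict_apply_univ]
  · exact intOn (bdd_Sf β a y) hGc
  · exact Filter.Eventually.of_forall fun C => hRn _
  · exact intOn (bdd_Sf β a y) ((hFc.sub continuous_const).pow 2)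
  · exact Filter.Eventually.of_forall fun C => sq_nonneg _

theorem gr_sum [Fintype κ] (β : Fin n → κ) (f : Eo β → ℝ) (x : Eo β) :
    ∑ a, gr β a f x ≤ 2 * ‖fderiv ℝ f x‖ ^ 2 := by
  unfold gr
  rw [Finset.sum_comm]
  have h1 : ∀ p : Op β, ∑ a, (if tch β a p then (fderiv ℝ f x (EuclideanSpace.single p 1)) ^ 2
      else 0) ≤ 2 * (fderiv ℝ f x (EuclideanSpace.single p 1)) ^ 2 := by
    intro p
    set g := (fderiv ℝ f x (EuclideanSpace.single p 1)) ^ 2 with hg
    have hg0 : 0 ≤ g := sq_nonneg _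
    calc ∑ a, (if tch β a p then g else 0) ≤
        ∑ a, ((if β p.1.1 = a then g else 0) + (if β p.1.2 = a then g else 0)) := by
          refine Finset.sum_le_sum fun a _ => ?_
          unfold tch
          by_cases h1 : β p.1.1 = a <;> by_cases h2 : β p.1.2 = a <;> simp [h1, h2, hg0]
      _ = 2 * g := by
          rw [Finset.sum_add_distrib, Finset.sum_ite_eq, Finset.sum_ite_eq]
          simp
          ring
  refine (Finset.sum_le_sum fun p _ => h1 p).trans ?_
  rw [← Finset.mul_sum]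
  refine mul_le_mul_of_nonneg_left ?_ (by norm_num)
  -- the norm of the derivative
  set L := fderiv ℝ f x with hL
  set S := ∑ p, (L (EuclideanSpace.single p 1)) ^ 2 with hS
  have hS0 : 0 ≤ S := Finset.sum_nonneg fun p _ => sq_nonneg _
  set u : Eo β := WithLp.toLp 2 fun p => L (EuclideanSpace.single p 1) with hu
  have h2 : L u = S := by
    rw [lin_expand, hS]
    refine Finset.sum_congr rfl fun p _ => ?_
    change L (EuclideanSpace.single p 1) * L (EuclideanSpace.single p 1) = _
    ring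
  have h3 : ‖u‖ ^ 2 = S := by
    rw [EuclideanSpace.real_norm_sq_eq]
  have h4 := L.le_opNorm u
  rw [h2, Real.norm_eq_abs, abs_of_nonneg hS0] at h4
  have h5 : S ^ 2 ≤ ‖L‖ ^ 2 * S := by
    calc S ^ 2 ≤ (‖L‖ * ‖u‖) ^ 2 := pow_le_pow_left₀ hS0 h4 2
      _ = _ := by rw [mul_pow, h3]
  rcases eq_or_lt_of_le hS0 with h | h
  · rw [← h]
    exact sq_nonneg _
  · nlinarith

theorem uK_int (β : Fin n → κ) (F : Eo β → ℝ) :
    ∫ x, F x ∂(uK β) = (volume (Ko β)).toReal⁻¹ * ∫ x in Ko β, F x := by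
  unfold uK
  rw [integral_smul_measure, ENNReal.toReal_inv, smul_eq_mul]

/-- the weighted Poincare inequality -/
theorem varKo : ∃ C : ℝ, 0 < C ∧ ∀ (n : ℕ) (κ : Type) [DecidableEq κ] [Fintype κ] (β : Fin n → κ),
    5 ≤ n → ∀ f : Eo β → ℝ, ContDiff ℝ 1 f → ∀ B : ℝ, (∀ x, |f x| ≤ B) →
    ∫ x, (f x - ∫ y, f y ∂(uK β)) ^ 2 ∂(uK β) ≤
      C / n * ∫ x, Lam β x * ‖fderiv ℝ f x‖ ^ 2 ∂(uK β) := by
  obtain ⟨C, hC, H⟩ := opballA
  refine ⟨2 * C, by positivity, ?_⟩
  intro n κ _ _ β hn f hf B hB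
  have hn0 : (0 : ℝ) < n := by
    have : 0 < n := by omega
    exact_mod_cast this
  have hK0 : 0 ≤ C / n := by positivity
  have hP : ∀ a, PIn (C / n) (Ba (Al β a) (Ga β a)) := by
    intro a
    have := H (Al β a) (Ga β a) (by rw [card_AG]; exact hn)
    rwa [card_AG] at this
  choose h hm hb hl hI using fun a => blk β a hK0 (hP a) f hf hB
  refine (es β f h B hf.continuous.measurable hB hm hb hl).trans ?_
  have hv0 : 0 ≤ (volume (Ko β)).toReal⁻¹ := inv_nonneg.2 ENNReal.toReal_nonneg
  simp_rw [uK_int β (fun x => (f x - h _ x) ^ 2)]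
  rw [uK_int β (fun x => Lam β x * ‖fderiv ℝ f x‖ ^ 2), ← Finset.mul_sum, mul_left_comm]
  refine mul_le_mul_of_nonneg_left ?_ hv0
  refine (Finset.sum_le_sum fun a _ => hI a).trans ?_
  have hRi : ∀ a, Integrable (fun x => C / n * (Lam β x * gr β a f x))
      (volume.restrict (Ko β)) := fun a =>
    intOn (bdd_Ko β) (continuous_const.mul ((continuous_Lam β).mul (continuous_gr β a f hf)))
  rw [← integral_finsetSum _ fun a _ => hRi a, ← integral_const_mul]
  refine integral_mono (integrable_finsetSum _ fun a _ => hRi a) ?_ fun x => ?_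
  · refine Integrable.const_mul (intOn (bdd_Ko β) ?_) _
    exact (continuous_Lam β).mul ((hf.continuous_fderiv one_ne_zero).norm.pow 2)
  · change ∑ a, C / n * (Lam β x * gr β a f x) ≤ 2 * C / n * (Lam β x * ‖fderiv ℝ f x‖ ^ 2)
    rw [← Finset.mul_sum, ← Finset.mul_sum]
    have h1 := mul_le_mul_of_nonneg_left (gr_sum β f x)
      (mul_nonneg hK0 (Lam_nonneg β x))
    calc C / n * (Lam β x * ∑ a, gr β a f x) = C / n * Lam β x * ∑ a, gr β a f x := by ring
      _ ≤ _ := h1
      _ = _ := by ring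

end Pool.Agent.L0h31.KE
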