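import Pool.Agent.L0h31.KE.Cov
import Pool.Agent.L0h31.KE.Fib3
import Pool.Agent.R755.KS.Mrg

/-!
# Concentration for the linear images of the uniform measure on `Ko`
-/

set_option autoImplicit false
set_option linter.unusedSectionVars false

namespace Pool.Agent.L0h31.KE

open MeasureTheory Set Matrix
open scoped ENNReal InnerProductSpace
open Pool.Agent.H212R2.KLS (V Sy PD sM sOf cong)
open Pool.Agent.Y506.PV (CcW ind)
open Pool.Agent.R754.KG (un VW_ind)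

theorem var_eq {W : Type} [MeasurableSpace W] {μ : Measure W} [IsProbabilityMeasure μ] {F : W → ℝ}
    (hF : Integrable F μ) (hF2 : Integrable (fun x => F x ^ 2) μ) (c : ℝ) :
    ∫ x, (F x - c) ^ 2 ∂μ = (∫ x, F x ^ 2 ∂μ) - (∫ x, F x ∂μ) ^ 2 + (∫ x, F x ∂μ - c) ^ 2 := by
  set I := ∫ y, F y ∂μ with hI
  have e : ∀ x, (F x - c) ^ 2 = (F x ^ 2 - 2 * c * F x) + c ^ 2 := fun x => by ring
  simp_rw [e]
  have i1 : Integrable (fun x => F x ^ 2 - 2 * c * F x) μ := hF2.sub (hF.const_mul _)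
  rw [integral_add i1 (integrable_const _),
    integral_sub hF2 (hF.const_mul _), integral_const_mul, integral_const, probReal_univ,
    one_smul]
  rw [← hI]
  ring

variable {n : ℕ} {κ : Type} [DecidableEq κ] [Fintype κ]

/-- linear functionals -/
theorem lin_var (β : Fin n → κ) {k : ℕ} (L : Eo β →ₗ[ℝ] V k) (θ : V k) :
    (∫ x, ⟪L x, θ⟫_ℝ ^ 2 ∂(uK β)) - (∫ x, ⟪L x, θ⟫_ℝ ∂(uK β)) ^ 2 =
      ‖ContinuousLinearMap.adjoint (LinearMap.toContinuousLinearMap L) θ‖ ^ 2 /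
        ((n + 1 : ℕ) : ℝ) := by
  have e : ∀ x, ⟪L x, θ⟫_ℝ =
      ⟪ContinuousLinearMap.adjoint (LinearMap.toContinuousLinearMap L) θ, x⟫_ℝ := by
    intro x
    rw [ContinuousLinearMap.adjoint_inner_left, real_inner_comm]
    rfl
  simp_rw [e]
  rw [covK, meanK]
  ring

theorem norm_L (β : Fin n → κ) {k : ℕ} (L : Eo β →ₗ[ℝ] V k) {s : ℝ} (hs : 0 < s)
    (h : ∀ θ : V k, ‖θ‖ = 1 →
      (∫ x, ⟪L x, θ⟫_ℝ ^ 2 ∂(uK β)) - (∫ x, ⟪L x, θ⟫_ℝ ∂(uK β)) ^ 2 ≤ s) :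
    ‖LinearMap.toContinuousLinearMap L‖ ^ 2 ≤ s * ((n + 1 : ℕ) : ℝ) := by
  have hn : (0 : ℝ) < ((n + 1 : ℕ) : ℝ) := by positivity
  set M := ContinuousLinearMap.adjoint (LinearMap.toContinuousLinearMap L) with hM
  have h1 : ‖M‖ ≤ Real.sqrt (s * ((n + 1 : ℕ) : ℝ)) := by
    refine M.opNorm_le_bound (Real.sqrt_nonneg _) fun θ => ?_
    rcases eq_or_ne θ 0 with h0 | h0
    · rw [h0]
      simp
    · have hp : 0 < ‖θ‖ := norm_pos_iff.2 h0
      have h2 := h (‖θ‖⁻¹ • θ) (by rw [norm_smul, norm_inv, norm_norm, inv_mul_cancel₀ hp.ne'])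
      rw [lin_var, ← hM, map_smul, norm_smul, norm_inv, norm_norm, div_le_iff₀ hn] at h2
      have h3 : ‖θ‖⁻¹ * ‖M θ‖ ≤ Real.sqrt (s * ((n + 1 : ℕ) : ℝ)) := Real.le_sqrt_of_sq_le h2
      rwa [inv_mul_le_iff₀ hp, mul_comm] at h3
  have h4 : ‖M‖ = ‖LinearMap.toContinuousLinearMap L‖ :=
    LinearIsometryEquiv.norm_map ContinuousLinearMap.adjoint _
  rw [← h4]
  calc ‖M‖ ^ 2 ≤ Real.sqrt (s * ((n + 1 : ℕ) : ℝ)) ^ 2 := pow_le_pow_left₀ (norm_nonneg _) h1 2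
    _ = _ := Real.sq_sqrt (by positivity)

theorem conc5 : ∃ C : ℝ, 0 < C ∧ ∀ (n : ℕ) (κ : Type) [DecidableEq κ] [Fintype κ]
    (β : Fin n → κ), 5 ≤ n → ∀ (k : ℕ) (L : Eo β →ₗ[ℝ] V k) (s : ℝ), 0 < s →
    (∀ θ : V k, ‖θ‖ = 1 →
      (∫ x, ⟪L x, θ⟫_ℝ ^ 2 ∂(uK β)) - (∫ x, ⟪L x, θ⟫_ℝ ∂(uK β)) ^ 2 ≤ s) →
    ∀ (κ0 : ℝ) (v : V k → ℝ), ContDiff ℝ 1 v → (∀ y, |v y| ≤ 1) →
    (∀ y, ‖fderiv ℝ v y‖ ≤ κ0 / Real.sqrt s) →
    (∫ x, v (L x) ^ 2 ∂(uK β)) - (∫ x, v (L x) ∂(uK β)) ^ 2 ≤ C * κ0 ^ 2 := by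
  obtain ⟨C, hC, H⟩ := varKo
  refine ⟨C * 2 * (5120 ^ 2 * (320 ^ 2 + 1)), by positivity, ?_⟩
  intro n κ _ _ β hn k L s hs hL κ0 v hv hv1 hvd
  have hn0 : (0 : ℝ) < n := by
    have : 0 < n := by omega
    exact_mod_cast this
  set Lc : Eo β →L[ℝ] V k := LinearMap.toContinuousLinearMap L with hLc
  have hLn := norm_L β L hs hL
  have hsq : 0 < Real.sqrt s := Real.sqrt_pos.2 hs
  have hκ0 : 0 ≤ κ0 := by
    have h1 := (norm_nonneg _).trans (hvd 0)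
    by_contra h2
    exact absurd h1 (not_le.2 (div_neg_of_neg_of_pos (not_le.1 h2) hsq))
  have hf : ContDiff ℝ 1 fun x => v (L x) := hv.comp Lc.contDiff
  have hfc := hf.continuous
  have key := H n κ β hn (fun x => v (L x)) hf 1 fun x => hv1 _
  rw [var_eq (int_uK β hfc) (int_uK β (hfc.pow 2)), sub_self] at key
  have hd : ∀ x, ‖fderiv ℝ (fun x => v (L x)) x‖ ^ 2 ≤ κ0 ^ 2 * ((n + 1 : ℕ) : ℝ) := by
    intro x
    have h1 : HasFDerivAt (fun x => v (L x)) ((fderiv ℝ v (L x)).comp Lc) x :=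
      ((hv.differentiable one_ne_zero) _).hasFDerivAt.comp x Lc.hasFDerivAt
    rw [h1.fderiv]
    calc ‖(fderiv ℝ v (L x)).comp Lc‖ ^ 2 ≤ (κ0 / Real.sqrt s * ‖Lc‖) ^ 2 := by
          refine pow_le_pow_left₀ (norm_nonneg _) ?_ 2
          exact (ContinuousLinearMap.opNorm_comp_le _ _).trans
            (mul_le_mul_of_nonneg_right (hvd _) (norm_nonneg _))
      _ = κ0 ^ 2 / s * ‖Lc‖ ^ 2 := by rw [mul_pow, div_pow, Real.sq_sqrt hs.le]
      _ ≤ κ0 ^ 2 / s * (s * ((n + 1 : ℕ) : ℝ)) :=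
          mul_le_mul_of_nonneg_left hLn (by positivity)
      _ = _ := by field_simp
  have h2 : ∫ x, Lam β x * ‖fderiv ℝ (fun x => v (L x)) x‖ ^ 2 ∂(uK β) ≤
      (5120 ^ 2 * (320 ^ 2 + 1)) * (κ0 ^ 2 * ((n + 1 : ℕ) : ℝ)) := by
    have h3 : ∫ x, Lam β x * ‖fderiv ℝ (fun x => v (L x)) x‖ ^ 2 ∂(uK β) ≤
        ∫ x, Lam β x * (κ0 ^ 2 * ((n + 1 : ℕ) : ℝ)) ∂(uK β) := by
      refine integral_mono (int_uK β ((continuous_Lam β).mul
        ((hf.continuous_fderiv one_ne_zero).norm.pow 2)))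
        ((int_uK β (continuous_Lam β)).mul_const _) fun x => ?_
      exact mul_le_mul_of_nonneg_left (hd x) (Lam_nonneg β x)
    rw [integral_mul_const] at h3
    refine h3.trans (mul_le_mul_of_nonneg_right (mean_Lam (by omega) β) (by positivity))
  have h4 : C / n * ∫ x, Lam β x * ‖fderiv ℝ (fun x => v (L x)) x‖ ^ 2 ∂(uK β) ≤
      C / n * ((5120 ^ 2 * (320 ^ 2 + 1)) * (κ0 ^ 2 * ((n + 1 : ℕ) : ℝ))) :=
    mul_le_mul_of_nonneg_left h2 (by positivity)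
  have h5 : C / n * ((5120 ^ 2 * (320 ^ 2 + 1)) * (κ0 ^ 2 * ((n + 1 : ℕ) : ℝ))) ≤
      C * 2 * (5120 ^ 2 * (320 ^ 2 + 1)) * κ0 ^ 2 := by
    have h6 : ((n + 1 : ℕ) : ℝ) / n ≤ 2 := by
      rw [div_le_iff₀ hn0]
      push_cast
      have : (1 : ℝ) ≤ n := by
        have : 1 ≤ n := by omega
        exact_mod_cast this
      linarith
    have e : C / n * ((5120 ^ 2 * (320 ^ 2 + 1)) * (κ0 ^ 2 * ((n + 1 : ℕ) : ℝ))) =
        (C * (5120 ^ 2 * (320 ^ 2 + 1)) * κ0 ^ 2) * (((n + 1 : ℕ) : ℝ) / n) := by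
      field_simp
    rw [e]
    calc (C * (5120 ^ 2 * (320 ^ 2 + 1)) * κ0 ^ 2) * (((n + 1 : ℕ) : ℝ) / n) ≤
        (C * (5120 ^ 2 * (320 ^ 2 + 1)) * κ0 ^ 2) * 2 :=
          mul_le_mul_of_nonneg_left h6 (by positivity)
      _ = _ := by ring
  have h7 : (0 : ℝ) ^ 2 = 0 := by norm_num
  rw [h7, add_zero] at key
  exact key.trans (h4.trans h5)

/-- bounded dimension -/
theorem conc4 (β : Fin n → κ) {k : ℕ} (L : Eo β →ₗ[ℝ] V k) {s : ℝ} (hs : 0 < s)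
    (hL : ∀ θ : V k, ‖θ‖ = 1 →
      (∫ x, ⟪L x, θ⟫_ℝ ^ 2 ∂(uK β)) - (∫ x, ⟪L x, θ⟫_ℝ ∂(uK β)) ^ 2 ≤ s)
    {κ0 : ℝ} {v : V k → ℝ} (hv : ContDiff ℝ 1 v)
    (hvd : ∀ y, ‖fderiv ℝ v y‖ ≤ κ0 / Real.sqrt s) :
    (∫ x, v (L x) ^ 2 ∂(uK β)) - (∫ x, v (L x) ∂(uK β)) ^ 2 ≤ k * κ0 ^ 2 := by
  set Lc : Eo β →L[ℝ] V k := LinearMap.toContinuousLinearMap L with hLc
  have hLcont : Continuous L := LinearMap.continuous_of_finiteDimensional L
  have hfc : Continuous fun x => v (L x) := hv.continuous.comp hLcont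
  have h1 := var_eq (int_uK β hfc) (int_uK β (hfc.pow 2)) (v 0)
  have h2 : ∀ y : V k, (v y - v 0) ^ 2 ≤ κ0 ^ 2 / s * ‖y‖ ^ 2 := by
    intro y
    have h3 : ‖v y - v 0‖ ≤ κ0 / Real.sqrt s * ‖y - 0‖ :=
      convex_univ.norm_image_sub_le_of_norm_fderiv_le
        (fun x _ => (hv.differentiable one_ne_zero) x) (fun x _ => hvd x) (mem_univ _) (mem_univ _)
    rw [sub_zero, Real.norm_eq_abs] at h3
    rw [← sq_abs]
    calc |v y - v 0| ^ 2 ≤ (κ0 / Real.sqrt s * ‖y‖) ^ 2 := pow_le_pow_left₀ (abs_nonneg _) h3 2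
      _ = _ := by rw [mul_pow, div_pow, Real.sq_sqrt hs.le]
  have hnc : Continuous fun x => ‖L x‖ ^ 2 := hLcont.norm.pow 2
  have h3 : ∫ x, (v (L x) - v 0) ^ 2 ∂(uK β) ≤ ∫ x, κ0 ^ 2 / s * ‖L x‖ ^ 2 ∂(uK β) :=
    integral_mono (int_uK β ((hfc.sub continuous_const).pow 2)) ((int_uK β hnc).const_mul _)
      fun x => h2 _
  rw [integral_const_mul] at h3
  have h4 : ∫ x, ‖L x‖ ^ 2 ∂(uK β) ≤ k * s := by
    have e : ∀ x, ‖L x‖ ^ 2 = ∑ i, ⟪L x, EuclideanSpace.single i 1⟫_ℝ ^ 2 := by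
      intro x
      rw [EuclideanSpace.real_norm_sq_eq]
      refine Finset.sum_congr rfl fun i _ => ?_
      rw [real_inner_comm, EuclideanSpace.inner_single_left]
      simp
    simp_rw [e]
    have hc : ∀ i : Fin k, Continuous fun x => ⟪L x, EuclideanSpace.single i 1⟫_ℝ ^ 2 :=
      fun i => (hLcont.inner continuous_const).pow 2
    rw [integral_finsetSum _ fun i _ => int_uK β (hc i)]
    calc ∑ i : Fin k, ∫ x, ⟪L x, EuclideanSpace.single i 1⟫_ℝ ^ 2 ∂(uK β) ≤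
        ∑ _i : Fin k, s := by
          refine Finset.sum_le_sum fun i _ => ?_
          have h5 := hL (EuclideanSpace.single i 1) (by simp)
          have h6 : ∫ x, ⟪L x, EuclideanSpace.single i 1⟫_ℝ ∂(uK β) = 0 := by
            have e2 : ∀ x, ⟪L x, EuclideanSpace.single i (1 : ℝ)⟫_ℝ =
                ⟪ContinuousLinearMap.adjoint Lc (EuclideanSpace.single i 1), x⟫_ℝ := by
              intro x
              rw [ContinuousLinearMap.adjoint_inner_left, real_inner_comm]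
              rfl
            simp_rw [e2]
            exact meanK β _
          rw [h6] at h5
          linarith
      _ = k * s := by simp
  have h5 : κ0 ^ 2 / s * ∫ x, ‖L x‖ ^ 2 ∂(uK β) ≤ κ0 ^ 2 / s * (k * s) :=
    mul_le_mul_of_nonneg_left h4 (by positivity)
  have h6 : κ0 ^ 2 / s * (k * s) = k * κ0 ^ 2 := by field_simp
  have h7 := sq_nonneg (∫ x, v (L x) ∂(uK β) - v 0)
  linarith

/-- the uniform measure in other coordinates -/
theorem map_un (β : Fin n → κ) {N : ℕ} (A : Eo β ≃ₗ[ℝ] V N) {K : Set (V N)}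
    (hK : MeasurableSet K) (h : A ⁻¹' K =ᵐ[volume] Ko β) : (uK β).map A = un K := by
  obtain ⟨c, hc0, hc1, hc⟩ := haar_lin (V := Eo β) (W := V N) volume volume A
  have hAm : Measurable A := (LinearMap.continuous_of_finiteDimensional A.toLinearMap).measurable
  have hv : ∀ s : Set (V N), MeasurableSet s → volume s = c * volume (A ⁻¹' s) := by
    intro s hs
    have h1 := hc (s.indicator 1) (measurable_one.indicator hs)
    rw [lintegral_indicator_one hs] at h1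
    rw [h1, ← lintegral_indicator_one (hAm hs)]
    rfl
  have hKv : volume K = c * volume (Ko β) := by
    rw [hv K hK, measure_congr h]
  ext s hs
  rw [Measure.map_apply hAm hs]
  unfold uK un
  rw [Measure.smul_apply, Measure.smul_apply, Measure.restrict_apply (hAm hs),
    Measure.restrict_apply hs, smul_eq_mul, smul_eq_mul, hKv, hv _ (hs.inter hK)]
  have h2 : volume (A ⁻¹' (s ∩ K)) = volume (A ⁻¹' s ∩ Ko β) := by
    rw [preimage_inter]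
    exact measure_congr ((Filter.EventuallyEq.refl _ _).inter h)
  rw [h2, ENNReal.mul_inv (Or.inl hc0) (Or.inl hc1)]
  have h3 : c⁻¹ * (volume (Ko β))⁻¹ * (c * volume (A ⁻¹' s ∩ Ko β)) =
      (c⁻¹ * c) * ((volume (Ko β))⁻¹ * volume (A ⁻¹' s ∩ Ko β)) := by ring
  rw [h3, ENNReal.inv_mul_cancel hc0 hc1, one_mul]

theorem card_Op (β : Fin n → κ) : Fintype.card (Op β) ≤ n * n := by
  have h := Fintype.card_subtype_le (fun p : Fin n × Fin n => p.1 < p.2 ∧ β p.1 ≠ β p.2)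
  rw [Fintype.card_prod, Fintype.card_fin] at h
  exact h

/-- the variance -/
noncomputable def VW' {N : ℕ} (K : Set (V N)) (f : V N → ℝ) : ℝ := Pool.Agent.Y506.RG.VW (ind K) f

/-- concentration for all linear images -/
theorem ccwK : ∃ C : ℝ, 0 < C ∧ ∀ (n : ℕ) (κ : Type) [DecidableEq κ] [Fintype κ]
    (β : Fin n → κ) (N : ℕ) (A : Eo β ≃ₗ[ℝ] V N) (K : Set (V N)), MeasurableSet K →
    (A ⁻¹' K =ᵐ[volume] Ko β) → ∀ κ0 : ℝ, 0 < κ0 → CcW κ0 (C * κ0 ^ 2) (ind K) := by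
  obtain ⟨C, hC, H⟩ := conc5
  refine ⟨max C 16, lt_max_of_lt_left hC, ?_⟩
  intro n κ _ _ β N A K hK hA κ0 hκ0 k hk T s hs hT v hv hv1 hvd
  have hAc : Continuous A := LinearMap.continuous_of_finiteDimensional A.toLinearMap
  have hTc : Continuous T := LinearMap.continuous_of_finiteDimensional T
  have hint : ∀ F : V N → ℝ, Continuous F → ∫ x, F x ∂(un K) = ∫ x, F (A x) ∂(uK β) := by
    intro F hF
    rw [← map_un β A hK hA, integral_map hAc.measurable.aemeasurable hF.aestronglyMeasurable]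
  set L : Eo β →ₗ[ℝ] V k := T ∘ₗ A.toLinearMap with hLdef
  have hL : ∀ x, L x = T (A x) := fun _ => rfl
  have hvar : ∀ F : V k → ℝ, Continuous F → VW' K (fun x => F (T x)) =
      (∫ x, F (L x) ^ 2 ∂(uK β)) - (∫ x, F (L x) ∂(uK β)) ^ 2 := by
    intro F hF
    unfold VW'
    rw [VW_ind hK, hint (fun x => F (T x) ^ 2) ((hF.comp hTc).pow 2),
      hint (fun x => F (T x)) (hF.comp hTc)]
    rfl
  have hT' : ∀ θ : V k, ‖θ‖ = 1 →
      (∫ x, ⟪L x, θ⟫_ℝ ^ 2 ∂(uK β)) - (∫ x, ⟪L x, θ⟫_ℝ ∂(uK β)) ^ 2 ≤ s := by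
    intro θ hθ
    rw [← hvar (fun y => ⟪y, θ⟫_ℝ) (by fun_prop)]
    exact hT θ hθ
  change VW' K (fun x => v (T x)) ≤ _
  rw [hvar v hv.continuous]
  by_cases hn : 5 ≤ n
  · refine (H n κ β hn k L s hs hT' κ0 v hv hv1 hvd).trans ?_
    exact mul_le_mul_of_nonneg_right (le_max_left _ _) (by positivity)
  · refine (conc4 β L hs hT' hv hvd).trans ?_
    refine mul_le_mul_of_nonneg_right (le_trans ?_ (le_max_right _ _)) (by positivity)
    have h1 : N = Fintype.card (Op β) := by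
      have := A.finrank_eq
      rw [finrank_euclideanSpace, finrank_euclideanSpace_fin] at this
      exact this.symm
    have h2 : k ≤ 16 := by
      have h3 := card_Op β
      have h4 : n * n ≤ 4 * 4 := Nat.mul_le_mul (by omega) (by omega)
      omega
    exact_mod_cast h2
end Pool.Agent.L0h31.KE
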