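import Pool.Agent.L0h31.KE.Sym

/-!
# The mean of the operator norm over `Ko`
-/

set_option autoImplicit false
set_option linter.unusedSectionVars false

namespace Pool.Agent.L0h31.KE

open MeasureTheory Set Matrix
open scoped ENNReal InnerProductSpace
open Pool.Agent.H212R2.KLS

variable {n : ℕ}

/-! ### positive semidefinite matrices -/

theorem symm_form (A : Sy n) (u w : Fin n → ℝ) :
    u ⬝ᵥ (sM A *ᵥ w) = (sM A *ᵥ u) ⬝ᵥ w := by
  rw [Matrix.dotProduct_mulVec, ← Matrix.mulVec_transpose, sM_transpose]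

theorem psd_bound (A : Sy n) (hA : ∀ v : Fin n → ℝ, 0 ≤ v ⬝ᵥ (sM A *ᵥ v)) {r : ℝ} (hr : 0 ≤ r)
    (h : ∀ w : Fin n → ℝ, w ⬝ᵥ (sM A *ᵥ w) ≤ r * ∑ i, w i ^ 2) (u : Fin n → ℝ) :
    ∑ i, (sM A *ᵥ u) i ^ 2 ≤ r * (u ⬝ᵥ (sM A *ᵥ u)) := by
  set w := sM A *ᵥ u with hw
  set N := ∑ i, w i ^ 2 with hN
  set q := u ⬝ᵥ (sM A *ᵥ u) with hq
  have hN0 : 0 ≤ N := Finset.sum_nonneg fun i _ => sq_nonneg _
  have hww : w ⬝ᵥ w = N := by
    simp only [dotProduct, hN, pow_two]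
  have h1 : ∀ t : ℝ, 0 ≤ q * (t * t) + (-(2 * N)) * t + r * N := by
    intro t
    have h2 := hA (t • u - w)
    have e : (t • u - w) ⬝ᵥ (sM A *ᵥ (t • u - w)) =
        q * (t * t) - 2 * N * t + w ⬝ᵥ (sM A *ᵥ w) := by
      rw [Matrix.mulVec_sub, Matrix.mulVec_smul, sub_dotProduct, dotProduct_sub, dotProduct_sub,
        smul_dotProduct, smul_dotProduct, dotProduct_smul, dotProduct_smul, symm_form A u w,
        ← hw, hww]
      simp only [smul_eq_mul]
      have : u ⬝ᵥ w = q := rfl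
      rw [this]
      ring
    rw [e] at h2
    have h3 := h w
    linarith
  have h2 := discrim_le_zero h1
  unfold discrim at h2
  rcases eq_or_lt_of_le hN0 with h0 | h0
  · rw [← h0]
    exact mul_nonneg hr (hA u)
  · nlinarith

theorem opLe_psd (A : Sy n) (hA : ∀ v : Fin n → ℝ, 0 ≤ v ⬝ᵥ (sM A *ᵥ v)) {r : ℝ} (hr : 0 ≤ r)
    (h : ∀ w : Fin n → ℝ, w ⬝ᵥ (sM A *ᵥ w) ≤ r * ∑ i, w i ^ 2) : OpLe r (A : E n n) := by
  intro v
  have h1 := psd_bound A hA hr h v.ofLp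
  have h2 : ‖mv (A : E n n) v‖ ^ 2 ≤ (r * ‖v‖) ^ 2 := by
    have e1 : ‖mv (A : E n n) v‖ ^ 2 = ∑ i, (sM A *ᵥ v.ofLp) i ^ 2 := by
      rw [EuclideanSpace.real_norm_sq_eq]
      rfl
    have e2 : ‖v‖ ^ 2 = ∑ i, v.ofLp i ^ 2 := EuclideanSpace.real_norm_sq_eq v
    rw [e1, mul_pow, e2]
    have h3 := mul_le_mul_of_nonneg_left (h v.ofLp) hr
    calc _ ≤ _ := h1
      _ ≤ _ := h3
      _ = _ := by ring
  exact (pow_le_pow_iff_left₀ (norm_nonneg _) (mul_nonneg hr (norm_nonneg _)) two_ne_zero).1 h2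

theorem quad_opLe {r : ℝ} {G : Sy n} (h : OpLe r (G : E n n)) (v : Fin n → ℝ) :
    v ⬝ᵥ (sM G *ᵥ v) ≤ r * ∑ i, v i ^ 2 := by
  have h1 : v ⬝ᵥ (sM G *ᵥ v) = ⟪(WithLp.toLp 2 v : V n), mv (G : E n n) (WithLp.toLp 2 v)⟫_ℝ := by
    rw [PiLp.inner_apply]
    refine Finset.sum_congr rfl fun i _ => ?_
    change v i * (sM G *ᵥ v) i = (sM G *ᵥ v) i * v i
    ring
  have h2 : ‖(WithLp.toLp 2 v : V n)‖ ^ 2 = ∑ i, v i ^ 2 := by
    rw [EuclideanSpace.real_norm_sq_eq]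
  rw [h1, ← h2]
  refine (real_inner_le_norm _ _).trans ?_
  have := h (WithLp.toLp 2 v)
  calc ‖(WithLp.toLp 2 v : V n)‖ * ‖mv (G : E n n) (WithLp.toLp 2 v)‖
      ≤ ‖(WithLp.toLp 2 v : V n)‖ * (r * ‖(WithLp.toLp 2 v : V n)‖) :=
        mul_le_mul_of_nonneg_left this (norm_nonneg _)
    _ = _ := by ring

variable {κ : Type} [DecidableEq κ] [Fintype κ]

/-- the square root of the diagonal blocks of the Gram matrix -/
noncomputable def RR (β : Fin n → κ) (ω : Om (n + 1) n) : Sy n := rt (bd β (gm ω))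

theorem measurable_RR (β : Fin n → κ) : Measurable (RR β) :=
  measurable_rt.comp ((continuous_bd β).measurable.comp measurable_gm)

theorem RR_mem (β : Fin n → κ) {ω : Om (n + 1) n} (h : gm ω ∈ PD n) : RR β ω ∈ PD n :=
  rt_mem (bd_mem β h)

theorem RR_sq (β : Fin n → κ) {ω : Om (n + 1) n} (h : gm ω ∈ PD n) :
    sM (RR β ω) * sM (RR β ω) = bdM β (sM (gm ω)) := rt_mul (bd_mem β h)

theorem RR_row (β : Fin n → κ) {ω : Om (n + 1) n} (h : gm ω ∈ PD n) (i : Fin n) :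
    ∑ k, sM (RR β ω) i k ^ 2 = ‖ω i‖ ^ 2 := by
  have h1 := congrFun (congrFun (RR_sq β h) i) i
  rw [Matrix.mul_apply, bdM_apply, if_pos rfl, gm_apply, real_inner_self_eq_norm_sq] at h1
  rw [← h1]
  refine Finset.sum_congr rfl fun k _ => ?_
  rw [sM_symm _ k i, pow_two]

theorem ae_RR (β : Fin n → κ) :
    ∀ᵐ ω ∂(mB (n + 1) n), RR β ω ∈ Metric.closedBall (0 : Sy n) (Real.sqrt n) := by
  filter_upwards [mB_ae n, ae_norm (m := n + 1) (n := n)] with ω h hω
  rw [mem_closedBall_zero_iff]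
  refine Real.le_sqrt_of_sq_le ?_
  have e : ‖RR β ω‖ ^ 2 = ∑ i, ‖ω i‖ ^ 2 := by
    change ‖((RR β ω : Sy n) : E n n)‖ ^ 2 = _
    rw [EuclideanSpace.real_norm_sq_eq, Fintype.sum_prod_type]
    refine Finset.sum_congr rfl fun i _ => ?_
    exact RR_row β h i
  rw [e]
  calc ∑ j, ‖ω j‖ ^ 2 ≤ ∑ _j : Fin n, (1 : ℝ) := by
        refine Finset.sum_le_sum fun j _ => ?_
        have := hω j
        have := norm_nonneg (ω j)
        nlinarith
    _ = n := by simp

theorem int_RR (β : Fin n → κ) {F : Sy n → ℝ} (hF : Continuous F) :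
    Integrable (fun ω => F (RR β ω)) (mB (n + 1) n) := by
  obtain ⟨M, hM⟩ := (isCompact_closedBall (0 : Sy n) (Real.sqrt n)).exists_bound_of_continuousOn
    hF.continuousOn
  refine Integrable.of_bound (hF.measurable.comp (measurable_RR β)).aestronglyMeasurable M ?_
  filter_upwards [ae_RR β] with ω hω
  exact hM _ hω

/-! ### sign changes -/

theorem cong_apply (A : Matrix (Fin n) (Fin n) ℝ) (G : Sy n) : sM (cong A G) = Aᵀ * sM G * A := rfl

theorem rfl1_sq (i : Fin n) : rfl1 n i * rfl1 n i = 1 := by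
  unfold rfl1
  rw [Matrix.diagonal_mul_diagonal, ← Matrix.diagonal_one]
  congr 1
  funext k
  split_ifs <;> norm_num

theorem rfl1_T (i : Fin n) : (rfl1 n i)ᵀ = rfl1 n i := by
  unfold rfl1
  rw [Matrix.diagonal_transpose]

theorem cong_rfl1 (i : Fin n) (G : Sy n) (j k : Fin n) :
    sM (cong (rfl1 n i) G) j k =
      (if j = i then -1 else 1) * sM G j k * (if k = i then -1 else 1) := by
  rw [cong_apply, rfl1_T]
  unfold rfl1
  rw [Matrix.mul_diagonal, Matrix.diagonal_mul]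

theorem rt_rfl1 (i : Fin n) {G : Sy n} (hG : G ∈ PD n) :
    rt (cong (rfl1 n i) G) = cong (rfl1 n i) (rt G) := by
  have hd : (rfl1 n i).det ≠ 0 := by
    intro h
    have := congrArg Matrix.det (rfl1_sq i)
    rw [Matrix.det_mul, h, mul_zero, Matrix.det_one] at this
    exact zero_ne_one this
  refine rt_eq ((R9.cong_mem_iff _ hd _).2 (rt_mem hG)) ?_
  apply sy_ext
  change ((rfl1 n i)ᵀ * sM (rt G) * rfl1 n i) * ((rfl1 n i)ᵀ * sM (rt G) * rfl1 n i) =
    (rfl1 n i)ᵀ * sM G * rfl1 n i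
  rw [← rt_mul hG, rfl1_T]
  have e : rfl1 n i * sM (rt G) * rfl1 n i * (rfl1 n i * sM (rt G) * rfl1 n i) =
      rfl1 n i * sM (rt G) * (rfl1 n i * rfl1 n i) * sM (rt G) * rfl1 n i := by
    simp only [Matrix.mul_assoc]
  rw [e, rfl1_sq, Matrix.mul_one]
  simp only [Matrix.mul_assoc]

theorem gm_fl (i : Fin n) {m : ℕ} (ω : Om m n) :
    gm (fun j => fl m i j (ω j)) = cong (rfl1 n i) (gm ω) := by
  apply sy_ext
  ext j k
  rw [cong_rfl1, gm_apply, gm_apply, fl_apply, fl_apply, inner_smul_left, inner_smul_right]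
  simp only [conj_trivial]
  ring

theorem bd_rfl1 (β : Fin n → κ) (i : Fin n) (G : Sy n) :
    bd β (cong (rfl1 n i) G) = cong (rfl1 n i) (bd β G) := by
  apply sy_ext
  ext j k
  rw [sM_bd, bdM_apply, cong_rfl1, cong_rfl1, sM_bd, bdM_apply]
  split_ifs <;> ring

theorem RR_fl (β : Fin n → κ) (i : Fin n) {ω : Om (n + 1) n} (h : gm ω ∈ PD n) :
    RR β (fun j => fl (n + 1) i j (ω j)) = cong (rfl1 n i) (RR β ω) := by
  unfold RR
  rw [gm_fl, bd_rfl1, rt_rfl1 i (bd_mem β h)]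

theorem RR_off (β : Fin n → κ) (i j : Fin n) (hij : i ≠ j) :
    ∫ ω, sM (RR β ω) i j ∂(mB (n + 1) n) = 0 := by
  have h := mB_inv (fl (n + 1) i) (int_RR β (R9.continuous_entry i j)).aestronglyMeasurable
  have e : ∫ ω, sM (RR β (fun k => fl (n + 1) i k (ω k))) i j ∂(mB (n + 1) n) =
      ∫ ω, -sM (RR β ω) i j ∂(mB (n + 1) n) := by
    refine integral_congr_ae ?_
    filter_upwards [mB_ae n] with ω hω
    rw [RR_fl β i hω, cong_rfl1, if_pos rfl, if_neg hij.symm]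
    ring
  rw [e, integral_neg] at h
  linarith

theorem RR_diag_le (β : Fin n → κ) {ω : Om (n + 1) n} (h : gm ω ∈ PD n)
    (ht : OpLe 320 (colE (n + 1) n ω)) (i : Fin n) : ‖ω i‖ ^ 2 ≤ 320 * sM (RR β ω) i i := by
  have hG := quad_opLe (gm_opLe (by norm_num) ht)
  set R := RR β ω with hR
  have hRp := RR_mem β h
  -- norm of `R`
  have h1 : ∀ w : Fin n → ℝ, ∑ i, (sM R *ᵥ w) i ^ 2 ≤ 320 ^ 2 * ∑ i, w i ^ 2 := by
    intro w
    have e : ∑ i, (sM R *ᵥ w) i ^ 2 = w ⬝ᵥ (bdM β (sM (gm ω)) *ᵥ w) := by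
      rw [← RR_sq β h, ← Matrix.mulVec_mulVec, symm_form]
      simp only [dotProduct, pow_two]
      rfl
    rw [e, quad_bd]
    refine (Finset.sum_le_sum fun a _ => hG (rv β a w)).trans (le_of_eq ?_)
    rw [← Finset.mul_sum, Finset.sum_comm]
    congr 1
    refine Finset.sum_congr rfl fun k _ => ?_
    rw [Finset.sum_eq_single (β k)]
    · simp [rv]
    · intro a _ ha
      simp [rv, Ne.symm ha]
    · intro h'
      exact absurd (Finset.mem_univ _) h'
  have h2 : ∀ w : Fin n → ℝ, w ⬝ᵥ (sM R *ᵥ w) ≤ 320 * ∑ i, w i ^ 2 := by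
    intro w
    have hN : 0 ≤ ∑ i, w i ^ 2 := Finset.sum_nonneg fun i _ => sq_nonneg _
    refine le_of_sq_le_sq ?_ (by positivity)
    have h3 : (w ⬝ᵥ (sM R *ᵥ w)) ^ 2 ≤ (∑ i, w i ^ 2) * ∑ i, (sM R *ᵥ w) i ^ 2 :=
      Finset.sum_mul_sq_le_sq_mul_sq _ _ _
    calc (w ⬝ᵥ (sM R *ᵥ w)) ^ 2 ≤ (∑ i, w i ^ 2) * ∑ i, (sM R *ᵥ w) i ^ 2 := h3
      _ ≤ (∑ i, w i ^ 2) * (320 ^ 2 * ∑ i, w i ^ 2) := mul_le_mul_of_nonneg_left (h1 w) hN
      _ = _ := by ring
  have h3 := psd_bound R (quad_nonneg' hRp) (by norm_num) h2 (Pi.single i 1)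
  have e1 : ∑ k, (sM R *ᵥ Pi.single i 1) k ^ 2 = ‖ω i‖ ^ 2 := by
    rw [← RR_row β h i]
    refine Finset.sum_congr rfl fun k _ => ?_
    rw [Matrix.mulVec_single_one, Matrix.col_apply, sM_symm]
  have e2 : (Pi.single i 1 : Fin n → ℝ) ⬝ᵥ (sM R *ᵥ Pi.single i 1) = sM R i i := by
    rw [Matrix.mulVec_single_one, single_dotProduct, one_mul, Matrix.col_apply]
  rw [e1, e2] at h3
  exact h3
where
  le_of_sq_le_sq {a b : ℝ} (h : a ^ 2 ≤ b ^ 2) (hb : 0 ≤ b) : a ≤ b :=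
    (abs_le_of_sq_le_sq h hb |> abs_le.1).2
  quad_nonneg' {G : Sy n} (hG : G ∈ PD n) (v : Fin n → ℝ) : 0 ≤ v ⬝ᵥ (sM G *ᵥ v) := by
    by_cases hv : v = 0
    · rw [hv]
      simp
    · exact (hG v hv).le

theorem RR_diag (β : Fin n → κ) (i : Fin n) :
    1 / 5120 ≤ ∫ ω, sM (RR β ω) i i ∂(mB (n + 1) n) := by
  have hn : 1 ≤ n := by
    have := i.2
    omega
  set A : Set (Om (n + 1) n) := {ω | ¬ OpLe 320 (colE (n + 1) n ω)} with hA
  have hAm : MeasurableSet A := measurableSet_tail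
  have hni : Integrable (fun ω : Om (n + 1) n => ‖ω i‖ ^ 2) (mB (n + 1) n) :=
    int_mB ((continuous_apply i).norm.pow 2)
  have hai : Integrable (A.indicator fun _ => (1 : ℝ)) (mB (n + 1) n) :=
    (integrable_const _).indicator hAm
  have h1 : ∫ ω, (‖ω i‖ ^ 2 - A.indicator (fun _ => (1 : ℝ)) ω) ∂(mB (n + 1) n) ≤
      ∫ ω, 320 * sM (RR β ω) i i ∂(mB (n + 1) n) := by
    refine integral_mono_ae (hni.sub hai)
      ((int_RR β (R9.continuous_entry i i)).const_mul _) ?_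
    filter_upwards [mB_ae n, ae_norm (m := n + 1) (n := n)] with ω h hω
    by_cases hωA : ω ∈ A
    · have h2 : ‖ω i‖ ^ 2 ≤ 1 := by
        have := hω i
        have := norm_nonneg (ω i)
        nlinarith
      have h3 : 0 < sM (RR β ω) i i := by
        have := RR_mem β h (Pi.single i 1) (by simp)
        simpa using this
      change ‖ω i‖ ^ 2 - A.indicator (fun _ => (1 : ℝ)) ω ≤ 320 * sM (RR β ω) i i
      rw [indicator_of_mem hωA]
      linarith
    · change ‖ω i‖ ^ 2 - A.indicator (fun _ => (1 : ℝ)) ω ≤ 320 * sM (RR β ω) i i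
      rw [indicator_of_notMem hωA, sub_zero]
      rw [hA, mem_ofPred_eq, not_not] at hωA
      exact RR_diag_le β h hωA i
  rw [integral_sub hni hai, integral_const_mul, integral_indicator_const _ hAm, smul_eq_mul,
    mul_one] at h1
  have h2 : (mB (n + 1) n).real A ≤ Real.exp (-(4 * ((n + 1 : ℕ) : ℝ))) := by
    have := tail (m := n + 1) (n := n) (by omega) hn (by omega)
    rw [← hA] at this
    exact ENNReal.toReal_le_of_le_ofReal (Real.exp_pos _).le this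
  have h3 : Real.exp (-(4 * ((n + 1 : ℕ) : ℝ))) ≤ 1 / 16 := by
    have h4 : (4 : ℝ) ≤ 4 * ((n + 1 : ℕ) : ℝ) := by
      push_cast
      have : (0 : ℝ) ≤ n := by positivity
      linarith
    have h5 : (16 : ℝ) ≤ Real.exp 4 := by
      have h6 := Real.add_one_le_exp (1 : ℝ)
      have h7 : Real.exp 4 = Real.exp 1 ^ 4 := by
        rw [← Real.exp_nat_mul]
        norm_num
      rw [h7]
      calc (16 : ℝ) = (1 + 1) ^ 4 := by norm_num
        _ ≤ _ := pow_le_pow_left₀ (by norm_num) h6 4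
    rw [Real.exp_neg, inv_le_comm₀ (Real.exp_pos _) (by norm_num)]
    calc ((1 : ℝ) / 16)⁻¹ = 16 := by norm_num
      _ ≤ Real.exp 4 := h5
      _ ≤ _ := Real.exp_le_exp.2 h4
  have h8 := norm_mom (m := n + 1) (n := n) (by omega) i
  linarith

/-! ### Jensen -/

theorem continuous_cong (A : Sy n) : Continuous fun R : Sy n => cong (sM R) A := by
  refine R7.continuous_Sy ?_
  have := R9.continuous_sM (n := n)
  change Continuous fun R : Sy n => (sM R)ᵀ * sM A * sM R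
  fun_prop

theorem quad_cong (M : Matrix (Fin n) (Fin n) ℝ) (A : Sy n) (v : Fin n → ℝ) :
    v ⬝ᵥ (sM (cong M A) *ᵥ v) = (M *ᵥ v) ⬝ᵥ (sM A *ᵥ (M *ᵥ v)) := by
  rw [cong_apply, ← Matrix.mulVec_mulVec, ← Matrix.mulVec_mulVec, Matrix.dotProduct_mulVec,
    Matrix.vecMul_transpose]

/-- the main inequality -/
theorem jen (β : Fin n → κ) (A : Sy n) (hA : ∀ v : Fin n → ℝ, 0 ≤ v ⬝ᵥ (sM A *ᵥ v)) :
    opn (A : E n n) ≤
      5120 ^ 2 * ∫ ω, opn ((cong (sM (RR β ω)) A : Sy n) : E n n) ∂(mB (n + 1) n) := by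
  set I := ∫ ω, opn ((cong (sM (RR β ω)) A : Sy n) : E n n) ∂(mB (n + 1) n) with hI
  have hI0 : 0 ≤ I := integral_nonneg fun ω => opn_nonneg _
  have hoc : Continuous fun R : Sy n => opn ((cong (sM R) A : Sy n) : E n n) :=
    continuous_opn.comp (continuous_subtype_val.comp (continuous_cong A))
  refine opn_le (by positivity) (opLe_psd A hA (by positivity) fun u => ?_)
  set ρ : Fin n → ℝ := fun i => ∫ ω, sM (RR β ω) i i ∂(mB (n + 1) n) with hρ
  have hρ1 : ∀ i, 1 / 5120 ≤ ρ i := fun i => RR_diag β i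
  have hρ0 : ∀ i, 0 < ρ i := fun i => lt_of_lt_of_le (by norm_num) (hρ1 i)
  set v : Fin n → ℝ := fun i => u i / ρ i with hv
  set q := u ⬝ᵥ (sM A *ᵥ u) with hq
  have hv2 : ∑ i, v i ^ 2 ≤ 5120 ^ 2 * ∑ i, u i ^ 2 := by
    rw [Finset.mul_sum]
    refine Finset.sum_le_sum fun i _ => ?_
    rw [hv]
    change (u i / ρ i) ^ 2 ≤ _
    rw [div_pow, div_le_iff₀ (pow_pos (hρ0 i) 2)]
    have h1 : (1 : ℝ) ≤ 5120 ^ 2 * ρ i ^ 2 := by
      have := hρ1 i
      have h2 : 1 ≤ 5120 * ρ i := by linarith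
      nlinarith
    nlinarith [sq_nonneg (u i)]
  -- mean of the linear part
  have hlin : ∫ ω, (sM A *ᵥ u) ⬝ᵥ (sM (RR β ω) *ᵥ v) ∂(mB (n + 1) n) = q := by
    have e : ∀ ω : Om (n + 1) n, (sM A *ᵥ u) ⬝ᵥ (sM (RR β ω) *ᵥ v) =
        ∑ i, ∑ j, (sM A *ᵥ u) i * v j * sM (RR β ω) i j := by
      intro ω
      simp only [dotProduct, Matrix.mulVec, Finset.mul_sum]
      refine Finset.sum_congr rfl fun i _ => Finset.sum_congr rfl fun j _ => ?_
      ring
    simp_rw [e]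
    have i1 : ∀ i j, Integrable (fun ω : Om (n + 1) n => (sM A *ᵥ u) i * v j *
        sM (RR β ω) i j) (mB (n + 1) n) := fun i j =>
      (int_RR β (R9.continuous_entry i j)).const_mul _
    rw [integral_finsetSum _ fun i _ => integrable_finsetSum _ fun j _ => i1 i j]
    have e2 : q = ∑ i, (sM A *ᵥ u) i * u i := by
      rw [hq, symm_form]
      rfl
    rw [e2]
    refine Finset.sum_congr rfl fun i _ => ?_
    rw [integral_finsetSum _ fun j _ => i1 i j, Finset.sum_eq_single i]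
    · rw [integral_const_mul]
      change (sM A *ᵥ u) i * (u i / ρ i) * ρ i = _
      have := (hρ0 i).ne'
      field_simp
    · intro j _ hj
      rw [integral_const_mul, RR_off β i j (Ne.symm hj), mul_zero]
    · intro h
      exact absurd (Finset.mem_univ i) h
  -- the quadratic part
  have hqc : Continuous fun R : Sy n => (sM R *ᵥ v) ⬝ᵥ (sM A *ᵥ (sM R *ᵥ v)) := by
    have := R9.continuous_sM (n := n)
    fun_prop
  have hlc : Continuous fun R : Sy n => (sM A *ᵥ u) ⬝ᵥ (sM R *ᵥ v) := by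
    have := R9.continuous_sM (n := n)
    fun_prop
  have h1 : q ≤ ∫ ω, (sM (RR β ω) *ᵥ v) ⬝ᵥ (sM A *ᵥ (sM (RR β ω) *ᵥ v)) ∂(mB (n + 1) n) := by
    have h2 : 0 ≤ ∫ ω, ((sM (RR β ω) *ᵥ v) ⬝ᵥ (sM A *ᵥ (sM (RR β ω) *ᵥ v)) -
        2 * ((sM A *ᵥ u) ⬝ᵥ (sM (RR β ω) *ᵥ v)) + q) ∂(mB (n + 1) n) := by
      refine integral_nonneg fun ω => ?_
      have h3 := hA (sM (RR β ω) *ᵥ v - u)
      have e : (sM (RR β ω) *ᵥ v - u) ⬝ᵥ (sM A *ᵥ (sM (RR β ω) *ᵥ v - u)) =
          (sM (RR β ω) *ᵥ v) ⬝ᵥ (sM A *ᵥ (sM (RR β ω) *ᵥ v)) -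
          2 * ((sM A *ᵥ u) ⬝ᵥ (sM (RR β ω) *ᵥ v)) + q := by
        rw [Matrix.mulVec_sub, sub_dotProduct, dotProduct_sub, dotProduct_sub,
          symm_form A u (sM (RR β ω) *ᵥ v), dotProduct_comm (sM (RR β ω) *ᵥ v) (sM A *ᵥ u)]
        ring
      rw [e] at h3
      exact h3
    have i2 : Integrable (fun ω => (sM (RR β ω) *ᵥ v) ⬝ᵥ (sM A *ᵥ (sM (RR β ω) *ᵥ v)))
        (mB (n + 1) n) := int_RR β hqc
    have i3 : Integrable (fun ω => 2 * ((sM A *ᵥ u) ⬝ᵥ (sM (RR β ω) *ᵥ v))) (mB (n + 1) n) :=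
      (int_RR β hlc).const_mul 2
    have i4 : Integrable (fun ω => (sM (RR β ω) *ᵥ v) ⬝ᵥ (sM A *ᵥ (sM (RR β ω) *ᵥ v)) -
        2 * ((sM A *ᵥ u) ⬝ᵥ (sM (RR β ω) *ᵥ v))) (mB (n + 1) n) := i2.sub i3
    rw [integral_add i4 (integrable_const _), integral_sub i2 i3, integral_const_mul, hlin,
      integral_const, probReal_univ, one_smul] at h2
    linarith
  refine h1.trans ?_
  have h2 : ∫ ω, (sM (RR β ω) *ᵥ v) ⬝ᵥ (sM A *ᵥ (sM (RR β ω) *ᵥ v)) ∂(mB (n + 1) n) ≤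
      ∫ ω, opn ((cong (sM (RR β ω)) A : Sy n) : E n n) * ∑ i, v i ^ 2 ∂(mB (n + 1) n) := by
    refine integral_mono (int_RR β hqc) ((int_RR β hoc).mul_const _) fun ω => ?_
    rw [← quad_cong]
    exact quad_le_opn _ _
  rw [integral_mul_const] at h2
  calc _ ≤ _ := h2
    _ ≤ I * (5120 ^ 2 * ∑ i, u i ^ 2) := mul_le_mul_of_nonneg_left hv2 hI0
    _ = _ := by ring

theorem continuous_cong2 : Continuous fun z : Sy n × Sy n => cong (sM z.1) z.2 := by
  refine R7.continuous_Sy ?_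
  have h1 : Continuous fun z : Sy n × Sy n => sM z.1 := R9.continuous_sM.comp continuous_fst
  have h2 : Continuous fun z : Sy n × Sy n => sM z.2 := R9.continuous_sM.comp continuous_snd
  change Continuous fun z : Sy n × Sy n => (sM z.1)ᵀ * sM z.2 * sM z.1
  fun_prop

theorem cong_back (β : Fin n → κ) {G : Sy n} (hG : G ∈ PD n) :
    cong (sM (rt (bd β G))) (oneS n + so β (xh β G)) = G := by
  rw [← cong_T β hG, cong_cong]
  have e : Tm β G * sM (rt (bd β G)) = 1 := by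
    unfold Tm
    exact Matrix.nonsing_inv_mul _ (isUnit_iff_ne_zero.2 (rt_det (bd_mem β hG)))
  rw [e, cong_one]

theorem measurable_opn_cong (β : Fin n → κ) : Measurable fun z : Sy n × Eo β =>
    opn ((cong (sM (rt z.1)) (oneS n + so β z.2) : Sy n) : E n n) := by
  have h1 : Measurable fun z : Sy n × Eo β => ((rt z.1, oneS n + so β z.2) : Sy n × Sy n) := by
    refine (measurable_rt.comp measurable_fst).prodMk ?_
    exact (continuous_const.add (continuous_so β)).measurable.comp measurable_snd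
  have h2 : Measurable fun z : Sy n × Sy n => opn ((cong (sM z.1) z.2 : Sy n) : E n n) :=
    (continuous_opn.comp (continuous_subtype_val.comp continuous_cong2)).measurable
  have h3 := Measurable.comp h2 h1
  rw [Function.comp_def] at h3
  exact h3

/-- the mean of the norm -/
theorem mean_Lam (hn : 1 ≤ n) (β : Fin n → κ) :
    ∫ x, Lam β x ∂(uK β) ≤ 5120 ^ 2 * (320 ^ 2 + 1) := by
  have hΦ : Measurable fun z : Sy n × Eo β => ENNReal.ofReal
      (opn ((cong (sM (rt z.1)) (oneS n + so β z.2) : Sy n) : E n n)) :=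
    ENNReal.measurable_ofReal.comp (measurable_opn_cong β)
  have hlaw := law β _ hΦ
  have hmem : ∀ᵐ x ∂(uK β), x ∈ Ko β := by
    unfold uK
    exact Measure.ae_smul_measure (ae_restrict_mem (isOpen_Ko β).measurableSet) _
  have hLi : Integrable (Lam β) (uK β) := by
    have h1 : IntegrableOn (Lam β) (Ko β) :=
      ((continuous_Lam β).locallyIntegrable.integrableOn_isCompact
        (bdd_Ko β).isCompact_closure).mono_set subset_closure
    unfold uK
    exact h1.smul_measure (ENNReal.inv_ne_top.2 (vol_Ko_pos β))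
  have hc0 : (0 : ℝ) ≤ 5120 ^ 2 := by norm_num
  have h1 : ∀ᵐ x ∂(uK β), ENNReal.ofReal (Lam β x) ≤ ENNReal.ofReal (5120 ^ 2) *
      ∫⁻ ω, ENNReal.ofReal (opn ((cong (sM (RR β ω)) (oneS n + so β x) : Sy n) : E n n))
        ∂(mB (n + 1) n) := by
    filter_upwards [hmem] with x hx
    have hA : ∀ v : Fin n → ℝ, 0 ≤ v ⬝ᵥ (sM (oneS n + so β x) *ᵥ v) := by
      intro v
      by_cases hv : v = 0
      · rw [hv]
        simp
      · exact (hx v hv).le
    have h2 := jen β (oneS n + so β x) hA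
    have hoc : Continuous fun R : Sy n =>
        opn ((cong (sM R) (oneS n + so β x) : Sy n) : E n n) :=
      continuous_opn.comp (continuous_subtype_val.comp (continuous_cong _))
    rw [← ofReal_integral_eq_lintegral_ofReal (int_RR β hoc)
      (Filter.Eventually.of_forall fun _ => opn_nonneg _), ← ENNReal.ofReal_mul hc0]
    exact ENNReal.ofReal_le_ofReal h2
  have h3 := lintegral_mono_ae h1
  rw [lintegral_const_mul' _ _ ENNReal.ofReal_ne_top, lintegral_lintegral_swap] at h3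
  · have h4 : ∫⁻ ω, ∫⁻ x, ENNReal.ofReal (opn ((cong (sM (RR β ω))
        (oneS n + so β x) : Sy n) : E n n)) ∂(uK β) ∂(mB (n + 1) n) =
        ∫⁻ ω, ENNReal.ofReal (opn ((gm ω : Sy n) : E n n)) ∂(mB (n + 1) n) := by
      refine hlaw.symm.trans (lintegral_congr_ae ?_)
      filter_upwards [mB_ae n] with ω hω
      rw [cong_back β hω]
    rw [h4, ← ofReal_integral_eq_lintegral_ofReal (int_mB continuous_opn_gm)
      (Filter.Eventually.of_forall fun _ => opn_nonneg _), ← ENNReal.ofReal_mul hc0,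
      ← ofReal_integral_eq_lintegral_ofReal hLi
      (Filter.Eventually.of_forall fun _ => Lam_nonneg β _),
      ENNReal.ofReal_le_ofReal_iff (mul_nonneg hc0 (integral_nonneg fun _ => opn_nonneg _))] at h3
    refine h3.trans (mul_le_mul_of_nonneg_left ?_ hc0)
    exact opn_gm (by omega) hn (by omega)
  · have h5 : Measurable fun z : Eo β × Om (n + 1) n => ((bd β (gm z.2), z.1) : Sy n × Eo β) :=
      (((continuous_bd β).measurable.comp measurable_gm).comp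
        measurable_snd).prodMk measurable_fst
    have h6 := Measurable.comp hΦ h5
    rw [Function.comp_def] at h6
    exact h6.aemeasurable

end Pool.Agent.L0h31.KE
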