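import Pool.Agent.L0h31.KE.Es
import Pool.Agent.L0h31.KE.OpN

/-!
# The covariance matrix of the uniform measure on `Ko`
-/

set_option autoImplicit false
set_option linter.unusedSectionVars false

namespace Pool.Agent.L0h31.KE

open MeasureTheory Set Matrix
open scoped ENNReal InnerProductSpace
open Pool.Agent.H212R2.KLS

variable {n : ℕ} {κ : Type} [DecidableEq κ] [Fintype κ]

theorem uv_eqv {m : ℕ} (β : Fin n → κ) (g : κ → (V m ≃ₗᵢ[ℝ] V m)) (ω : Om m n) (j : Fin n) :
    uv β (fun k => g (β k) (ω k)) j = g (β j) (uv β ω j) := by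
  have h : ba β (β j) (gm fun k => g (β k) (ω k)) = ba β (β j) (gm ω) := by
    apply sy_ext
    ext i l
    rw [sM_ba, sM_ba, baM_apply, baM_apply]
    split_ifs with h
    · rw [gm_apply, gm_apply, h.1, h.2]
      exact (g (β j)).inner_map_map _ _
    · rfl
  unfold uv
  rw [h, map_sum]
  refine Finset.sum_congr rfl fun k _ => ?_
  rw [map_smul]
  split_ifs with hk
  · congr 1
    change g (β k) (ω k) = g (β j) (ω k)
    rw [hk]
  · simp

theorem uv_norm (β : Fin n → κ) {ω : Om (n + 1) n} (h : gm ω ∈ PD n) (j : Fin n) :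
    ‖uv β ω j‖ = 1 := by
  have h1 : ⟪uv β ω j, uv β ω j⟫_ℝ = sM (cong (Tm β (gm ω)) (gm ω)) j j := by
    rw [uv_eq β h, sum_inner]
    change _ = ((Tm β (gm ω))ᵀ * sM (gm ω) * Tm β (gm ω)) j j
    rw [Matrix.mul_assoc, Matrix.mul_apply]
    refine Finset.sum_congr rfl fun k _ => ?_
    rw [Matrix.transpose_apply, Matrix.mul_apply, inner_smul_left, inner_sum, Finset.mul_sum,
      Finset.mul_sum]
    refine Finset.sum_congr rfl fun l _ => ?_
    rw [inner_smul_right, gm_apply]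
    simp only [conj_trivial]
    ring
  rw [cong_T β h] at h1
  have h2 : sM (oneS n + so β (xh β (gm ω))) j j = 1 := by
    change (1 : Matrix (Fin n) (Fin n) ℝ) j j + soM β (xh β (gm ω)) j j = 1
    rw [Matrix.one_apply_eq, soM_eq β _ _ _ rfl, add_zero]
  rw [h2, real_inner_self_eq_norm_sq] at h1
  have h3 := norm_nonneg (uv β ω j)
  nlinarith

theorem int_uv (β : Fin n → κ) (i j : Fin n) {Φ : V (n + 1) × V (n + 1) → ℝ}
    (hΦ : Continuous Φ) : Integrable (fun ω => Φ (uv β ω i, uv β ω j)) (mB (n + 1) n) := by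
  obtain ⟨M, hM⟩ := ((isCompact_closedBall (0 : V (n + 1)) 1).prod
    (isCompact_closedBall (0 : V (n + 1)) 1)).exists_bound_of_continuousOn hΦ.continuousOn
  refine Integrable.of_bound (hΦ.measurable.comp ((measurable_uv (n + 1) β i).prodMk
    (measurable_uv (n + 1) β j))).aestronglyMeasurable M ?_
  filter_upwards [mB_ae n] with ω hω
  refine hM _ ⟨?_, ?_⟩
  · rw [mem_closedBall_zero_iff, uv_norm β hω]
  · rw [mem_closedBall_zero_iff, uv_norm β hω]

theorem inv2 (β : Fin n → κ) (i j : Fin n) (hij : β i ≠ β j)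
    (g : V (n + 1) ≃ₗᵢ[ℝ] V (n + 1)) {Φ : V (n + 1) × V (n + 1) → ℝ} (hΦ : Continuous Φ) :
    ∫ ω, Φ (g (uv β ω i), uv β ω j) ∂(mB (n + 1) n) =
      ∫ ω, Φ (uv β ω i, uv β ω j) ∂(mB (n + 1) n) := by
  set g' : κ → (V (n + 1) ≃ₗᵢ[ℝ] V (n + 1)) := fun a =>
    if a = β i then g else LinearIsometryEquiv.refl ℝ _ with hg'
  have h := mB_inv (fun k => g' (β k)) (int_uv β i j hΦ).aestronglyMeasurable
  rw [← h]
  refine integral_congr_ae (Filter.Eventually.of_forall fun ω => ?_)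
  change Φ (g (uv β ω i), uv β ω j) =
    Φ (uv β (fun k => g' (β k) (ω k)) i, uv β (fun k => g' (β k) (ω k)) j)
  rw [uv_eqv, uv_eqv]
  have e1 : g' (β i) = g := if_pos rfl
  have e2 : g' (β j) = LinearIsometryEquiv.refl ℝ _ := if_neg (Ne.symm hij)
  rw [e1, e2]
  rfl

/-- reflection in a coordinate hyperplane -/
noncomputable def rk (m : ℕ) (k : Fin m) : V m ≃ₗᵢ[ℝ] V m :=
  LinearIsometryEquiv.piLpCongrRight 2 fun i =>
    if i = k then LinearIsometryEquiv.neg ℝ else LinearIsometryEquiv.refl ℝ ℝ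

theorem rk_apply {m : ℕ} (k : Fin m) (y : V m) (i : Fin m) :
    rk m k y i = (if i = k then -1 else 1) * y i := by
  unfold rk
  change ((if i = k then LinearIsometryEquiv.neg ℝ else LinearIsometryEquiv.refl ℝ ℝ :
    ℝ ≃ₗᵢ[ℝ] ℝ)) (y i) = _
  split_ifs
  · change -(y i) = _
    ring
  · change y i = _
    ring

/-- exchange of two coordinates -/
noncomputable def sk (m : ℕ) (k l : Fin m) : V m ≃ₗᵢ[ℝ] V m :=
  LinearIsometryEquiv.piLpCongrLeft 2 ℝ ℝ (Equiv.swap k l)

theorem sk_apply {m : ℕ} (k l : Fin m) (y : V m) (i : Fin m) :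
    sk m k l y i = y (Equiv.swap k l i) := by
  unfold sk
  rw [LinearIsometryEquiv.piLpCongrLeft_apply]
  simp [Equiv.piCongrLeft'_apply]

/-- the mean square of the inner product -/
theorem inner_sq (β : Fin n → κ) (i j : Fin n) (hij : β i ≠ β j) :
    ∫ ω, ⟪uv β ω i, uv β ω j⟫_ℝ ^ 2 ∂(mB (n + 1) n) = 1 / ((n + 1 : ℕ) : ℝ) := by
  have hck : ∀ k : Fin (n + 1), Continuous fun z : V (n + 1) × V (n + 1) => z.1 k := fun k => by
    fun_prop
  have hcl : ∀ k : Fin (n + 1), Continuous fun z : V (n + 1) × V (n + 1) => z.2 k := fun k => by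
    fun_prop
  have hΦ : ∀ k l : Fin (n + 1), Continuous fun z : V (n + 1) × V (n + 1) =>
      (z.1 k * z.1 l) * (z.2 k * z.2 l) := fun k l =>
    ((hck k).mul (hck l)).mul ((hcl k).mul (hcl l))
  have hΨ : ∀ k l : Fin (n + 1), Continuous fun z : V (n + 1) × V (n + 1) =>
      z.1 k ^ 2 * z.2 l ^ 2 := fun k l => ((hck k).pow 2).mul ((hcl l).pow 2)
  have e : ∀ ω : Om (n + 1) n, ⟪uv β ω i, uv β ω j⟫_ℝ ^ 2 =
      ∑ k, ∑ l, (uv β ω i k * uv β ω i l) * (uv β ω j k * uv β ω j l) := by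
    intro ω
    rw [PiLp.inner_apply, pow_two, Finset.sum_mul_sum]
    refine Finset.sum_congr rfl fun k _ => Finset.sum_congr rfl fun l _ => ?_
    change (uv β ω j k * uv β ω i k) * (uv β ω j l * uv β ω i l) = _
    ring
  simp_rw [e]
  have iΦ : ∀ k l : Fin (n + 1), Integrable (fun ω : Om (n + 1) n =>
      (uv β ω i k * uv β ω i l) * (uv β ω j k * uv β ω j l)) (mB (n + 1) n) :=
    fun k l => int_uv β i j (hΦ k l)
  rw [integral_finsetSum _ fun k _ => integrable_finsetSum _ fun l _ => iΦ k l,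
    Finset.sum_congr rfl fun k _ => integral_finsetSum _ fun l _ => iΦ k l]
  have hcross : ∀ k l : Fin (n + 1), k ≠ l → ∫ ω, (uv β ω i k * uv β ω i l) *
      (uv β ω j k * uv β ω j l) ∂(mB (n + 1) n) = 0 := by
    intro k l hkl
    have h := inv2 β i j hij (rk (n + 1) k) (hΦ k l)
    simp only [rk_apply, if_true, if_neg (Ne.symm hkl)] at h
    have e2 : (fun ω : Om (n + 1) n => -1 * uv β ω i k * (1 * uv β ω i l) *
        (uv β ω j k * uv β ω j l)) = fun ω => -((uv β ω i k * uv β ω i l) *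
        (uv β ω j k * uv β ω j l)) := by
      funext ω
      ring
    rw [e2, integral_neg] at h
    linarith
  have hdiag : ∀ k : Fin (n + 1), ∑ l, ∫ ω, (uv β ω i k * uv β ω i l) *
      (uv β ω j k * uv β ω j l) ∂(mB (n + 1) n) =
      ∫ ω, uv β ω i k ^ 2 * uv β ω j k ^ 2 ∂(mB (n + 1) n) := by
    intro k
    rw [Finset.sum_eq_single k]
    · refine integral_congr_ae (Filter.Eventually.of_forall fun ω => ?_)
      change (uv β ω i k * uv β ω i k) * (uv β ω j k * uv β ω j k) = _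
      ring
    · intro l _ hl
      exact hcross k l (Ne.symm hl)
    · intro h
      exact absurd (Finset.mem_univ k) h
  have hsw : ∀ k l r : Fin (n + 1), ∫ ω, uv β ω i l ^ 2 * uv β ω j r ^ 2 ∂(mB (n + 1) n) =
      ∫ ω, uv β ω i k ^ 2 * uv β ω j r ^ 2 ∂(mB (n + 1) n) := by
    intro k l r
    have h := inv2 β i j hij (sk (n + 1) k l) (hΨ k r)
    simp only [sk_apply, Equiv.swap_apply_left] at h
    exact h
  have h1 : ∀ k, ((n + 1 : ℕ) : ℝ) * ∫ ω, uv β ω i k ^ 2 * uv β ω j k ^ 2 ∂(mB (n + 1) n) =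
      ∫ ω, uv β ω j k ^ 2 ∂(mB (n + 1) n) := by
    intro k
    have h2 : ∑ l : Fin (n + 1), ∫ ω, uv β ω i l ^ 2 * uv β ω j k ^ 2 ∂(mB (n + 1) n) =
        ((n + 1 : ℕ) : ℝ) * ∫ ω, uv β ω i k ^ 2 * uv β ω j k ^ 2 ∂(mB (n + 1) n) := by
      rw [Finset.sum_congr rfl fun l _ => hsw k l k, Finset.sum_const, Finset.card_univ,
        Fintype.card_fin, nsmul_eq_mul]
    rw [← h2, ← integral_finsetSum _ fun l _ => int_uv β i j (hΨ l k)]
    refine integral_congr_ae ?_
    filter_upwards [mB_ae n] with ω hω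
    rw [← Finset.sum_mul, ← EuclideanSpace.real_norm_sq_eq, uv_norm β hω, one_pow, one_mul]
  have hm : ((n + 1 : ℕ) : ℝ) ≠ 0 := by positivity
  rw [Finset.sum_congr rfl fun k _ => hdiag k, eq_div_iff hm, mul_comm, Finset.mul_sum,
    Finset.sum_congr rfl fun k _ => h1 k]
  have hΘ : ∀ k : Fin (n + 1), Continuous fun z : V (n + 1) × V (n + 1) => z.2 k ^ 2 :=
    fun k => (hcl k).pow 2
  rw [← integral_finsetSum _ fun k _ => int_uv β i j (hΘ k)]
  have e3 : ∫ ω, ∑ k, uv β ω j k ^ 2 ∂(mB (n + 1) n) = ∫ _ω, (1 : ℝ) ∂(mB (n + 1) n) := by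
    refine integral_congr_ae ?_
    filter_upwards [mB_ae n] with ω hω
    rw [← EuclideanSpace.real_norm_sq_eq, uv_norm β hω, one_pow]
  rw [e3, integral_const, probReal_univ, one_smul]

/-! ### sign changes of `Ko` -/

/-- the sign of a pair -/
noncomputable def sg (β : Fin n → κ) (i : Fin n) (p : Op β) : ℝ :=
  if p.1.1 = i ∨ p.1.2 = i then -1 else 1

/-- the sign change of one index -/
noncomputable def sfl (β : Fin n → κ) (i : Fin n) : Eo β ≃ₗᵢ[ℝ] Eo β :=
  LinearIsometryEquiv.piLpCongrRight 2 fun p : Op β =>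
    if p.1.1 = i ∨ p.1.2 = i then LinearIsometryEquiv.neg ℝ else LinearIsometryEquiv.refl ℝ ℝ

theorem sfl_apply (β : Fin n → κ) (i : Fin n) (x : Eo β) (p : Op β) :
    sfl β i x p = sg β i p * x p := by
  unfold sfl sg
  change ((if p.1.1 = i ∨ p.1.2 = i then LinearIsometryEquiv.neg ℝ
    else LinearIsometryEquiv.refl ℝ ℝ : ℝ ≃ₗᵢ[ℝ] ℝ)) (x p) = _
  split_ifs
  · change -(x p) = _
    ring
  · change x p = _
    ring

theorem so_sfl (β : Fin n → κ) (i : Fin n) (x : Eo β) :
    oneS n + so β (sfl β i x) = cong (rfl1 n i) (oneS n + so β x) := by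
  apply sy_ext
  refine off_ext (β := β) (sM_transpose _) (sM_transpose _) (fun j k hjk => ?_) fun p => ?_
  · rw [cong_rfl1]
    change (1 : Matrix (Fin n) (Fin n) ℝ) j k + soM β (sfl β i x) j k =
      _ * ((1 : Matrix (Fin n) (Fin n) ℝ) j k + soM β x j k) * _
    rw [soM_eq β _ _ _ hjk, soM_eq β _ _ _ hjk, add_zero]
    by_cases h : j = k
    · subst h
      split_ifs <;> simp
    · rw [Matrix.one_apply_ne h]
      ring
  · rw [cong_rfl1]
    have hne : p.1.1 ≠ p.1.2 := p.2.1.ne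
    change (1 : Matrix (Fin n) (Fin n) ℝ) p.1.1 p.1.2 + soM β (sfl β i x) p.1.1 p.1.2 =
      _ * ((1 : Matrix (Fin n) (Fin n) ℝ) p.1.1 p.1.2 + soM β x p.1.1 p.1.2) * _
    rw [Matrix.one_apply_ne hne, soM_lt, soM_lt, sfl_apply, zero_add, zero_add]
    unfold sg
    by_cases h1 : p.1.1 = i
    · have h2 : p.1.2 ≠ i := fun h => hne (h1.trans h.symm)
      simp [h1, h2]
    · by_cases h2 : p.1.2 = i
      · simp [h1, h2]
      · simp [h1, h2]

theorem sfl_mem (β : Fin n → κ) (i : Fin n) (x : Eo β) : sfl β i x ∈ Ko β ↔ x ∈ Ko β := by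
  change oneS n + so β (sfl β i x) ∈ PD n ↔ oneS n + so β x ∈ PD n
  rw [so_sfl]
  refine R9.cong_mem_iff _ ?_ _
  intro h
  have := congrArg Matrix.det (rfl1_sq i)
  rw [Matrix.det_mul, h, mul_zero, Matrix.det_one] at this
  exact zero_ne_one this

theorem uK_sfl (β : Fin n → κ) (i : Fin n) (F : Eo β → ℝ) :
    ∫ x, F (sfl β i x) ∂(uK β) = ∫ x, F x ∂(uK β) := by
  have h1 : MeasurePreserving (sfl β i) (volume.restrict (sfl β i ⁻¹' Ko β))
      (volume.restrict (Ko β)) :=
    (sfl β i).measurePreserving.restrict_preimage (isOpen_Ko β).measurableSet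
  have h2 : sfl β i ⁻¹' Ko β = Ko β := by
    ext x
    exact sfl_mem β i x
  rw [h2] at h1
  have h3 : MeasurePreserving (sfl β i) (uK β) (uK β) := h1.smul_measure _
  exact h3.integral_comp (sfl β i).toHomeomorph.measurableEmbedding F

theorem ae_Ko (β : Fin n → κ) : ∀ᵐ x ∂(uK β), x ∈ Ko β := by
  unfold uK
  exact Measure.ae_smul_measure (ae_restrict_mem (isOpen_Ko β).measurableSet) _

theorem int_uK (β : Fin n → κ) {F : Eo β → ℝ} (hF : Continuous F) : Integrable F (uK β) := by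
  have h1 : IntegrableOn F (Ko β) :=
    (hF.locallyIntegrable.integrableOn_isCompact
      (bdd_Ko β).isCompact_closure).mono_set subset_closure
  unfold uK
  exact h1.smul_measure (ENNReal.inv_ne_top.2 (vol_Ko_pos β))

theorem mean_p (β : Fin n → κ) (p : Op β) : ∫ x, x p ∂(uK β) = 0 := by
  have h := uK_sfl β p.1.1 fun x => x p
  simp only [sfl_apply] at h
  have e : sg β p.1.1 p = -1 := by
    unfold sg
    rw [if_pos (Or.inl rfl)]
  rw [e, integral_const_mul] at h
  linarith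

theorem cov_pq (β : Fin n → κ) {p q : Op β} (hpq : p ≠ q) : ∫ x, x p * x q ∂(uK β) = 0 := by
  -- an index of `p` which is not in `q`
  obtain ⟨i, h1, h2⟩ : ∃ i, sg β i p = -1 ∧ sg β i q = 1 := by
    unfold sg
    by_cases h1 : q.1.1 = p.1.1 ∨ q.1.2 = p.1.1
    · by_cases h2 : q.1.1 = p.1.2 ∨ q.1.2 = p.1.2
      · exfalso
        apply hpq
        apply Subtype.ext
        have hp := p.2.1
        have hq := q.2.1
        rcases h1 with h1 | h1
        · rcases h2 with h2 | h2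
          · exact absurd (h1.symm.trans h2) hp.ne
          · exact Prod.ext h1.symm h2.symm
        · rcases h2 with h2 | h2
          · rw [h1, h2] at hq
            exact absurd hq (lt_asymm hp)
          · exact absurd (h1.symm.trans h2) hp.ne
      · exact ⟨p.1.2, if_pos (Or.inr rfl), if_neg h2⟩
    · exact ⟨p.1.1, if_pos (Or.inl rfl), if_neg h1⟩
  have h := uK_sfl β i fun x => x p * x q
  simp only [sfl_apply, h1, h2] at h
  have e : (fun x : Eo β => -1 * x p * (1 * x q)) = fun x => -(x p * x q) := by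
    funext x
    ring
  rw [e, integral_neg] at h
  linarith

theorem cov_pp (β : Fin n → κ) (p : Op β) :
    ∫ x, x p ^ 2 ∂(uK β) = 1 / ((n + 1 : ℕ) : ℝ) := by
  rw [← inner_sq β p.1.1 p.1.2 p.2.2]
  exact (int_xv β (fun x => x p ^ 2) (by fun_prop)).symm

/-- the mean is zero -/
theorem meanK (β : Fin n → κ) (θ : Eo β) : ∫ x, ⟪θ, x⟫_ℝ ∂(uK β) = 0 := by
  have e : ∀ x : Eo β, ⟪θ, x⟫_ℝ = ∑ p, θ p * x p := by
    intro x
    rw [PiLp.inner_apply]
    refine Finset.sum_congr rfl fun p _ => ?_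
    change x p * θ p = _
    ring
  simp_rw [e]
  have hc : ∀ p : Op β, Continuous fun x : Eo β => θ p * x p := fun p => by fun_prop
  rw [integral_finsetSum _ fun p _ => int_uK β (hc p)]
  refine Finset.sum_eq_zero fun p _ => ?_
  rw [integral_const_mul, mean_p, mul_zero]

/-- the covariance matrix is a multiple of the identity -/
theorem covK (β : Fin n → κ) (θ : Eo β) :
    ∫ x, ⟪θ, x⟫_ℝ ^ 2 ∂(uK β) = ‖θ‖ ^ 2 / ((n + 1 : ℕ) : ℝ) := by
  have e : ∀ x : Eo β, ⟪θ, x⟫_ℝ ^ 2 = ∑ p, ∑ q, θ p * θ q * (x p * x q) := by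
    intro x
    rw [PiLp.inner_apply, pow_two, Finset.sum_mul_sum]
    refine Finset.sum_congr rfl fun p _ => Finset.sum_congr rfl fun q _ => ?_
    change (x p * θ p) * (x q * θ q) = _
    ring
  simp_rw [e]
  have hc : ∀ p q : Op β, Continuous fun x : Eo β => θ p * θ q * (x p * x q) :=
    fun p q => by fun_prop
  rw [integral_finsetSum _ fun p _ => integrable_finsetSum _ fun q _ => int_uK β (hc p q),
    EuclideanSpace.real_norm_sq_eq, Finset.sum_div]
  refine Finset.sum_congr rfl fun p _ => ?_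
  rw [integral_finsetSum _ fun q _ => int_uK β (hc p q), Finset.sum_eq_single p]
  · rw [integral_const_mul]
    have e2 : (fun x : Eo β => x p * x p) = fun x => x p ^ 2 := by
      funext x
      ring
    rw [e2, cov_pp]
    ring
  · intro q _ hq
    rw [integral_const_mul, cov_pq β (Ne.symm hq), mul_zero]
  · intro h
    exact absurd (Finset.mem_univ p) h

end Pool.Agent.L0h31.KE
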