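import Pool.Agent.L0h31.KE.Law
import Pool.Agent.T2H99.AW.ES

/-!
# The Efron-Stein inequality for the uniform measure on `Ko`
-/

set_option autoImplicit false
set_option linter.unusedSectionVars false

namespace Pool.Agent.L0h31.KE

open MeasureTheory Set Matrix ProbabilityTheory
open scoped ENNReal InnerProductSpace
open Pool.Agent.H212R2.KLS

variable {n : ℕ} {κ : Type} [DecidableEq κ] [Fintype κ]

/-- the sigma-algebra of one column -/
@[instance_reducible]
def mc (m : ℕ) (j : Fin n) : MeasurableSpace (Om m n) :=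
  MeasurableSpace.comap (fun ω : Om m n => ω j) inferInstance

/-- the sigma-algebra of one block -/
@[instance_reducible]
def ms (m : ℕ) (β : Fin n → κ) (a : κ) : MeasurableSpace (Om m n) :=
  ⨆ j ∈ {j | β j = a}, mc m j

theorem mc_le (m : ℕ) (j : Fin n) : mc m j ≤ (inferInstance : MeasurableSpace (Om m n)) :=
  (measurable_pi_apply j).comap_le

theorem ms_le (m : ℕ) (β : Fin n → κ) (a : κ) :
    ms m β a ≤ (inferInstance : MeasurableSpace (Om m n)) :=
  iSup₂_le fun j _ => mc_le m j

theorem mc_indep (m : ℕ) : iIndep (fun j : Fin n => mc m j) (mB m n) :=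
  (iIndepFun_pi (μ := fun _ : Fin n => ub m) (X := fun _ x => x)
    (fun _ => aemeasurable_id))

theorem ms_indep (m : ℕ) (β : Fin n → κ) : iIndep (fun a => ms m β a) (mB m n) := by
  rw [iIndep_iff]
  intro s
  induction s using Finset.induction_on with
  | empty =>
    intro f _
    simp
  | insert a s ha ih =>
    intro f hf
    rw [Finset.prod_insert ha, Finset.set_biInter_insert,
      ← ih fun i hi => hf i (Finset.mem_insert_of_mem hi)]
    have hd : Disjoint {j : Fin n | β j = a} {j | β j ∈ s} := by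
      rw [Set.disjoint_left]
      intro j h1 h2
      exact ha (by rw [← show β j = a from h1]; exact h2)
    have hI := indep_iSup_of_disjoint (fun j => mc_le m j) (mc_indep m) hd
    rw [Indep_iff] at hI
    refine hI _ _ (hf a (Finset.mem_insert_self a s)) ?_
    refine @MeasurableSet.biInter (Om m n) κ (⨆ j ∈ {j | β j ∈ s}, mc m j) f (s : Set κ)
      s.countable_toSet fun b hb => ?_
    have hle : ms m β b ≤ ⨆ j ∈ {j | β j ∈ s}, mc m j := by
      refine iSup₂_le fun j hj => ?_
      refine le_iSup₂_of_le j ?_ le_rfl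
      change β j ∈ s
      rw [show β j = b from hj]
      exact hb
    exact hle _ (hf b (Finset.mem_insert_of_mem hb))

theorem ms_full (m : ℕ) (β : Fin n → κ) :
    (inferInstance : MeasurableSpace (Om m n)) ≤
      ⨆ x : (Finset.univ : Finset κ), ms m β (x : κ) := by
  have h : (inferInstance : MeasurableSpace (Om m n)) = ⨆ j, mc m j := rfl
  rw [h]
  refine iSup_le fun j => ?_
  refine le_trans ?_ (le_iSup (fun x : (Finset.univ : Finset κ) => ms m β (x : κ))
    ⟨β j, Finset.mem_univ _⟩)
  exact le_iSup₂_of_le j rfl le_rfl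

/-! ### blockwise normalisation -/

/-- the normalised vectors -/
noncomputable def uv {m : ℕ} (β : Fin n → κ) (ω : Om m n) (j : Fin n) : V m :=
  ∑ k, (if β k = β j then (sM (rt (ba β (β j) (gm ω))))⁻¹ k j else 0) • ω k

/-- the normalised off-diagonal blocks -/
noncomputable def xv {m : ℕ} (β : Fin n → κ) (ω : Om m n) : Eo β :=
  WithLp.toLp 2 fun p => ⟪uv β ω p.1.1, uv β ω p.1.2⟫_ℝ

theorem xv_apply {m : ℕ} (β : Fin n → κ) (ω : Om m n) (p : Op β) :
    xv β ω p = ⟪uv β ω p.1.1, uv β ω p.1.2⟫_ℝ := rfl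

theorem Tm_entry (β : Fin n → κ) {G : Sy n} (hG : G ∈ PD n) (k j : Fin n) :
    Tm β G k j = if β k = β j then (sM (rt (ba β (β j) G)))⁻¹ k j else 0 := by
  split_ifs with h
  · have h1 : (baM β (β j) (Tm β G)) k j = Tm β G k j := by
      rw [baM_apply, if_pos ⟨h, rfl⟩]
    rw [← h1]
    unfold Tm
    rw [← inv_ba (rt_isB (bd_mem β hG) (isB_bdM β _)) (rt_det (bd_mem β hG)), ← sM_ba,
      ← rt_ba (bd_mem β hG) (isB_bdM β _), ba_bd]
  · exact Tm_isB β hG k j h

theorem uv_eq {m : ℕ} (β : Fin n → κ) {ω : Om m n} (h : gm ω ∈ PD n) (j : Fin n) :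
    uv β ω j = ∑ k, Tm β (gm ω) k j • ω k := by
  unfold uv
  refine Finset.sum_congr rfl fun k _ => ?_
  rw [Tm_entry β h]

theorem xv_eq {m : ℕ} (β : Fin n → κ) {ω : Om m n} (h : gm ω ∈ PD n) :
    xv β ω = xh β (gm ω) := by
  ext p
  rw [xv_apply, uv_eq β h, uv_eq β h, sum_inner]
  change _ = ((Tm β (gm ω))ᵀ * sM (gm ω) * Tm β (gm ω)) p.1.1 p.1.2
  rw [Matrix.mul_assoc, Matrix.mul_apply]
  refine Finset.sum_congr rfl fun k _ => ?_
  rw [Matrix.transpose_apply, Matrix.mul_apply, inner_smul_left, inner_sum, Finset.mul_sum,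
    Finset.mul_sum]
  refine Finset.sum_congr rfl fun l _ => ?_
  rw [inner_smul_right, gm_apply]
  simp only [conj_trivial]
  ring

theorem measurable_uv (m : ℕ) (β : Fin n → κ) (j : Fin n) :
    Measurable fun ω : Om m n => uv β ω j := by
  unfold uv
  refine Finset.measurable_fun_sum _ fun k _ => ?_
  have h1 : Measurable fun ω : Om m n => (if β k = β j then
      (sM (rt (ba β (β j) (gm ω))))⁻¹ k j else 0 : ℝ) := ?_
  · exact h1.smul (show Measurable fun ω : Om m n => ω k from measurable_pi_apply k)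
  split_ifs
  · have hba : Measurable (ba β (β j) : Sy n → Sy n) := by
      refine R7.measurable_Sy fun i l => ?_
      change Measurable fun G : Sy n => baM β (β j) (sM G) i l
      simp only [baM_apply]
      split_ifs
      · exact (R9.continuous_entry i l).measurable
      · exact measurable_const
    exact (measurable_inv_entry k j).comp (measurable_rt.comp (hba.comp measurable_gm))
  · exact measurable_const

/-- keep one block of the columns -/
def ex {m : ℕ} (β : Fin n → κ) (a : κ) (ω : Om m n) : Om m n := fun k => if β k = a then ω k else 0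

theorem uv_ex {m : ℕ} (β : Fin n → κ) (ω : Om m n) (j : Fin n) :
    uv β ω j = uv β (ex β (β j) ω) j := by
  have h : ba β (β j) (gm ω) = ba β (β j) (gm (ex β (β j) ω)) := by
    apply sy_ext
    ext i l
    rw [sM_ba, sM_ba, baM_apply, baM_apply]
    split_ifs with h
    · rw [gm_apply, gm_apply]
      simp only [ex, h.1, h.2, if_true]
    · rfl
  unfold uv
  rw [← h]
  refine Finset.sum_congr rfl fun k _ => ?_
  split_ifs with hk
  · simp only [ex, hk, if_true]
  · rw [zero_smul, zero_smul]

theorem measurable_ex (m : ℕ) (β : Fin n → κ) (a : κ) :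
    Measurable[ms m β a] (ex β a : Om m n → Om m n) := by
  refine @measurable_pi_lambda (Om m n) (Fin n) (fun _ => V m) (ms m β a) _ _ fun k => ?_
  by_cases hk : β k = a
  · have e : (fun ω : Om m n => ex β a ω k) = fun ω => ω k := by
      funext ω
      simp only [ex, hk, if_true]
    rw [e]
    refine Measurable.mono (comap_measurable fun ω : Om m n => ω k) ?_ le_rfl
    exact le_iSup₂_of_le k hk le_rfl
  · have e : (fun ω : Om m n => ex β a ω k) = fun _ => 0 := by
      funext ω
      simp only [ex, hk, if_false]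
    rw [e]
    exact measurable_const

theorem measurable_uv' (m : ℕ) (β : Fin n → κ) (j : Fin n) :
    Measurable[ms m β (β j)] fun ω : Om m n => uv β ω j := by
  have e : (fun ω : Om m n => uv β ω j) = (fun ω => uv β ω j) ∘ ex β (β j) := by
    funext ω
    exact uv_ex β ω j
  rw [e]
  exact (measurable_uv m β j).comp (measurable_ex m β (β j))

theorem measurable_xv (m : ℕ) (β : Fin n → κ) : Measurable (xv β : Om m n → Eo β) := by
  refine (WithLp.measurable_toLp 2 (Op β → ℝ)).comp (measurable_pi_iff.2 fun p => ?_)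
  exact (measurable_uv m β _).inner (measurable_uv m β _)

/-- forget the coordinates which touch the block `a` -/
noncomputable def pj (β : Fin n → κ) (a : κ) (x : Eo β) : Eo β :=
  WithLp.toLp 2 fun p => if β p.1.1 = a ∨ β p.1.2 = a then 0 else x p

theorem measurable_pj_xv (m : ℕ) (β : Fin n → κ) (a : κ) :
    Measurable[⨆ x : ((Finset.univ : Finset κ).erase a : Finset κ), ms m β (x : κ)]
      (fun ω : Om m n => pj β a (xv β ω)) := by
  refine (WithLp.measurable_toLp 2 (Op β → ℝ)).comp ?_
  refine @measurable_pi_lambda (Om m n) (Op β) (fun _ => ℝ) (_) _ _ fun p => ?_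
  by_cases hp : β p.1.1 = a ∨ β p.1.2 = a
  · simp only [hp, if_true]
    exact measurable_const
  · simp only [hp, if_false]
    push Not at hp
    have h1 : ∀ j : Fin n, β j ≠ a →
        Measurable[⨆ x : ((Finset.univ : Finset κ).erase a : Finset κ), ms m β (x : κ)]
          (fun ω : Om m n => uv β ω j) := by
      intro j hj
      refine (measurable_uv' m β j).mono ?_ le_rfl
      exact le_iSup (fun x : ((Finset.univ : Finset κ).erase a : Finset κ) => ms m β (x : κ))
        ⟨β j, Finset.mem_erase.2 ⟨hj, Finset.mem_univ _⟩⟩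
    have h2 : Measurable fun z : V m × V m => ⟪z.1, z.2⟫_ℝ := by fun_prop
    exact h2.comp ((h1 _ hp.1).prodMk (h1 _ hp.2))

theorem law_xv (β : Fin n → κ) (ψ : Eo β → ℝ) :
    ∫ ω, ψ (xv β ω) ∂(mB (n + 1) n) = ∫ ω, ψ (xh β (gm ω)) ∂(mB (n + 1) n) := by
  refine integral_congr_ae ?_
  filter_upwards [mB_ae n] with ω hω
  rw [xv_eq β hω]

theorem int_xv (β : Fin n → κ) (ψ : Eo β → ℝ) (hψ : Measurable ψ) :
    ∫ ω, ψ (xv β ω) ∂(mB (n + 1) n) = ∫ x, ψ x ∂(uK β) := by
  rw [law_xv, ← map_xh β, integral_map]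
  · exact ((measurable_xh β).comp measurable_gm).aemeasurable
  · exact hψ.aestronglyMeasurable

/-- Efron-Stein -/
theorem es (β : Fin n → κ) (f : Eo β → ℝ) (h : κ → Eo β → ℝ) (C : ℝ) (hf : Measurable f)
    (hfb : ∀ x, |f x| ≤ C) (hh : ∀ a, Measurable (h a)) (hhb : ∀ a x, |h a x| ≤ C)
    (hloc : ∀ a x, h a x = h a (pj β a x)) :
    ∫ x, (f x - ∫ y, f y ∂(uK β)) ^ 2 ∂(uK β) ≤ ∑ a, ∫ x, (f x - h a x) ^ 2 ∂(uK β) := by
  have key := Pool.Agent.T2H99.AW.efron_stein (mB (n + 1) n) (ms (n + 1) β) (ms_le (n + 1) β)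
    (ms_indep (n + 1) β) Finset.univ (fun ω => f (xv β ω)) (fun a ω => h a (xv β ω)) C
    ((hf.comp (measurable_xv (n + 1) β)).mono (ms_full (n + 1) β) le_rfl) (fun ω => hfb _)
    (fun a _ => by
      have e : (fun ω : Om (n + 1) n => h a (xv β ω)) = fun ω => h a (pj β a (xv β ω)) := by
        funext ω
        exact hloc a _
      rw [e]
      exact (hh a).comp (measurable_pj_xv (n + 1) β a)) (fun a ω => hhb a _)
  rw [int_xv β f hf] at key
  rw [int_xv β (fun x => (f x - ∫ y, f y ∂(uK β)) ^ 2) ((hf.sub_const _).pow_const 2)] at key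
  refine key.trans (le_of_eq (Finset.sum_congr rfl fun a _ => ?_))
  exact int_xv β (fun x => (f x - h a x) ^ 2) ((hf.sub (hh a)).pow_const 2)

end Pool.Agent.L0h31.KE
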