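import Pool.Agent.L0h31.KE.Opn
import Pool.Agent.L0h31.KE.Es
import Pool.Agent.L0h31.KE.Ball

/-!
# The fibres over the complement of one block
-/

set_option autoImplicit false
set_option linter.unusedSectionVars false

namespace Pool.Agent.L0h31.KE

open MeasureTheory Set Matrix
open scoped ENNReal InnerProductSpace
open Pool.Agent.H212R2.KLS

variable {n : ℕ} {κ : Type} [DecidableEq κ]

/-- the pair touches the block -/
def tch (β : Fin n → κ) (a : κ) (p : Op β) : Prop := β p.1.1 = a ∨ β p.1.2 = a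

instance (β : Fin n → κ) (a : κ) : DecidablePred (tch β a) := fun p =>
  inferInstanceAs (Decidable (β p.1.1 = a ∨ β p.1.2 = a))

/-- indices in the block -/
abbrev Al (β : Fin n → κ) (a : κ) : Type := {i : Fin n // β i = a}

/-- indices outside the block -/
abbrev Ga (β : Fin n → κ) (a : κ) : Type := {i : Fin n // ¬ β i = a}

/-- pairs which do not touch the block -/
abbrev Ob (β : Fin n → κ) (a : κ) : Type := {p : Op β // ¬ tch β a p}

theorem card_AG (β : Fin n → κ) (a : κ) : Fintype.card (Al β a) + Fintype.card (Ga β a) = n := by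
  have h1 : Fintype.card (Al β a ⊕ Ga β a) = Fintype.card (Fin n) :=
    Fintype.card_congr (Equiv.sumCompl fun i => β i = a)
  rw [Fintype.card_sum, Fintype.card_fin] at h1
  exact h1

/-- the pair of two indices -/
def tc (β : Fin n → κ) (a : κ) (q : Al β a × Ga β a) : Op β :=
  if h : q.1.1 < q.2.1 then ⟨(q.1.1, q.2.1), h, fun e => q.2.2 (e.symm.trans q.1.2)⟩ else
    ⟨(q.2.1, q.1.1), lt_of_le_of_ne (not_lt.1 h)
      (fun e : q.2.1 = q.1.1 => q.2.2 (by rw [e]; exact q.1.2)),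
      fun e => q.2.2 (e.trans q.1.2)⟩

theorem soM_tc (β : Fin n → κ) (a : κ) (x : Eo β) (q : Al β a × Ga β a) :
    soM β x q.1.1 q.2.1 = x (tc β a q) := by
  by_cases h : q.1.1 < q.2.1
  · have e : tc β a q = ⟨(q.1.1, q.2.1), h, fun e => q.2.2 (e.symm.trans q.1.2)⟩ := dif_pos h
    rw [e]
    exact soM_lt β x ⟨(q.1.1, q.2.1), _⟩
  · have e : tc β a q = ⟨(q.2.1, q.1.1), lt_of_le_of_ne (not_lt.1 h)
      (fun e : q.2.1 = q.1.1 => q.2.2 (by rw [e]; exact q.1.2)),
      fun e => q.2.2 (e.trans q.1.2)⟩ := dif_neg h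
    rw [e]
    exact soM_gt β x ⟨(q.2.1, q.1.1), _⟩

theorem tch_tc (β : Fin n → κ) (a : κ) (q : Al β a × Ga β a) : tch β a (tc β a q) := by
  unfold tc
  split_ifs with h
  · exact Or.inl q.1.2
  · exact Or.inr q.1.2

/-- the pair from the pair of indices -/
def ct (β : Fin n → κ) (a : κ) (p : Op β) : (Al β a × Ga β a) ⊕ Ob β a :=
  if h1 : β p.1.1 = a then .inl (⟨p.1.1, h1⟩, ⟨p.1.2, fun h => p.2.2 (h1.trans h.symm)⟩)
  else if h2 : β p.1.2 = a then .inl (⟨p.1.2, h2⟩, ⟨p.1.1, h1⟩)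
  else .inr ⟨p, fun h => h.elim h1 h2⟩

theorem ct_tc (β : Fin n → κ) (a : κ) (q : Al β a × Ga β a) : ct β a (tc β a q) = .inl q := by
  unfold tc
  split_ifs with h
  · unfold ct
    rw [dif_pos q.1.2]
  · unfold ct
    rw [dif_neg q.2.2, dif_pos q.1.2]

/-- the pairs -/
def eqp (β : Fin n → κ) (a : κ) : (Al β a × Ga β a) ⊕ Ob β a ≃ Op β where
  toFun := Sum.elim (tc β a) Subtype.val
  invFun := ct β a
  left_inv := by
    rintro (q | p)
    · exact ct_tc β a q
    · change ct β a p.1 = _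
      have h := p.2
      unfold tch at h
      push Not at h
      unfold ct
      rw [dif_neg h.1, dif_neg h.2]
  right_inv := by
    intro p
    unfold ct
    split_ifs with h1 h2
    · change tc β a _ = p
      unfold tc
      rw [dif_pos p.2.1]
    · change tc β a _ = p
      unfold tc
      rw [dif_neg (not_lt.2 p.2.1.le)]
    · rfl

theorem eqp_inl (β : Fin n → κ) (a : κ) (q : Al β a × Ga β a) : eqp β a (.inl q) = tc β a q := rfl

theorem eqp_inr (β : Fin n → κ) (a : κ) (p : Ob β a) : eqp β a (.inr p) = p.1 := rfl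

/-- the coordinates of the fibre and of the base -/
def gl (β : Fin n → κ) (a : κ) : (EA (Al β a) (Ga β a) × (Ob β a → ℝ)) ≃ₗ[ℝ] Eo β where
  toFun z := WithLp.toLp 2 fun p => Sum.elim (fun q => z.1 q) z.2 ((eqp β a).symm p)
  invFun x := (WithLp.toLp 2 fun q => x (eqp β a (.inl q)), fun p => x (eqp β a (.inr p)))
  map_add' z w := by
    ext p
    change Sum.elim (fun q => (z + w).1 q) (z + w).2 ((eqp β a).symm p) =
      Sum.elim (fun q => z.1 q) z.2 ((eqp β a).symm p) +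
      Sum.elim (fun q => w.1 q) w.2 ((eqp β a).symm p)
    rcases (eqp β a).symm p with q | q <;> rfl
  map_smul' c z := by
    ext p
    change Sum.elim (fun q => (c • z).1 q) (c • z).2 ((eqp β a).symm p) =
      c * Sum.elim (fun q => z.1 q) z.2 ((eqp β a).symm p)
    rcases (eqp β a).symm p with q | q <;> rfl
  left_inv z := by
    refine Prod.ext ?_ ?_
    · ext q
      change Sum.elim (fun q => z.1 q) z.2 ((eqp β a).symm (eqp β a (.inl q))) = _
      rw [Equiv.symm_apply_apply]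
      rfl
    · ext q
      change Sum.elim (fun q => z.1 q) z.2 ((eqp β a).symm (eqp β a (.inr q))) = _
      rw [Equiv.symm_apply_apply]
      rfl
  right_inv x := by
    ext p
    change Sum.elim (fun q => x (eqp β a (.inl q))) (fun q => x (eqp β a (.inr q)))
      ((eqp β a).symm p) = x p
    obtain ⟨s, rfl⟩ := (eqp β a).surjective p
    rw [Equiv.symm_apply_apply]
    rcases s with q | q <;> rfl

theorem gl_tc (β : Fin n → κ) (a : κ) (z : EA (Al β a) (Ga β a) × (Ob β a → ℝ))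
    (q : Al β a × Ga β a) : gl β a z (tc β a q) = z.1 q := by
  change Sum.elim (fun q => z.1 q) z.2 ((eqp β a).symm (eqp β a (.inl q))) = _
  rw [Equiv.symm_apply_apply]
  rfl

theorem gl_ob (β : Fin n → κ) (a : κ) (z : EA (Al β a) (Ga β a) × (Ob β a → ℝ))
    (q : Ob β a) : gl β a z q.1 = z.2 q := by
  change Sum.elim (fun q => z.1 q) z.2 ((eqp β a).symm (eqp β a (.inr q))) = _
  rw [Equiv.symm_apply_apply]
  rfl

/-- the fibre coordinates -/
def Cx (β : Fin n → κ) (a : κ) (x : Eo β) : EA (Al β a) (Ga β a) :=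
  WithLp.toLp 2 fun q => soM β x q.1.1 q.2.1

/-- the complementary submatrix -/
def Yx (β : Fin n → κ) (a : κ) (x : Eo β) : Matrix (Ga β a) (Ga β a) ℝ :=
  Matrix.of fun i j => (1 + soM β x) i.1 j.1

theorem Cx_gl (β : Fin n → κ) (a : κ) (z : EA (Al β a) (Ga β a) × (Ob β a → ℝ)) :
    Cx β a (gl β a z) = z.1 := by
  ext q
  change soM β (gl β a z) q.1.1 q.2.1 = _
  rw [soM_tc, gl_tc]

/-- the complementary submatrix depends on the base coordinates only -/
theorem Yx_congr {β : Fin n → κ} {a : κ} {x x' : Eo β} (h : ∀ p, ¬ tch β a p → x p = x' p) :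
    Yx β a x = Yx β a x' := by
  ext i j
  change (1 : Matrix (Fin n) (Fin n) ℝ) i.1 j.1 + soM β x i.1 j.1 = 
    (1 : Matrix (Fin n) (Fin n) ℝ) i.1 j.1 + soM β x' i.1 j.1
  congr 1
  by_cases hij : β i.1 = β j.1
  · rw [soM_eq β x _ _ hij, soM_eq β x' _ _ hij]
  · have hne : i.1 ≠ j.1 := fun e => hij (congrArg β e)
    rcases lt_or_gt_of_ne hne with h1 | h1
    · rw [soM_lt β x ⟨(i.1, j.1), ⟨h1, hij⟩⟩, soM_lt β x' ⟨(i.1, j.1), ⟨h1, hij⟩⟩]
      exact h _ (fun ht => ht.elim i.2 j.2)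
    · rw [soM_gt β x ⟨(j.1, i.1), ⟨h1, Ne.symm hij⟩⟩, soM_gt β x' ⟨(j.1, i.1), ⟨h1, Ne.symm hij⟩⟩]
      exact h _ (fun ht => ht.elim j.2 i.2)

theorem Yx_gl (β : Fin n → κ) (a : κ) (C C' : EA (Al β a) (Ga β a)) (y : Ob β a → ℝ) :
    Yx β a (gl β a (C, y)) = Yx β a (gl β a (C', y)) := by
  refine Yx_congr fun p hp => ?_
  rw [gl_ob β a _ ⟨p, hp⟩, gl_ob β a _ ⟨p, hp⟩]

/-- the quadratic form -/
theorem quad_split (β : Fin n → κ) (a : κ) (x : Eo β) (v : Fin n → ℝ) :
    v ⬝ᵥ (sM (oneS n + so β x) *ᵥ v) = ∑ i : Al β a, v i.1 ^ 2 +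
      2 * bl (Cx β a x) (fun i => v i.1) (fun j => v j.1) +
      (fun j : Ga β a => v j.1) ⬝ᵥ (Yx β a x *ᵥ fun j => v j.1) := by
  have hs : ∀ g : Fin n → ℝ, ∑ i, g i = ∑ i : Al β a, g i.1 + ∑ i : Ga β a, g i.1 := fun g =>
    (Fintype.sum_subtype_add_sum_subtype (fun i => β i = a) g).symm
  have h1 : v ⬝ᵥ (sM (oneS n + so β x) *ᵥ v) = ∑ i, ∑ j, v i * (1 + soM β x) i j * v j := by
    simp only [dotProduct, Matrix.mulVec, Finset.mul_sum]
    refine Finset.sum_congr rfl fun i _ => Finset.sum_congr rfl fun j _ => ?_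
    change v i * ((1 + soM β x) i j * v j) = _
    ring
  have h2 : (fun j : Ga β a => v j.1) ⬝ᵥ (Yx β a x *ᵥ fun j => v j.1) =
      ∑ i : Ga β a, ∑ j : Ga β a, v i.1 * (1 + soM β x) i.1 j.1 * v j.1 := by
    simp only [dotProduct, Matrix.mulVec, Finset.mul_sum]
    refine Finset.sum_congr rfl fun i _ => Finset.sum_congr rfl fun j _ => ?_
    change v i.1 * ((1 + soM β x) i.1 j.1 * v j.1) = _
    ring
  have h3 : ∑ i : Al β a, ∑ j : Al β a, v i.1 * (1 + soM β x) i.1 j.1 * v j.1 =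
      ∑ i : Al β a, v i.1 ^ 2 := by
    refine Finset.sum_congr rfl fun i _ => ?_
    rw [Finset.sum_eq_single i]
    · rw [Matrix.add_apply, Matrix.one_apply_eq, soM_eq β x _ _ rfl]
      ring
    · intro j _ hj
      rw [Matrix.add_apply, Matrix.one_apply_ne (fun e => hj (Subtype.ext e.symm)),
        soM_eq β x _ _ (i.2.trans j.2.symm)]
      ring
    · simp
  have h4 : ∑ i : Al β a, ∑ j : Ga β a, v i.1 * (1 + soM β x) i.1 j.1 * v j.1 =
      bl (Cx β a x) (fun i => v i.1) (fun j => v j.1) := by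
    unfold bl
    refine Finset.sum_congr rfl fun i _ => Finset.sum_congr rfl fun j _ => ?_
    have hne : i.1 ≠ j.1 := fun e => j.2 (by rw [← e]; exact i.2)
    rw [Matrix.add_apply, Matrix.one_apply_ne hne, zero_add]
    rfl
  have h5 : ∑ i : Ga β a, ∑ j : Al β a, v i.1 * (1 + soM β x) i.1 j.1 * v j.1 =
      bl (Cx β a x) (fun i => v i.1) (fun j => v j.1) := by
    rw [← h4, Finset.sum_comm]
    refine Finset.sum_congr rfl fun i _ => Finset.sum_congr rfl fun j _ => ?_
    have hne : i.1 ≠ j.1 := fun e => j.2 (by rw [← e]; exact i.2)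
    rw [Matrix.add_apply, Matrix.add_apply, Matrix.one_apply_ne hne, Matrix.one_apply_ne hne.symm,
      soM_symm β x j.1 i.1]
    ring
  rw [h1, hs]
  simp_rw [hs (fun j => _ * v j)]
  rw [Finset.sum_add_distrib, Finset.sum_add_distrib, h3, h4, h5, h2]
  ring

end Pool.Agent.L0h31.KE
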