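import Pool.Agent.L0h31.KE.Fib

/-!
# Poincare inequality in the fibres over the complement of one block
-/

set_option autoImplicit false
set_option linter.unusedSectionVars false

namespace Pool.Agent.L0h31.KE

open MeasureTheory Set Matrix
open scoped ENNReal InnerProductSpace
open Pool.Agent.H212R2.KLS

variable {n : ℕ} {κ : Type} [DecidableEq κ]

/-- the vector with given restrictions -/
def glv (β : Fin n → κ) (a : κ) (u : Al β a → ℝ) (w : Ga β a → ℝ) (i : Fin n) : ℝ :=
  if h : β i = a then u ⟨i, h⟩ else w ⟨i, h⟩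

theorem glv_al (β : Fin n → κ) (a : κ) (u : Al β a → ℝ) (w : Ga β a → ℝ) (i : Al β a) :
    glv β a u w i.1 = u i := by
  unfold glv
  rw [dif_pos i.2]

theorem glv_ga (β : Fin n → κ) (a : κ) (u : Al β a → ℝ) (w : Ga β a → ℝ) (i : Ga β a) :
    glv β a u w i.1 = w i := by
  unfold glv
  rw [dif_neg i.2]

theorem quad_glv (β : Fin n → κ) (a : κ) (x : Eo β) (u : Al β a → ℝ) (w : Ga β a → ℝ) :
    glv β a u w ⬝ᵥ (sM (oneS n + so β x) *ᵥ glv β a u w) = ∑ i, u i ^ 2 +
      2 * bl (Cx β a x) u w + w ⬝ᵥ (Yx β a x *ᵥ w) := by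
  rw [quad_split β a]
  simp only [glv_al, glv_ga]

theorem quad_nonneg {G : Sy n} (hG : G ∈ PD n) (v : Fin n → ℝ) : 0 ≤ v ⬝ᵥ (sM G *ᵥ v) := by
  by_cases hv : v = 0
  · rw [hv]
    simp
  · exact (hG v hv).le

theorem bl_smul_left {α γ : Type} [Fintype α] [Fintype γ] (C : EA α γ) (t : ℝ) (u : α → ℝ)
    (w : γ → ℝ) : bl C (fun i => t * u i) w = t * bl C u w := by
  unfold bl
  simp only [Finset.mul_sum]
  refine Finset.sum_congr rfl fun i _ => Finset.sum_congr rfl fun j _ => ?_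
  ring

theorem bl_smul {α γ : Type} [Fintype α] [Fintype γ] (C : EA α γ) (t : ℝ) (u : α → ℝ)
    (w : γ → ℝ) : bl (t • C) u w = t * bl C u w := by
  unfold bl
  simp only [Finset.mul_sum]
  refine Finset.sum_congr rfl fun i _ => Finset.sum_congr rfl fun j _ => ?_
  change u i * (t * C (i, j)) * w j = _
  ring

theorem mem_Fb_of_mem {β : Fin n → κ} (a : κ) {x : Eo β} (hx : x ∈ Ko β) :
    Cx β a x ∈ Fb (Al β a) (Yx β a x) := by
  intro u w
  have h : ∀ t : ℝ, 0 ≤ (∑ i, u i ^ 2) * (t * t) + (2 * bl (Cx β a x) u w) * t +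
      w ⬝ᵥ (Yx β a x *ᵥ w) := by
    intro t
    have h1 := quad_nonneg hx (glv β a (fun i => t * u i) w)
    rw [quad_glv, bl_smul_left] at h1
    have e : ∑ i, (t * u i) ^ 2 = (∑ i, u i ^ 2) * (t * t) := by
      rw [Finset.sum_mul]
      refine Finset.sum_congr rfl fun i _ => ?_
      ring
    rw [e] at h1
    linarith
  have h2 := discrim_le_zero h
  unfold discrim at h2
  linarith

theorem posDef_Yx {β : Fin n → κ} (a : κ) {x : Eo β} (hx : x ∈ Ko β) :
    (Yx β a x).PosDef := by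
  refine Matrix.PosDef.of_dotProduct_mulVec_pos ?_ fun w hw => ?_
  · rw [Matrix.IsHermitian, Matrix.conjTranspose_eq_transpose_of_trivial]
    ext i j
    change (1 : Matrix (Fin n) (Fin n) ℝ) j.1 i.1 + soM β x j.1 i.1 =
      (1 : Matrix (Fin n) (Fin n) ℝ) i.1 j.1 + soM β x i.1 j.1
    rw [soM_symm β x j.1 i.1]
    congr 1
    simp only [Matrix.one_apply, eq_comm]
  · have h1 := hx (glv β a 0 w) ?_
    · rw [quad_glv] at h1
      have e1 : bl (Cx β a x) 0 w = 0 := by
        unfold bl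
        simp
      rw [e1] at h1
      simpa using h1
    · intro h2
      apply hw
      funext i
      rw [← glv_ga β a 0 w i, h2]
      rfl

theorem mem_Ko_of {β : Fin n → κ} {a : κ} {C : EA (Al β a) (Ga β a)} {y : Ob β a → ℝ}
    (hY : (Yx β a (gl β a (0, y))).PosDef) (hC : C ∈ Fb (Al β a) (Yx β a (gl β a (0, y))))
    {t : ℝ} (ht0 : 0 ≤ t) (ht1 : t < 1) : gl β a (t • C, y) ∈ Ko β := by
  intro v hv
  rw [quad_split β a, Cx_gl, bl_smul, Yx_gl β a (t • C) 0 y]
  set u : Al β a → ℝ := fun i => v i.1 with hu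
  set w : Ga β a → ℝ := fun i => v i.1 with hw
  have h1 := hC u w
  have hP : 0 ≤ ∑ i : Al β a, v i.1 ^ 2 := Finset.sum_nonneg fun i _ => sq_nonneg _
  have hQ : 0 ≤ w ⬝ᵥ (Yx β a (gl β a (0, y)) *ᵥ w) := by
    have := hY.posSemidef.dotProduct_mulVec_nonneg w
    simpa using this
  have hPQ : 0 < ∑ i : Al β a, v i.1 ^ 2 + w ⬝ᵥ (Yx β a (gl β a (0, y)) *ᵥ w) := by
    by_cases hw0 : w = 0
    · have hu0 : u ≠ 0 := by
        intro hu0
        apply hv
        funext i
        by_cases hi : β i = a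
        · exact congrFun hu0 ⟨i, hi⟩
        · exact congrFun hw0 ⟨i, hi⟩
      have : 0 < ∑ i : Al β a, v i.1 ^ 2 := by
        obtain ⟨i, hi⟩ := Function.ne_iff.1 hu0
        refine Finset.sum_pos' (fun j _ => sq_nonneg _) ⟨i, Finset.mem_univ _, ?_⟩
        exact pow_pos_of_ne hi
      linarith
    · have := hY.dotProduct_mulVec_pos hw0
      have h3 : 0 < w ⬝ᵥ (Yx β a (gl β a (0, y)) *ᵥ w) := by simpa using this
      linarith
  set P := ∑ i : Al β a, v i.1 ^ 2 with hPdef
  set Q := w ⬝ᵥ (Yx β a (gl β a (0, y)) *ᵥ w) with hQdef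
  have h2 : |2 * bl C u w| ≤ P + Q := by
    refine abs_le_of_sq_le_sq ?_ (by linarith)
    have h3 : (bl C u w) ^ 2 ≤ P * Q := h1
    nlinarith [sq_nonneg (P - Q)]
  have h4 := (abs_le.1 h2).1
  have h5 : -(t * (P + Q)) ≤ t * (2 * bl C u w) := by
    have := mul_le_mul_of_nonneg_left h4 ht0
    linarith
  have h6 : 0 < (1 - t) * (P + Q) := mul_pos (by linarith) hPQ
  linarith
where
  pow_pos_of_ne {x : ℝ} (h : x ≠ 0) : 0 < x ^ 2 := by positivity

/-- the fibre -/
def Sf (β : Fin n → κ) (a : κ) (y : Ob β a → ℝ) : Set (EA (Al β a) (Ga β a)) :=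
  {C | gl β a (C, y) ∈ Ko β}

theorem continuous_gl (β : Fin n → κ) (a : κ) : Continuous (gl β a) :=
  LinearMap.continuous_of_finiteDimensional (gl β a).toLinearMap

theorem continuous_gl_left (β : Fin n → κ) (a : κ) (y : Ob β a → ℝ) :
    Continuous fun C : EA (Al β a) (Ga β a) => gl β a (C, y) :=
  (continuous_gl β a).comp (continuous_id.prodMk continuous_const)

theorem isOpen_Sf (β : Fin n → κ) (a : κ) (y : Ob β a → ℝ) : IsOpen (Sf β a y) :=
  (isOpen_Ko β).preimage (continuous_gl_left β a y)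

theorem convex_Sf (β : Fin n → κ) (a : κ) (y : Ob β a → ℝ) : Convex ℝ (Sf β a y) := by
  intro C hC D hD s t hs ht hst
  have h := convex_Ko β hC hD hs ht hst
  have e : s • gl β a (C, y) + t • gl β a (D, y) = gl β a (s • C + t • D, y) := by
    rw [← map_smul, ← map_smul, ← map_add]
    congr 1
    refine Prod.ext rfl ?_
    change s • y + t • y = y
    rw [← add_smul, hst, one_smul]
  rw [e] at h
  exact h

theorem bdd_Sf (β : Fin n → κ) (a : κ) (y : Ob β a → ℝ) : Bornology.IsBounded (Sf β a y) := by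
  rw [isBounded_iff_forall_norm_le]
  refine ⟨Real.sqrt (Fintype.card (Al β a × Ga β a)), fun C hC => ?_⟩
  rw [EuclideanSpace.norm_eq]
  refine Real.sqrt_le_sqrt ?_
  calc ∑ p, ‖C p‖ ^ 2 ≤ ∑ _p : Al β a × Ga β a, (1 : ℝ) := by
        refine Finset.sum_le_sum fun p _ => ?_
        have h := entry_Ko hC (tc β a p)
        rw [gl_tc] at h
        rw [Real.norm_eq_abs]
        have := abs_nonneg (C p)
        change |C p| ^ 2 ≤ 1
        change |C p| ≤ 1 at h
        nlinarith
    _ = _ := by simp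

theorem Sf_ae {β : Fin n → κ} {a : κ} {y : Ob β a → ℝ} (hne : (Sf β a y).Nonempty) :
    Sf β a y =ᵐ[volume] Fb (Al β a) (Yx β a (gl β a (0, y))) := by
  obtain ⟨C0, hC0⟩ := hne
  have hY : (Yx β a (gl β a (0, y))).PosDef := by
    rw [Yx_gl β a 0 C0 y]
    exact posDef_Yx a hC0
  have h1 : Sf β a y ⊆ Fb (Al β a) (Yx β a (gl β a (0, y))) := by
    intro C hC
    have := mem_Fb_of_mem a hC
    rw [Cx_gl] at this
    rw [Yx_gl β a 0 C y]
    exact this
  have h2 : Fb (Al β a) (Yx β a (gl β a (0, y))) ⊆ closure (Sf β a y) := by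
    intro C hC
    have hlim : Filter.Tendsto (fun t : ℝ => t • C) (nhdsWithin 1 (Set.Ico 0 1)) (nhds C) := by
      have : Filter.Tendsto (fun t : ℝ => t • C) (nhds 1) (nhds ((1 : ℝ) • C)) :=
        (continuous_id.smul continuous_const).tendsto 1
      rw [one_smul] at this
      exact this.mono_left nhdsWithin_le_nhds
    have hNe : (nhdsWithin (1 : ℝ) (Set.Ico 0 1)).NeBot := by
      rw [← mem_closure_iff_nhdsWithin_neBot, closure_Ico (by norm_num)]
      simp
    refine mem_closure_of_tendsto hlim ?_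
    filter_upwards [self_mem_nhdsWithin] with t ht
    exact mem_Ko_of hY hC ht.1 ht.2
  have h3 : closure (Sf β a y) =ᵐ[volume] Sf β a y := by
    have hf := (convex_Sf β a y).addHaar_frontier (volume : Measure (EA (Al β a) (Ga β a)))
    have h4 : closure (Sf β a y) =ᵐ[volume] interior (Sf β a y) := by
      refine (Filter.EventuallyEq.symm ?_)
      rw [ae_eq_set]
      refine ⟨?_, hf⟩
      rw [sdiff_eq_bot_iff.2 (interior_subset.trans subset_closure)]
      exact measure_empty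
    rwa [(isOpen_Sf β a y).interior_eq] at h4
  exact Filter.EventuallyEq.symm
    ((Filter.EventuallyLE.antisymm (h2.eventuallyLE.trans h3.le) h1.eventuallyLE))

/-- the norm of the complementary submatrix -/
noncomputable def Kf (β : Fin n → κ) (a : κ) (y : Ob β a → ℝ) : ℝ :=
  ⨅ C : EA (Al β a) (Ga β a), Lam β (gl β a (C, y))

theorem Kf_nonneg (β : Fin n → κ) (a : κ) (y : Ob β a → ℝ) : 0 ≤ Kf β a y :=
  Real.iInf_nonneg fun _ => Lam_nonneg β _

theorem Kf_le (β : Fin n → κ) (a : κ) (y : Ob β a → ℝ) (C : EA (Al β a) (Ga β a)) :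
    Kf β a y ≤ Lam β (gl β a (C, y)) :=
  ciInf_le ⟨0, by rintro _ ⟨C, rfl⟩; exact Lam_nonneg β _⟩ C

theorem Kf_quad (β : Fin n → κ) (a : κ) (y : Ob β a → ℝ) (w : Ga β a → ℝ) :
    w ⬝ᵥ (Yx β a (gl β a (0, y)) *ᵥ w) ≤ Kf β a y * ∑ j, w j ^ 2 := by
  have key : ∀ C : EA (Al β a) (Ga β a), w ⬝ᵥ (Yx β a (gl β a (0, y)) *ᵥ w) ≤
      Lam β (gl β a (C, y)) * ∑ j, w j ^ 2 := by
    intro C
    have h1 := quad_le_opn (oneS n + so β (gl β a (C, y))) (glv β a 0 w)
    rw [quad_glv] at h1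
    have e1 : bl (Cx β a (gl β a (C, y))) 0 w = 0 := by
      unfold bl
      simp
    have e2 : ∑ i, glv β a 0 w i ^ 2 = ∑ j, w j ^ 2 := by
      rw [← Fintype.sum_subtype_add_sum_subtype (fun i => β i = a)]
      have e3 : ∑ i : Al β a, glv β a 0 w i.1 ^ 2 = 0 := by
        refine Finset.sum_eq_zero fun i _ => ?_
        rw [glv_al]
        simp
      have e4 : ∑ i : Ga β a, glv β a 0 w i.1 ^ 2 = ∑ j, w j ^ 2 :=
        Finset.sum_congr rfl fun i _ => by rw [glv_ga]
      change ∑ i : Al β a, glv β a 0 w i.1 ^ 2 + ∑ i : Ga β a, glv β a 0 w i.1 ^ 2 = _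
      rw [e3, e4, zero_add]
    rw [e1, e2, Yx_gl β a C 0 y] at h1
    have e5 : ∑ i : Al β a, (0 : Al β a → ℝ) i ^ 2 = 0 := by simp
    rw [e5] at h1
    unfold Lam
    linarith
  rcases eq_or_lt_of_le (Finset.sum_nonneg fun j (_ : j ∈ Finset.univ) => sq_nonneg (w j)) with
    h | h
  · have := key 0
    rw [← h, mul_zero] at this
    rw [← h, mul_zero]
    exact this
  · rw [← div_le_iff₀ h]
    refine le_ciInf fun C => ?_
    rw [div_le_iff₀ h]
    exact key C

/-- the squares of the partial derivatives along the pairs which touch the block -/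
noncomputable def gr (β : Fin n → κ) (a : κ) (f : Eo β → ℝ) (x : Eo β) : ℝ :=
  ∑ p, if tch β a p then (fderiv ℝ f x (EuclideanSpace.single p 1)) ^ 2 else 0

theorem gr_nonneg (β : Fin n → κ) (a : κ) (f : Eo β → ℝ) (x : Eo β) : 0 ≤ gr β a f x := by
  refine Finset.sum_nonneg fun p _ => ?_
  split_ifs
  · exact sq_nonneg _
  · exact le_rfl

theorem lin_expand {ι : Type} [Fintype ι] [DecidableEq ι] (L : EuclideanSpace ℝ ι →L[ℝ] ℝ)
    (u : EuclideanSpace ℝ ι) : L u = ∑ p, u p * L (EuclideanSpace.single p 1) := by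
  have h : u = ∑ p, u p • EuclideanSpace.single p (1 : ℝ) := by
    ext q
    rw [WithLp.ofLp_sum, Finset.sum_apply, Finset.sum_eq_single q]
    · simp
    · intro p _ hp
      simp [hp]
    · simp
  conv_lhs => rw [h, map_sum]
  refine Finset.sum_congr rfl fun p _ => ?_
  rw [map_smul, smul_eq_mul]

theorem norm_gl (β : Fin n → κ) (a : κ) (D : EA (Al β a) (Ga β a)) :
    ∑ p, gl β a (D, 0) p ^ 2 = ‖D‖ ^ 2 := by
  rw [← Equiv.sum_comp (eqp β a), Fintype.sum_sum_type, EuclideanSpace.real_norm_sq_eq]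
  have e1 : ∑ q : Ob β a, gl β a (D, 0) (eqp β a (.inr q)) ^ 2 = 0 := by
    refine Finset.sum_eq_zero fun q _ => ?_
    rw [eqp_inr, gl_ob]
    simp
  rw [e1, add_zero]
  refine Finset.sum_congr rfl fun q _ => ?_
  rw [eqp_inl, gl_tc]

theorem sq_grad_le (β : Fin n → κ) (a : κ) (f : Eo β → ℝ) (hf : ContDiff ℝ 1 f)
    (y : Ob β a → ℝ) (C : EA (Al β a) (Ga β a)) :
    ‖fderiv ℝ (fun C => f (gl β a (C, y))) C‖ ^ 2 ≤ gr β a f (gl β a (C, y)) := by
  set L : EA (Al β a) (Ga β a) →L[ℝ] Eo β := LinearMap.toContinuousLinearMap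
    ((gl β a).toLinearMap ∘ₗ LinearMap.inl ℝ _ _) with hL
  have hLa : ∀ D, L D = gl β a (D, 0) := fun D => rfl
  have hg : HasFDerivAt (fun C => gl β a (C, y)) L C := by
    have e : (fun C => gl β a (C, y)) = fun C => L C + gl β a (0, y) := by
      funext D
      rw [hLa, ← map_add]
      congr 1
      refine Prod.ext ?_ ?_
      · change D = D + 0
        rw [add_zero]
      · change y = 0 + y
        rw [zero_add]
    rw [e]
    exact L.hasFDerivAt.add_const _
  have h1 : HasFDerivAt (fun C => f (gl β a (C, y)))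
      ((fderiv ℝ f (gl β a (C, y))).comp L) C :=
    ((hf.differentiable one_ne_zero) _).hasFDerivAt.comp C hg
  rw [h1.fderiv]
  set M := fderiv ℝ f (gl β a (C, y)) with hM
  have hgr : gr β a f (gl β a (C, y)) =
      ∑ p, (if tch β a p then M (EuclideanSpace.single p 1) else 0) ^ 2 := by
    unfold gr
    refine Finset.sum_congr rfl fun p _ => ?_
    split_ifs
    · rfl
    · simp
  have h2 : ‖M.comp L‖ ≤ Real.sqrt (gr β a f (gl β a (C, y))) := by
    refine ContinuousLinearMap.opNorm_le_bound _ (Real.sqrt_nonneg _) fun D => ?_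
    rw [ContinuousLinearMap.comp_apply, hLa, lin_expand]
    have e : ∑ p, gl β a (D, 0) p * M (EuclideanSpace.single p 1) =
        ∑ p, gl β a (D, 0) p * (if tch β a p then M (EuclideanSpace.single p 1) else 0) := by
      refine Finset.sum_congr rfl fun p _ => ?_
      split_ifs with hp
      · rfl
      · rw [gl_ob β a _ ⟨p, hp⟩]
        simp
    rw [e, Real.norm_eq_abs]
    refine abs_le_of_sq_le_sq ?_ (by positivity)
    rw [mul_pow, Real.sq_sqrt (gr_nonneg β a f _), ← norm_gl, hgr]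
    rw [mul_comm (∑ p, (if tch β a p then M (EuclideanSpace.single p 1) else 0) ^ 2)]
    exact Finset.sum_mul_sq_le_sq_mul_sq _ _ _
  calc ‖M.comp L‖ ^ 2 ≤ Real.sqrt (gr β a f (gl β a (C, y))) ^ 2 :=
        pow_le_pow_left₀ (norm_nonneg _) h2 2
    _ = _ := Real.sq_sqrt (gr_nonneg β a f _)

theorem contDiff_fib (β : Fin n → κ) (a : κ) (f : Eo β → ℝ) (hf : ContDiff ℝ 1 f)
    (y : Ob β a → ℝ) : ContDiff ℝ 1 fun C => f (gl β a (C, y)) := by
  refine hf.comp ?_
  have h1 : ContDiff ℝ 1 (LinearMap.toContinuousLinearMap (gl β a).toLinearMap) :=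
    ContinuousLinearMap.contDiff _
  exact h1.comp (contDiff_id.prodMk contDiff_const)

theorem intOn {W : Type} [NormedAddCommGroup W] [NormedSpace ℝ W] [FiniteDimensional ℝ W]
    [MeasureSpace W] [BorelSpace W] [(volume : Measure W).IsAddHaarMeasure] {S : Set W}
    (hS : Bornology.IsBounded S) {F : W → ℝ} (hF : Continuous F) : IntegrableOn F S :=
  (hF.locallyIntegrable.integrableOn_isCompact (hS.isCompact_closure)).mono_set subset_closure

theorem continuous_gr (β : Fin n → κ) (a : κ) (f : Eo β → ℝ) (hf : ContDiff ℝ 1 f) :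
    Continuous (gr β a f) := by
  unfold gr
  refine continuous_finsetSum _ fun p _ => ?_
  split_ifs
  · exact (((hf.continuous_fderiv one_ne_zero).clm_apply continuous_const)).pow 2
  · exact continuous_const

theorem fibP (β : Fin n → κ) (a : κ) {K0 : ℝ} (hK0 : 0 ≤ K0)
    (h0 : PIn K0 (Ba (Al β a) (Ga β a))) (f : Eo β → ℝ) (hf : ContDiff ℝ 1 f)
    (y : Ob β a → ℝ) :
    ∃ c : ℝ, ∫ C in Sf β a y, (f (gl β a (C, y)) - c) ^ 2 ≤
      ∫ C in Sf β a y, K0 * (Lam β (gl β a (C, y)) * gr β a f (gl β a (C, y))) := by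
  rcases Set.eq_empty_or_nonempty (Sf β a y) with he | hne
  · refine ⟨0, ?_⟩
    rw [he]
    simp
  have hY : (Yx β a (gl β a (0, y))).PosDef := by
    obtain ⟨C0, hC0⟩ := hne
    rw [Yx_gl β a 0 C0 y]
    exact posDef_Yx a hC0
  have hae := Sf_ae hne
  obtain ⟨c, hc⟩ := PIn_Fb hK0 h0 hY (Kf_quad β a y) (Kf_nonneg β a y) _
    (contDiff_fib β a f hf y)
  refine ⟨c, ?_⟩
  rw [← setIntegral_congr_set hae, ← setIntegral_congr_set hae] at hc
  refine hc.trans ?_
  rw [← integral_const_mul]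
  have hcont := contDiff_fib β a f hf y
  refine setIntegral_mono_on ?_ ?_ (isOpen_Sf β a y).measurableSet fun C hC => ?_
  · exact (intOn (bdd_Sf β a y) (((hcont.continuous_fderiv one_ne_zero).norm.pow 2))).const_mul _
  · refine intOn (bdd_Sf β a y) (continuous_const.mul (Continuous.mul ?_ ?_))
    · exact (continuous_Lam β).comp (continuous_gl_left β a y)
    · exact (continuous_gr β a f hf).comp (continuous_gl_left β a y)
  · rw [mul_assoc]
    refine mul_le_mul_of_nonneg_left ?_ hK0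
    exact mul_le_mul (Kf_le β a y C) (sq_grad_le β a f hf y C) (sq_nonneg _) (Lam_nonneg β _)

end Pool.Agent.L0h31.KE
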