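import Pool.Agent.L0h31.KE.Nrm

/-!
# The law of the normalised off-diagonal blocks
-/

set_option autoImplicit false
set_option linter.unusedSectionVars false

namespace Pool.Agent.L0h31.KE

open MeasureTheory Set Matrix
open scoped ENNReal InnerProductSpace
open Pool.Agent.H212R2.KLS

variable {n : ℕ} {κ : Type} [DecidableEq κ] [Fintype κ]

open Classical in
/-- the weight -/
noncomputable def wt (β : Fin n → κ) (d : Ei β) : ℝ≥0∞ :=
  if si β d ∈ PD n then ENNReal.ofReal |(LinearMap.det (NT β (Tm β (si β d))))⁻¹| else 0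

theorem wt_fin (β : Fin n → κ) (d : Ei β) : wt β d ≠ ⊤ := by
  unfold wt
  split_ifs
  · exact ENNReal.ofReal_ne_top
  · exact ENNReal.zero_ne_top

theorem bd_pd {β : Fin n → κ} {d : Ei β} {x : Eo β} (h : si β d + so β x ∈ PD n) :
    si β d ∈ PD n := by
  have := bd_mem β h
  rwa [bd_sum] at this

/-- the substitution in the fibres -/
theorem fib (β : Fin n → κ) (d : Ei β) (Φ : Eo β → ℝ≥0∞) (hΦ : Measurable Φ) :
    ∫⁻ x : Eo β, (PD n).indicator (fun G => Φ (xh β G)) (si β d + so β x) =
      wt β d * ∫⁻ x in Ko β, Φ x := by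
  classical
  by_cases hd : si β d ∈ PD n
  · have e : ∀ x : Eo β, (PD n).indicator (fun G => Φ (xh β G)) (si β d + so β x) =
        (Ko β).indicator Φ (NT β (Tm β (si β d)) x) := by
      intro x
      by_cases h : si β d + so β x ∈ PD n
      · rw [indicator_of_mem h, indicator_of_mem ((mem_sum β hd x).1 h), xh_sum β h]
      · rw [indicator_of_notMem h, indicator_of_notMem (fun h' => h ((mem_sum β hd x).2 h'))]
    simp_rw [e]
    set L := NT β (Tm β (si β d)) with hL
    have hdet : LinearMap.det L ≠ 0 := by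
      refine NT_det ?_ (Tm_det β hd)
      exact Tm_isB β hd
    have hLm : Measurable L := (LinearMap.continuous_of_finiteDimensional L).measurable
    have hKm : MeasurableSet (Ko β) := (isOpen_Ko β).measurableSet
    rw [← lintegral_map (hΦ.indicator hKm) hLm,
      Measure.map_linearMap_addHaar_eq_smul_addHaar _ hdet, lintegral_smul_measure,
      lintegral_indicator hKm, smul_eq_mul]
    unfold wt
    rw [if_pos hd]
  · have e : ∀ x : Eo β, (PD n).indicator (fun G => Φ (xh β G)) (si β d + so β x) = 0 := by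
      intro x
      exact indicator_of_notMem (fun h => hd (bd_pd h)) _
    simp_rw [e]
    unfold wt
    rw [if_neg hd, lintegral_zero, zero_mul]

theorem measurable_wt (β : Fin n → κ) : Measurable (wt β) := by
  have hV0 := vol_Ko_pos β
  have hV1 := vol_Ko_fin β
  have e : wt β = fun d => (∫⁻ x : Eo β, (PD n).indicator (fun _ => (1 : ℝ≥0∞))
      (si β d + so β x)) * (volume (Ko β))⁻¹ := by
    funext d
    have := fib β d (fun _ => 1) measurable_const
    rw [this, lintegral_const, Measure.restrict_apply_univ, one_mul, mul_assoc,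
      ENNReal.mul_inv_cancel hV0 hV1, mul_one]
  rw [e]
  refine Measurable.mul_const ?_ _
  refine Measurable.lintegral_prod_right' (f := fun z : Ei β × Eo β =>
    (PD n).indicator (fun _ => (1 : ℝ≥0∞)) (si β z.1 + so β z.2)) ?_
  refine (measurable_const.indicator (R10.measurableSet_PD n)).comp ?_
  exact ((LinearMap.continuous_of_finiteDimensional (si β)).measurable.comp measurable_fst).add
    ((continuous_so β).measurable.comp measurable_snd)

theorem law_nu (β : Fin n → κ) : ∃ c : ℝ≥0∞, c ≠ 0 ∧ c ≠ ⊤ ∧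
    ∀ Φ : Sy n × Eo β → ℝ≥0∞, Measurable Φ →
    ∫⁻ G in PD n, Φ (bd β G, xh β G) ∂(nu n) =
      c * ∫⁻ d : Ei β, wt β d * ∫⁻ x in Ko β, Φ (si β d, x) := by
  obtain ⟨c, h0, h1, h⟩ := nu_split β
  refine ⟨c, h0, h1, fun Φ hΦ => ?_⟩
  have hPD := R10.measurableSet_PD n
  have hm : Measurable fun G : Sy n => Φ (bd β G, xh β G) :=
    hΦ.comp ((continuous_bd β).measurable.prodMk (measurable_xh β))
  rw [← lintegral_indicator hPD, h _ (hm.indicator hPD)]
  congr 1
  refine lintegral_congr fun d => ?_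
  have hd : Measurable fun x : Eo β => Φ (si β d, x) :=
    hΦ.comp (measurable_const.prodMk measurable_id)
  rw [← fib β d _ hd]
  refine lintegral_congr fun x => ?_
  by_cases hx : si β d + so β x ∈ PD n
  · rw [indicator_of_mem hx, indicator_of_mem hx, bd_sum]
  · rw [indicator_of_notMem hx, indicator_of_notMem hx]

/-! ### Gram matrices of `n` vectors in dimension `n + 1` -/

/-- `n` vectors in dimension `m` -/
abbrev Om (m n : ℕ) : Type := Fin n → V m

/-- the matrix with the columns `ω j` -/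
def colE (m n : ℕ) : Om m n ≃ₗ[ℝ] E m n where
  toFun ω := WithLp.toLp 2 fun p => ω p.2 p.1
  invFun X := fun j => WithLp.toLp 2 fun k => X (k, j)
  map_add' ω ω' := by
    ext p
    rfl
  map_smul' c ω := by
    ext p
    rfl
  left_inv ω := rfl
  right_inv X := rfl

theorem colE_apply {m : ℕ} (ω : Om m n) (p : Fin m × Fin n) : colE m n ω p = ω p.2 p.1 := rfl

/-- the Gram matrix -/
def gm {m : ℕ} (ω : Om m n) : Sy n := gram (colE m n ω)

theorem gm_apply {m : ℕ} (ω : Om m n) (i j : Fin n) : sM (gm ω) i j = ⟪ω i, ω j⟫_ℝ := by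
  change ((toM (colE m n ω))ᵀ * toM (colE m n ω)) i j = _
  rw [Matrix.mul_apply, PiLp.inner_apply]
  refine Finset.sum_congr rfl fun k _ => ?_
  rw [Matrix.transpose_apply, toM_apply, toM_apply, colE_apply, colE_apply]
  simp [mul_comm]

theorem measurable_gm {m : ℕ} : Measurable (gm : Om m n → Sy n) :=
  R7.continuous_gram.measurable.comp
    (LinearMap.continuous_of_finiteDimensional (colE m n).toLinearMap).measurable

/-- the uniform measure on the unit ball -/
noncomputable def ub (m : ℕ) : Measure (V m) :=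
  (volume (Metric.closedBall (0 : V m) 1))⁻¹ • volume.restrict (Metric.closedBall 0 1)

theorem ball_pos (m : ℕ) : volume (Metric.closedBall (0 : V m) 1) ≠ 0 :=
  (Metric.measure_closedBall_pos volume _ one_pos).ne'

theorem ball_fin (m : ℕ) : volume (Metric.closedBall (0 : V m) 1) ≠ ⊤ :=
  measure_closedBall_lt_top.ne

instance ub_prob (m : ℕ) : IsProbabilityMeasure (ub m) := by
  refine ⟨?_⟩
  unfold ub
  rw [Measure.smul_apply, Measure.restrict_apply_univ, smul_eq_mul,
    ENNReal.inv_mul_cancel (ball_pos m) (ball_fin m)]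

/-- `n` independent vectors, uniform in the unit ball -/
noncomputable def mB (m n : ℕ) : Measure (Om m n) := Measure.pi fun _ : Fin n => ub m

instance mB_prob (m n : ℕ) : IsProbabilityMeasure (mB m n) := by
  unfold mB
  infer_instance

theorem mB_eq (m n : ℕ) : mB m n = ((volume (Metric.closedBall (0 : V m) 1))⁻¹ ^ n) •
    (volume : Measure (Om m n)).restrict (Set.univ.pi fun _ => Metric.closedBall 0 1) := by
  unfold mB
  refine Measure.pi_eq fun s hs => ?_
  rw [Measure.smul_apply, Measure.restrict_apply (MeasurableSet.univ_pi hs), ← Set.pi_inter_distrib,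
    volume_pi, Measure.pi_pi, smul_eq_mul]
  unfold ub
  simp only [Measure.smul_apply, smul_eq_mul, Finset.prod_mul_distrib, Finset.prod_const,
    Finset.card_univ, Fintype.card_fin]
  congr 1
  refine Finset.prod_congr rfl fun i _ => ?_
  rw [Measure.restrict_apply (hs i)]

theorem gm_formula (n : ℕ) : (∀ᵐ ω : Om (n + 1) n, gm ω ∈ PD n) ∧
    ∃ c : ℝ≥0∞, c ≠ 0 ∧ c ≠ ⊤ ∧ ∀ φ : Sy n → ℝ≥0∞, Measurable φ →
      ∫⁻ ω : Om (n + 1) n, φ (gm ω) = c * ∫⁻ G in PD n, φ G ∂(nu n) := by
  obtain ⟨hae, c1, h10, h11, h1⟩ := gram_formula (m := n + 1) (n := n) (Nat.le_succ n)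
  obtain ⟨c2, h20, h21, h2⟩ := pd_formula (m := n + 1) (n := n) (Nat.le_succ n)
  obtain ⟨c3, h30, h31, h3⟩ := haar_lin (V := E (n + 1) n) (W := Om (n + 1) n) volume volume
    (colE (n + 1) n).symm
  have key : ∀ φ : Sy n → ℝ≥0∞, Measurable φ →
      ∫⁻ ω : Om (n + 1) n, φ (gm ω) = (c3 * (c1 * c2⁻¹)) * ∫⁻ G in PD n, φ G ∂(nu n) := by
    intro φ hφ
    have e1 := h3 (fun ω => φ (gm ω)) (hφ.comp measurable_gm)
    have e2 : ∀ X : E (n + 1) n, gm ((colE (n + 1) n).symm X) = gram X := by
      intro X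
      unfold gm
      rw [LinearEquiv.apply_symm_apply]
    simp_rw [e2] at e1
    have e3 := h2 φ hφ
    have e4 : ∀ G : Sy n, φ G * ENNReal.ofReal ((sM G).det ^
        ((((n + 1 : ℕ) : ℝ) - n - 1) / 2)) = φ G := by
      intro G
      have : ((((n + 1 : ℕ) : ℝ) - n - 1) / 2) = 0 := by
        push_cast
        ring
      rw [this, Real.rpow_zero, ENNReal.ofReal_one, mul_one]
    simp_rw [e4] at e3
    rw [e1, h1 φ hφ, e3, mul_assoc c3, mul_assoc c1, ← mul_assoc c2⁻¹,
      ENNReal.inv_mul_cancel h20 h21, one_mul]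
  refine ⟨?_, c3 * (c1 * c2⁻¹), ?_, ?_, key⟩
  · have hPD := R10.measurableSet_PD n
    have e := key ((PD n)ᶜ.indicator fun _ => 1) (measurable_const.indicator hPD.compl)
    rw [lintegral_indicator hPD.compl, Measure.restrict_restrict hPD.compl,
      compl_inter_self, Measure.restrict_empty, lintegral_zero_measure, mul_zero] at e
    have e' : volume {ω : Om (n + 1) n | gm ω ∉ PD n} = 0 := by
      have hms : MeasurableSet {ω : Om (n + 1) n | gm ω ∉ PD n} := measurable_gm hPD.compl
      rw [← lintegral_indicator_one hms]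
      exact e
    exact e'
  · exact mul_ne_zero h30 (mul_ne_zero h10 (ENNReal.inv_ne_zero.2 h21))
  · exact ENNReal.mul_ne_top h31 (ENNReal.mul_ne_top h11 (ENNReal.inv_ne_top.2 h20))

/-- the diagonal entries are at most `1` -/
def Bx (n : ℕ) : Set (Sy n) := {G | ∀ j, sM G j j ≤ 1}

theorem measurableSet_Bx : MeasurableSet (Bx n) := by
  have : Bx n = ⋂ j, {G : Sy n | sM G j j ≤ 1} := by
    ext G
    simp [Bx]
  rw [this]
  exact MeasurableSet.iInter fun j =>
    measurableSet_le (R9.continuous_entry j j).measurable measurable_const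

theorem mem_Bx_iff {m : ℕ} (β : Fin n → κ) (ω : Om m n) :
    bd β (gm ω) ∈ Bx n ↔ ω ∈ Set.univ.pi fun _ : Fin n => Metric.closedBall (0 : V m) 1 := by
  rw [mem_univ_pi]
  refine forall_congr' fun j => ?_
  rw [sM_bd, bdM_apply, if_pos rfl, gm_apply, real_inner_self_eq_norm_sq, mem_closedBall_zero_iff,
    sq_le_one_iff_abs_le_one, abs_norm]

theorem mB_ae (n : ℕ) : ∀ᵐ ω ∂(mB (n + 1) n), gm ω ∈ PD n := by
  rw [mB_eq]
  exact Measure.ae_smul_measure (ae_restrict_of_ae (gm_formula n).1) _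

theorem law0 (β : Fin n → κ) : ∃ w : Ei β → ℝ≥0∞, Measurable w ∧
    ∀ Φ : Sy n × Eo β → ℝ≥0∞, Measurable Φ →
    ∫⁻ ω, Φ (bd β (gm ω), xh β (gm ω)) ∂(mB (n + 1) n) =
      ∫⁻ d : Ei β, w d * ∫⁻ x in Ko β, Φ (si β d, x) := by
  obtain ⟨-, c1, h10, h11, h1⟩ := gm_formula n
  obtain ⟨c2, h20, h21, h2⟩ := law_nu β
  have hsi : Measurable (si β) := (LinearMap.continuous_of_finiteDimensional (si β)).measurable
  set C : ℝ≥0∞ := ((volume (Metric.closedBall (0 : V (n + 1)) 1))⁻¹ ^ n) * (c1 * c2) with hC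
  refine ⟨fun d => C * ((Bx n).indicator (fun _ => 1) (si β d) * wt β d), ?_, fun Φ hΦ => ?_⟩
  · exact (((measurable_const.indicator measurableSet_Bx).comp hsi).mul
      (measurable_wt β)).const_mul _
  · have hbx : Measurable fun z : Sy n × Eo β => (Bx n).indicator (fun _ => (1 : ℝ≥0∞)) z.1 *
        Φ z := ((measurable_const.indicator measurableSet_Bx).comp measurable_fst).mul hΦ
    have hm : Measurable fun G : Sy n => (Bx n).indicator (fun _ => (1 : ℝ≥0∞)) (bd β G) *
        Φ (bd β G, xh β G) :=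
      hbx.comp ((continuous_bd β).measurable.prodMk (measurable_xh β))
    have e1 : ∫⁻ ω, Φ (bd β (gm ω), xh β (gm ω)) ∂(mB (n + 1) n) =
        (volume (Metric.closedBall (0 : V (n + 1)) 1))⁻¹ ^ n *
        ∫⁻ ω : Om (n + 1) n, (Bx n).indicator (fun _ => (1 : ℝ≥0∞)) (bd β (gm ω)) *
          Φ (bd β (gm ω), xh β (gm ω)) := by
      rw [mB_eq, lintegral_smul_measure, smul_eq_mul,
        ← lintegral_indicator (MeasurableSet.univ_pi fun _ =>
          Metric.isClosed_closedBall.measurableSet)]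
      congr 1
      refine lintegral_congr fun ω => ?_
      by_cases hω : ω ∈ Set.univ.pi fun _ : Fin n => Metric.closedBall (0 : V (n + 1)) 1
      · rw [indicator_of_mem hω, indicator_of_mem ((mem_Bx_iff β ω).2 hω), one_mul]
      · rw [indicator_of_notMem hω, indicator_of_notMem (fun h => hω ((mem_Bx_iff β ω).1 h)),
          zero_mul]
    rw [e1, h1 _ hm, h2 _ hbx, ← mul_assoc c1 c2, ← mul_assoc, ← hC,
      ← lintegral_const_mul]
    · refine lintegral_congr fun d => ?_
      have e2 : ∫⁻ x in Ko β, (Bx n).indicator (fun _ => (1 : ℝ≥0∞)) (si β d) * Φ (si β d, x) =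
          (Bx n).indicator (fun _ => (1 : ℝ≥0∞)) (si β d) * ∫⁻ x in Ko β, Φ (si β d, x) := by
        rw [lintegral_const_mul']
        by_cases hb : si β d ∈ Bx n
        · rw [indicator_of_mem hb]
          exact ENNReal.one_ne_top
        · rw [indicator_of_notMem hb]
          exact ENNReal.zero_ne_top
      change C * (wt β d * ∫⁻ x in Ko β, (Bx n).indicator (fun _ => (1 : ℝ≥0∞)) (si β d) *
        Φ (si β d, x)) = C * ((Bx n).indicator (fun _ => 1) (si β d) * wt β d) *
          ∫⁻ x in Ko β, Φ (si β d, x)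
      rw [e2]
      ring
    · refine (measurable_wt β).mul ?_
      refine Measurable.lintegral_prod_right' (f := fun z : Ei β × Eo β =>
        (Bx n).indicator (fun _ => (1 : ℝ≥0∞)) (si β z.1) * Φ (si β z.1, z.2)) ?_
      exact hbx.comp ((hsi.comp measurable_fst).prodMk measurable_snd)

/-- the uniform measure on `Ko` -/
noncomputable def uK (β : Fin n → κ) : Measure (Eo β) :=
  (volume (Ko β))⁻¹ • (volume : Measure (Eo β)).restrict (Ko β)

instance uK_prob (β : Fin n → κ) : IsProbabilityMeasure (uK β) := by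
  refine ⟨?_⟩
  unfold uK
  rw [Measure.smul_apply, Measure.restrict_apply_univ, smul_eq_mul,
    ENNReal.inv_mul_cancel (vol_Ko_pos β) (vol_Ko_fin β)]

/-- the diagonal blocks and the normalised off-diagonal blocks are independent, and the law of the
latter is uniform -/
theorem law (β : Fin n → κ) (Φ : Sy n × Eo β → ℝ≥0∞) (hΦ : Measurable Φ) :
    ∫⁻ ω, Φ (bd β (gm ω), xh β (gm ω)) ∂(mB (n + 1) n) =
      ∫⁻ ω, ∫⁻ x, Φ (bd β (gm ω), x) ∂(uK β) ∂(mB (n + 1) n) := by
  obtain ⟨w, hw, h⟩ := law0 β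
  have hF : Measurable fun G : Sy n => ∫⁻ x, Φ (G, x) ∂(uK β) :=
    Measurable.lintegral_prod_right' hΦ
  have e := h (fun z => ∫⁻ x, Φ (z.1, x) ∂(uK β)) (hF.comp measurable_fst)
  rw [h Φ hΦ]
  change _ = ∫⁻ ω, (fun z : Sy n × Eo β => ∫⁻ x, Φ (z.1, x) ∂(uK β))
    (bd β (gm ω), xh β (gm ω)) ∂(mB (n + 1) n)
  rw [e]
  refine lintegral_congr fun d => ?_
  congr 1
  simp only [lintegral_const, Measure.restrict_apply_univ]
  unfold uK
  rw [lintegral_smul_measure, smul_eq_mul, mul_comm, ← mul_assoc,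
    ENNReal.mul_inv_cancel (vol_Ko_pos β) (vol_Ko_fin β), one_mul]

theorem law_xh (β : Fin n → κ) (ψ : Eo β → ℝ≥0∞) (hψ : Measurable ψ) :
    ∫⁻ ω, ψ (xh β (gm ω)) ∂(mB (n + 1) n) = ∫⁻ x, ψ x ∂(uK β) := by
  have h := law β (fun z => ψ z.2) (hψ.comp measurable_snd)
  simp only [lintegral_const, measure_univ, mul_one] at h
  exact h

theorem map_xh (β : Fin n → κ) : (mB (n + 1) n).map (fun ω => xh β (gm ω)) = uK β := by
  have hm : Measurable fun ω : Om (n + 1) n => xh β (gm ω) := (measurable_xh β).comp measurable_gm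
  ext s hs
  rw [Measure.map_apply hm hs, ← lintegral_indicator_one hs,
    ← law_xh β _ (measurable_one.indicator hs), ← lintegral_indicator_one (hm hs)]
  rfl

end Pool.Agent.L0h31.KE
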