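import Pool.Agent.H212R2.KLS.G1
import Pool.Agent.H212R2.KLS.G2

/-!
# Second moments of measures on matrices invariant under left multiplication
-/

set_option autoImplicit false
set_option linter.unusedSectionVars false

namespace Pool.Agent.L0h31.KE

open MeasureTheory Set Matrix
open scoped ENNReal InnerProductSpace
open Pool.Agent.H212R2.KLS

variable {m n : ℕ}

/-- reflection in one coordinate -/
def rfl1 (m : ℕ) (k : Fin m) : Matrix (Fin m) (Fin m) ℝ :=
  Matrix.diagonal fun i => if i = k then -1 else 1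

theorem rfl1_mem (k : Fin m) : rfl1 m k ∈ Matrix.orthogonalGroup (Fin m) ℝ := by
  rw [Matrix.mem_orthogonalGroup_iff]
  unfold rfl1
  rw [Matrix.diagonal_transpose, Matrix.diagonal_mul_diagonal, ← Matrix.diagonal_one]
  congr 1
  funext i
  split_ifs <;> norm_num

/-- exchange of two coordinates -/
def swp (m : ℕ) (k l : Fin m) : Matrix (Fin m) (Fin m) ℝ :=
  (1 : Matrix (Fin m) (Fin m) ℝ).submatrix (Equiv.swap k l) id

theorem swp_apply (k l i j : Fin m) :
    swp m k l i j = if Equiv.swap k l i = j then 1 else 0 := by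
  unfold swp
  rw [Matrix.submatrix_apply, Matrix.one_apply]
  rfl

theorem swp_mem (k l : Fin m) : swp m k l ∈ Matrix.orthogonalGroup (Fin m) ℝ := by
  rw [Matrix.mem_orthogonalGroup_iff]
  ext i j
  rw [Matrix.mul_apply, Finset.sum_eq_single (Equiv.swap k l i)]
  · rw [Matrix.transpose_apply, swp_apply, swp_apply, if_pos rfl, one_mul, Matrix.one_apply]
    by_cases h : i = j
    · rw [h, if_pos rfl, if_pos rfl]
    · rw [if_neg h, if_neg fun e => h ((Equiv.swap k l).injective e).symm]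
  · intro b _ hb
    rw [swp_apply, if_neg (Ne.symm hb), zero_mul]
  · intro h
    exact absurd (Finset.mem_univ _) h

theorem mv_rfl1 (k : Fin m) (X : E m n) (t : V n) (i : Fin m) :
    mv (lm (rfl1 m k) X) t i = (if i = k then -1 else 1) * mv X t i := by
  rw [T2.mv_apply, T2.mv_apply, Finset.mul_sum]
  refine Finset.sum_congr rfl fun j _ => ?_
  change (rfl1 m k * toM X) i j * t j = _
  unfold rfl1
  rw [Matrix.diagonal_mul, toM_apply, mul_assoc]

theorem mv_swp (k l : Fin m) (X : E m n) (t : V n) (i : Fin m) :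
    mv (lm (swp m k l) X) t i = mv X t (Equiv.swap k l i) := by
  rw [T2.mv_apply, T2.mv_apply]
  refine Finset.sum_congr rfl fun j _ => ?_
  change (swp m k l * toM X) i j * t j = _
  have : (swp m k l * toM X) i j = toM X (Equiv.swap k l i) j := by
    unfold swp
    rw [Matrix.mul_apply]
    simp [Matrix.submatrix_apply, Matrix.one_apply]
  rw [this]
  rfl

/-- invariance under the orthogonal group, with bounded support -/
structure Inv (μ : Measure (E m n)) : Prop where
  inv : ∀ g ∈ Matrix.orthogonalGroup (Fin m) ℝ, μ.map (lm g) = μ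
  bdd : ∃ R : ℝ, ∀ᵐ x ∂μ, ‖x‖ ≤ R

theorem Inv.int {μ : Measure (E m n)} [IsProbabilityMeasure μ] (h : Inv μ) {F : E m n → ℝ}
    (hF : Continuous F) : Integrable F μ := by
  obtain ⟨R, hR⟩ := h.bdd
  obtain ⟨M, hM⟩ := (isCompact_closedBall (0 : E m n) R).exists_bound_of_continuousOn
    hF.continuousOn
  refine Integrable.of_bound hF.aestronglyMeasurable M ?_
  filter_upwards [hR] with x hx
  exact hM x (by simpa using hx)

theorem Inv.eq {μ : Measure (E m n)} (h : Inv μ) {g : Matrix (Fin m) (Fin m) ℝ}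
    (hg : g ∈ Matrix.orthogonalGroup (Fin m) ℝ) {F : E m n → ℝ} (hF : Continuous F) :
    ∫ x, F (lm g x) ∂μ = ∫ x, F x ∂μ := by
  conv_rhs => rw [← h.inv g hg]
  rw [integral_map (l2_mp hg).measurable.aemeasurable hF.aestronglyMeasurable]

theorem cont_mv (t : V n) (i : Fin m) : Continuous fun X : E m n => mv X t i := by
  have h := T2.mv_continuous (m := m) t
  exact (PiLp.continuous_ofLp 2 _ |>.comp h).comp continuous_id |> fun h' =>
    (continuous_apply i).comp h'

/-- second moments -/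
theorem Inv.mom {μ : Measure (E m n)} [IsProbabilityMeasure μ] (h : Inv μ) (hm : 1 ≤ m) (K : ℝ)
    (hK : ∀ t : V n, ∫ X, ‖mv X t‖ ^ 2 ∂μ ≤ K * ‖t‖ ^ 2) (θ : E m n) :
    ∫ X, ⟪θ, X⟫_ℝ ^ 2 ∂μ ≤ K / m * ‖θ‖ ^ 2 := by
  have hm0 : (0 : ℝ) < m := by exact_mod_cast hm
  -- rows
  set t : Fin m → V n := fun k => WithLp.toLp 2 fun j => θ (k, j) with ht
  have hin : ∀ X : E m n, ⟪θ, X⟫_ℝ = ∑ k, mv X (t k) k := by
    intro X
    rw [PiLp.inner_apply, Fintype.sum_prod_type]
    refine Finset.sum_congr rfl fun k _ => ?_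
    rw [T2.mv_apply]
    refine Finset.sum_congr rfl fun j _ => ?_
    simp [ht, mul_comm]
  have hnorm : ‖θ‖ ^ 2 = ∑ k, ‖t k‖ ^ 2 := by
    rw [EuclideanSpace.norm_sq_eq, Fintype.sum_prod_type]
    refine Finset.sum_congr rfl fun k _ => ?_
    rw [EuclideanSpace.norm_sq_eq]
  -- products of different rows
  have hc2 : ∀ (s s' : V n) (k l : Fin m), Continuous fun X : E m n => mv X s k * mv X s' l :=
    fun s s' k l => (cont_mv s k).mul (cont_mv s' l)
  have hcross : ∀ (s s' : V n) (k l : Fin m), k ≠ l → ∫ X, mv X s k * mv X s' l ∂μ = 0 := by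
    intro s s' k l hkl
    have e := h.eq (rfl1_mem k) (hc2 s s' k l)
    simp only [mv_rfl1, if_true, if_neg (Ne.symm hkl)] at e
    have e2 : (fun X : E m n => -1 * mv X s k * (1 * mv X s' l)) =
        fun X => -(mv X s k * mv X s' l) := by
      funext X
      ring
    rw [e2, integral_neg] at e
    linarith
  -- one row
  have hrow : ∀ (s : V n) (k : Fin m), ∫ X, mv X s k ^ 2 ∂μ ≤ K / m * ‖s‖ ^ 2 := by
    intro s k
    have heq : ∀ l : Fin m, ∫ X, mv X s l ^ 2 ∂μ = ∫ X, mv X s k ^ 2 ∂μ := by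
      intro l
      have e := h.eq (swp_mem k l) ((cont_mv s k).pow 2)
      simp only [Pi.pow_apply, mv_swp, Equiv.swap_apply_left] at e
      exact e
    have hs : ∫ X, ‖mv X s‖ ^ 2 ∂μ = ∑ l, ∫ X, mv X s l ^ 2 ∂μ := by
      have i2 : ∀ l : Fin m, Integrable (fun X : E m n => mv X s l ^ 2) μ :=
        fun l => h.int ((cont_mv s l).pow 2)
      rw [← integral_finsetSum _ fun l _ => i2 l]
      refine integral_congr_ae (Filter.Eventually.of_forall fun X => ?_)
      exact EuclideanSpace.real_norm_sq_eq _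
    have h3 := hK s
    rw [hs, Finset.sum_congr rfl fun l _ => heq l, Finset.sum_const, Finset.card_univ,
      Fintype.card_fin, nsmul_eq_mul] at h3
    rw [div_mul_eq_mul_div, le_div_iff₀ hm0]
    linarith
  have hexp : ∀ X : E m n, ⟪θ, X⟫_ℝ ^ 2 = ∑ k, ∑ l, mv X (t k) k * mv X (t l) l := by
    intro X
    rw [hin, pow_two, Finset.sum_mul_sum]
  simp_rw [hexp]
  rw [integral_finsetSum _ fun k _ => integrable_finsetSum _ fun l _ => h.int (hc2 _ _ _ _)]
  rw [hnorm, Finset.mul_sum]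
  refine Finset.sum_le_sum fun k _ => ?_
  rw [integral_finsetSum _ fun l _ => h.int (hc2 _ _ _ _), Finset.sum_eq_single k]
  · have := hrow (t k) k
    simpa only [pow_two] using this
  · intro l _ hl
    exact hcross _ _ _ _ (Ne.symm hl)
  · intro hk
    exact absurd (Finset.mem_univ k) hk

/-! ### the unit ball of the operator norm -/

/-- the unit ball of the operator norm -/
def Bc (m n : ℕ) : Set (E m n) := {X | OpLe 1 X}

theorem Bc_closed : IsClosed (Bc m n) := l2_OpLe_closed 1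

theorem Bc_bdd : Bornology.IsBounded (Bc m n) := by
  rw [isBounded_iff_forall_norm_le]
  exact ⟨1 * (n + 1), fun x hx => H2aux.norm_le_of_op one_pos hx⟩

theorem Bc_vol : (volume : Measure (E m n)) (Bc m n) ≠ 0 := by
  have h : Metric.ball (0 : E m n) 1 ⊆ Bc m n := by
    intro X hX v
    have hX1 : ‖X‖ ≤ 1 := by
      have := mem_ball_zero_iff.1 hX
      exact this.le
    have h1 : ‖mv X v‖ ^ 2 ≤ (1 * ‖v‖) ^ 2 := by
      have e : ‖mv X v‖ ^ 2 = ∑ i, (∑ j, X (i, j) * v j) ^ 2 := by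
        rw [EuclideanSpace.real_norm_sq_eq]
        rfl
      rw [e]
      calc ∑ i, (∑ j, X (i, j) * v j) ^ 2 ≤ ∑ i, (∑ j, X (i, j) ^ 2) * ∑ j, v j ^ 2 :=
            Finset.sum_le_sum fun i _ => Finset.sum_mul_sq_le_sq_mul_sq _ _ _
        _ = ‖X‖ ^ 2 * ‖v‖ ^ 2 := by
            rw [← Finset.sum_mul, EuclideanSpace.real_norm_sq_eq X,
              EuclideanSpace.real_norm_sq_eq v, Fintype.sum_prod_type]
        _ ≤ (1 * ‖v‖) ^ 2 := by
            rw [mul_pow]
            refine mul_le_mul_of_nonneg_right ?_ (sq_nonneg _)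
            exact pow_le_pow_left₀ (norm_nonneg _) hX1 2
    exact (pow_le_pow_iff_left₀ (norm_nonneg _) (by positivity) two_ne_zero).1 h1
  intro h0
  have h2 := measure_mono_null h h0
  exact (Metric.measure_ball_pos volume (0 : E m n) one_pos).ne' h2

theorem Bc_fin : (volume : Measure (E m n)) (Bc m n) ≠ ⊤ := Bc_bdd.measure_lt_top.ne

theorem dens_one : Dens m n (fun _ => (1 : ℝ)) where
  nonneg _ := zero_le_one
  meas := measurable_const
  logc _ _ t _ _ := by simp
  inv _ _ _ := rfl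

/-- Poincare inequality for the unit ball of the operator norm -/
theorem opball : ∃ C : ℝ, 0 < C ∧ ∀ {m n : ℕ}, 3 ≤ m → 1 ≤ n → n ≤ m → ∀ f : E m n → ℝ,
    ContDiff ℝ 1 f → ∃ c : ℝ, ∫ x in Bc m n, (f x - c) ^ 2 ≤
      C / m * ∫ x in Bc m n, ‖fderiv ℝ f x‖ ^ 2 := by
  obtain ⟨C, hC, H⟩ := core
  refine ⟨C, hC, ?_⟩
  intro m n hm hn hnm f hf
  have hm0 : (0 : ℝ) < m := by
    have : 0 < m := by omega
    exact_mod_cast this
  set k : ℝ := (volume.real (Bc m n))⁻¹ with hk
  have hv : 0 < volume.real (Bc m n) :=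
    ENNReal.toReal_pos Bc_vol Bc_fin
  have hk0 : 0 < k := inv_pos.2 hv
  obtain ⟨-, -, -, htr, -⟩ := Dens.basic (dens_one (m := m) (n := n)) (by omega)
  set ρ : E m n → ℝ := fun x => k * {x | OpLe 1 x}.indicator (fun _ => (1 : ℝ)) x with hρ
  have hd : Dens m n ρ := g2_dens_smul (htr 1) k hk0.le
  have hmu : mu ρ = ENNReal.ofReal k • (volume : Measure (E m n)).restrict (Bc m n) := by
    have h1 := g2_mu (F := E m n) (fun _ => (1 : ℝ)) (fun _ => zero_le_one) measurable_const
      (Bc m n) Bc_closed.measurableSet k hk0.le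
    have h2 : mu (fun _ : E m n => (1 : ℝ)) = volume := by
      unfold mu
      simp
    rw [h2] at h1
    exact h1
  have hb : Bdd ρ := by
    obtain ⟨R, hR⟩ := isBounded_iff_forall_norm_le.1 (Bc_bdd (m := m) (n := n))
    refine ⟨R, fun x hx => ?_⟩
    have : x ∉ {x : E m n | OpLe 1 x} := fun h => absurd (hR x h) (not_le.2 hx)
    simp only [hρ, indicator_of_notMem this, mul_zero]
  have h1 : mu ρ univ = 1 := by
    rw [hmu, Measure.smul_apply, Measure.restrict_apply_univ, smul_eq_mul, hk,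
      ENNReal.ofReal_inv_of_pos hv, Measure.real, ENNReal.ofReal_toReal Bc_fin,
      ENNReal.inv_mul_cancel Bc_vol Bc_fin]
  have hp : IsProbabilityMeasure (mu ρ) := ⟨h1⟩
  have hae : ∀ᵐ x ∂(mu ρ), x ∈ Bc m n := by
    rw [hmu]
    exact Measure.ae_smul_measure (ae_restrict_mem Bc_closed.measurableSet) _
  have hinv : Inv (mu ρ) := by
    refine ⟨fun g hg => l2_map hd hg, ?_⟩
    obtain ⟨R, hR⟩ := isBounded_iff_forall_norm_le.1 (Bc_bdd (m := m) (n := n))
    exact ⟨R, hae.mono fun x hx => hR x hx⟩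
  have hmom := hinv.mom (by omega) 1 (fun t => by
    have e : ∫ _ : E m n, 1 * ‖t‖ ^ 2 ∂(mu ρ) = 1 * ‖t‖ ^ 2 := by simp
    rw [← e]
    refine integral_mono_ae (hinv.int ?_) (integrable_const _) ?_
    · exact (T2.mv_continuous t).norm.pow 2
    · filter_upwards [hae] with x hx
      have := hx t
      calc ‖mv x t‖ ^ 2 ≤ (1 * ‖t‖) ^ 2 := pow_le_pow_left₀ (norm_nonneg _) this 2
        _ = _ := by ring)
  have key := H hm hn hnm ρ hd hb h1 (1 / m) (by positivity) hmom f hf
  have hfc := hf.continuous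
  have hfd : Continuous fun x => ‖fderiv ℝ f x‖ ^ 2 :=
    (hf.continuous_fderiv one_ne_zero).norm.pow 2
  refine ⟨∫ x, f x ∂(mu ρ), ?_⟩
  have e1 : ∀ F : E m n → ℝ, ∫ x, F x ∂(mu ρ) = k * ∫ x in Bc m n, F x := by
    intro F
    rw [hmu, integral_smul_measure, ENNReal.toReal_ofReal hk0.le, smul_eq_mul]
  set M : ℝ := ∫ x, f x ∂(mu ρ) with hM
  have e2 : ∫ x, (f x - M) ^ 2 ∂(mu ρ) = ∫ x, f x ^ 2 ∂(mu ρ) - M ^ 2 := by
    have h3 : ∀ x, (f x - M) ^ 2 = f x ^ 2 - (2 * M) * f x + M ^ 2 := fun x => by ring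
    have i1 : Integrable (fun x => f x ^ 2) (mu ρ) := hinv.int (hfc.pow 2)
    have i2 : Integrable (fun x => (2 * M) * f x) (mu ρ) := (hinv.int hfc).const_mul _
    have i3 : Integrable (fun x => f x ^ 2 - (2 * M) * f x) (mu ρ) := i1.sub i2
    simp_rw [h3]
    rw [integral_add i3 (integrable_const _), integral_sub i1 i2, integral_const_mul,
      integral_const, ← hM]
    simp
    ring
  rw [← e2, e1, e1] at key
  have h4 : k * ∫ x in Bc m n, (f x - M) ^ 2 ≤
      k * (C / m * ∫ x in Bc m n, ‖fderiv ℝ f x‖ ^ 2) := by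
    refine key.trans (le_of_eq ?_)
    ring
  exact le_of_mul_le_mul_left h4 hk0

end Pool.Agent.L0h31.KE
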