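import Pool.Agent.L0h31.KE.Off

/-!
# Normalisation of the diagonal blocks
-/

set_option autoImplicit false
set_option linter.unusedSectionVars false

namespace Pool.Agent.L0h31.KE

open MeasureTheory Set Matrix
open scoped ENNReal InnerProductSpace
open Pool.Agent.H212R2.KLS

variable {n : ℕ} {κ : Type} [DecidableEq κ]

/-- the inverse square root of the diagonal blocks -/
noncomputable def Tm (β : Fin n → κ) (G : Sy n) : Matrix (Fin n) (Fin n) ℝ :=
  (sM (rt (bd β G)))⁻¹

/-- the normalised off-diagonal blocks -/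
noncomputable def xh (β : Fin n → κ) (G : Sy n) : Eo β := off β (cong (Tm β G) G)

theorem Tm_symm (β : Fin n → κ) (G : Sy n) : (Tm β G)ᵀ = Tm β G := by
  unfold Tm
  rw [Matrix.transpose_nonsing_inv, sM_transpose]

section
variable [Fintype κ]

theorem rt_det {G : Sy n} (h : G ∈ PD n) : (sM (rt G)).det ≠ 0 :=
  (R9.det_pos_of_mem (rt_mem h)).ne'

theorem Tm_det (β : Fin n → κ) {G : Sy n} (hG : G ∈ PD n) : (Tm β G).det ≠ 0 := by
  unfold Tm
  rw [Matrix.det_nonsing_inv]
  have := rt_det (bd_mem β hG)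
  simpa using this

theorem Tm_isB (β : Fin n → κ) {G : Sy n} (hG : G ∈ PD n) : IsB β (Tm β G) :=
  inv_isB (rt_isB (bd_mem β hG) (isB_bdM β _)) (rt_det (bd_mem β hG))

theorem Tm_mul (β : Fin n → κ) {G : Sy n} (hG : G ∈ PD n) :
    (Tm β G)ᵀ * bdM β (sM G) * Tm β G = 1 := by
  have hu : IsUnit (sM (rt (bd β G))).det := isUnit_iff_ne_zero.2 (rt_det (bd_mem β hG))
  rw [Tm_symm]
  have h := rt_mul (bd_mem β hG)
  rw [sM_bd] at h
  rw [← h]
  unfold Tm
  rw [← Matrix.mul_assoc, Matrix.nonsing_inv_mul _ hu, Matrix.one_mul,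
    Matrix.mul_nonsing_inv _ hu]

end

/-- zero in the blocks -/
theorem zB {β : Fin n → κ} {A C M : Matrix (Fin n) (Fin n) ℝ} (hA : IsB β A) (hC : IsB β C)
    (hM : ∀ i j, β i = β j → M i j = 0) : ∀ i j, β i = β j → (Aᵀ * M * C) i j = 0 := by
  intro i j hij
  rw [Matrix.mul_apply]
  refine Finset.sum_eq_zero fun l _ => ?_
  rw [Matrix.mul_apply, Finset.sum_mul]
  refine Finset.sum_eq_zero fun k _ => ?_
  rw [Matrix.transpose_apply]
  by_cases hk : β k = β i
  · by_cases hl : β l = β j
    · rw [hM k l (by rw [hk, hl, hij])]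
      ring
    · rw [hC l j hl, mul_zero]
  · rw [hA k i hk]
    ring

theorem cong_so {β : Fin n → κ} {A : Matrix (Fin n) (Fin n) ℝ} (hA : IsB β A) (x : Eo β) :
    so β (off β (cong A (so β x))) = cong A (so β x) :=
  so_off β (zB hA hA fun i j hij => soM_eq β x i j hij)

/-- the action of a block diagonal matrix on the off-diagonal blocks -/
def NT (β : Fin n → κ) (A : Matrix (Fin n) (Fin n) ℝ) : Eo β →ₗ[ℝ] Eo β :=
  (off β).comp ((cong A).comp (so β))

theorem NT_apply (β : Fin n → κ) (A : Matrix (Fin n) (Fin n) ℝ) (x : Eo β) :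
    NT β A x = off β (cong A (so β x)) := rfl

theorem cong_cong (A B : Matrix (Fin n) (Fin n) ℝ) (G : Sy n) :
    cong A (cong B G) = cong (B * A) G := by
  apply sy_ext
  change Aᵀ * (Bᵀ * sM G * B) * A = (B * A)ᵀ * sM G * (B * A)
  rw [Matrix.transpose_mul]
  simp only [Matrix.mul_assoc]

theorem cong_one (G : Sy n) : cong (1 : Matrix (Fin n) (Fin n) ℝ) G = G := by
  apply sy_ext
  change (1 : Matrix (Fin n) (Fin n) ℝ)ᵀ * sM G * 1 = sM G
  rw [Matrix.transpose_one, Matrix.one_mul, Matrix.mul_one]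

theorem NT_comp {β : Fin n → κ} {A B : Matrix (Fin n) (Fin n) ℝ} (hB : IsB β B)
    (x : Eo β) : NT β A (NT β B x) = NT β (B * A) x := by
  rw [NT_apply, NT_apply, NT_apply, cong_so hB, cong_cong]

theorem NT_det {β : Fin n → κ} {A : Matrix (Fin n) (Fin n) ℝ} (hA : IsB β A) (hd : A.det ≠ 0) :
    LinearMap.det (NT β A) ≠ 0 := by
  have hu : IsUnit A.det := isUnit_iff_ne_zero.2 hd
  have h : NT β A⁻¹ ∘ₗ NT β A = LinearMap.id := by
    ext1 x
    rw [LinearMap.comp_apply, NT_comp hA, Matrix.mul_nonsing_inv _ hu, NT_apply, cong_one, off_so]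
    rfl
  intro h0
  have := congrArg LinearMap.det h
  rw [LinearMap.det_comp, h0, mul_zero, LinearMap.det_id] at this
  exact zero_ne_one this

theorem cong_add (A : Matrix (Fin n) (Fin n) ℝ) (G H : Sy n) :
    cong A (G + H) = cong A G + cong A H := map_add _ _ _

theorem off_one (β : Fin n → κ) : off β (oneS n) = 0 := off_of_isB (isB_one β)

section
variable [Fintype κ]

theorem cong_bd (β : Fin n → κ) {G : Sy n} (hG : G ∈ PD n) :
    cong (Tm β G) (bd β G) = oneS n := sy_ext (Tm_mul β hG)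

theorem xh_eq (β : Fin n → κ) {G : Sy n} (hG : G ∈ PD n) :
    xh β G = NT β (Tm β G) (off β G) := by
  unfold xh
  conv_lhs => rw [← dec β G]
  rw [dec β G]
  conv_lhs =>
    rw [show cong (Tm β G) G = cong (Tm β G) (bd β G + so β (off β G)) by rw [dec β G]]
  rw [cong_add, cong_bd β hG, map_add, off_one, zero_add]
  rfl

theorem cong_T (β : Fin n → κ) {G : Sy n} (hG : G ∈ PD n) :
    cong (Tm β G) G = oneS n + so β (xh β G) := by
  rw [xh_eq β hG, NT_apply, cong_so (Tm_isB β hG), ← cong_bd β hG, ← cong_add, dec β G]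

theorem xh_mem (β : Fin n → κ) {G : Sy n} (hG : G ∈ PD n) : xh β G ∈ Ko β := by
  change oneS n + so β (xh β G) ∈ PD n
  rw [← cong_T β hG]
  exact (R9.cong_mem_iff _ (Tm_det β hG) G).2 hG

/-- the blocks of a sum -/
theorem bd_sum (β : Fin n → κ) (d : Ei β) (x : Eo β) : bd β (si β d + so β x) = si β d := by
  rw [map_add, bd_si, bd_so, add_zero]

theorem Tm_sum (β : Fin n → κ) (d : Ei β) (x : Eo β) : Tm β (si β d + so β x) = Tm β (si β d) := by
  unfold Tm
  rw [bd_sum, bd_si]

theorem mem_sum (β : Fin n → κ) {d : Ei β} (hd : si β d ∈ PD n) (x : Eo β) :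
    si β d + so β x ∈ PD n ↔ NT β (Tm β (si β d)) x ∈ Ko β := by
  have h1 := R9.cong_mem_iff _ (Tm_det β hd) (si β d + so β x)
  have h2 : cong (Tm β (si β d)) (si β d + so β x) =
      oneS n + so β (NT β (Tm β (si β d)) x) := by
    rw [cong_add, NT_apply, cong_so (Tm_isB β hd)]
    have := cong_bd β hd
    rw [bd_si] at this
    rw [this]
  rw [← h1, h2]
  rfl

theorem xh_sum (β : Fin n → κ) {d : Ei β} {x : Eo β} (h : si β d + so β x ∈ PD n) :
    xh β (si β d + so β x) = NT β (Tm β (si β d)) x := by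
  rw [xh_eq β h, Tm_sum, map_add, off_si, off_so, zero_add]

end

theorem measurable_inv_entry (i j : Fin n) :
    Measurable fun G : Sy n => (sM G)⁻¹ i j := by
  have h : (fun G : Sy n => (sM G)⁻¹ i j) = fun G : Sy n => ((sM G).det)⁻¹ *
      (sM G).adjugate i j := by
    funext G
    rw [Matrix.inv_def, Matrix.smul_apply, smul_eq_mul, Ring.inverse_eq_inv']
  rw [h]
  refine (R9.continuous_det.measurable.inv).mul ?_
  have : Continuous fun G : Sy n => (sM G).adjugate := R9.continuous_sM.matrix_adjugate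
  exact (this.matrix_elem i j).measurable

theorem measurable_Tm (β : Fin n → κ) (i j : Fin n) : Measurable fun G : Sy n => Tm β G i j :=
  (measurable_inv_entry i j).comp (measurable_rt.comp (continuous_bd β).measurable)

theorem measurable_xh (β : Fin n → κ) : Measurable (xh β) := by
  have h : Measurable fun G : Sy n => (WithLp.ofLp (xh β G)) := by
    refine measurable_pi_iff.2 fun p => ?_
    change Measurable fun G : Sy n => ((Tm β G)ᵀ * sM G * Tm β G) p.1.1 p.1.2
    simp only [Matrix.mul_apply, Matrix.transpose_apply]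
    refine Finset.measurable_fun_sum _ fun k _ => ?_
    refine (Finset.measurable_fun_sum _ fun l _ => ?_).mul (measurable_Tm β _ _)
    exact (measurable_Tm β _ _).mul (R9.continuous_entry l k).measurable
  exact (WithLp.measurable_toLp 2 (Op β → ℝ)).comp h

end Pool.Agent.L0h31.KE
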