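import Pool.Agent.L0h31.KE.Rt

/-!
# Symmetric matrices with zero diagonal blocks; the set of positive definite matrices with
diagonal blocks `1`
-/

set_option autoImplicit false
set_option linter.unusedSectionVars false

namespace Pool.Agent.L0h31.KE

open MeasureTheory Set Matrix
open scoped ENNReal InnerProductSpace
open Pool.Agent.H212R2.KLS

variable {n : ℕ} {κ : Type} [DecidableEq κ]

/-- pairs of indices in different blocks -/
abbrev Op (β : Fin n → κ) : Type := {p : Fin n × Fin n // p.1 < p.2 ∧ β p.1 ≠ β p.2}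

/-- coordinates of the symmetric matrices with zero diagonal blocks -/
abbrev Eo (β : Fin n → κ) : Type := EuclideanSpace ℝ (Op β)

/-- the entries of the symmetric matrix with zero diagonal blocks -/
def soM (β : Fin n → κ) (x : Eo β) : Matrix (Fin n) (Fin n) ℝ := Matrix.of fun i j =>
  if h : i < j ∧ β i ≠ β j then x ⟨(i, j), h⟩ else if h : j < i ∧ β j ≠ β i then x ⟨(j, i), h⟩ else 0

theorem soM_apply (β : Fin n → κ) (x : Eo β) (i j : Fin n) : soM β x i j =
  if h : i < j ∧ β i ≠ β j then x ⟨(i, j), h⟩ else if h : j < i ∧ β j ≠ β i then x ⟨(j, i), h⟩ else 0 :=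
  rfl

theorem soM_lt (β : Fin n → κ) (x : Eo β) (p : Op β) : soM β x p.1.1 p.1.2 = x p := by
  rw [soM_apply, dif_pos p.2]

theorem soM_gt (β : Fin n → κ) (x : Eo β) (p : Op β) : soM β x p.1.2 p.1.1 = x p := by
  rw [soM_apply, dif_neg (fun h => lt_asymm h.1 p.2.1), dif_pos p.2]

theorem soM_eq (β : Fin n → κ) (x : Eo β) (i j : Fin n) (h : β i = β j) : soM β x i j = 0 := by
  rw [soM_apply, dif_neg (fun h' => h'.2 h), dif_neg (fun h' => h'.2 h.symm)]

theorem soM_symm (β : Fin n → κ) (x : Eo β) (i j : Fin n) : soM β x i j = soM β x j i := by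
  by_cases h : β i = β j
  · rw [soM_eq β x i j h, soM_eq β x j i h.symm]
  · have hij : i ≠ j := fun e => h (congrArg β e)
    rcases lt_or_gt_of_ne hij with h1 | h1
    · rw [soM_lt β x ⟨(i, j), ⟨h1, h⟩⟩, soM_gt β x ⟨(i, j), ⟨h1, h⟩⟩]
    · rw [soM_lt β x ⟨(j, i), ⟨h1, Ne.symm h⟩⟩, soM_gt β x ⟨(j, i), ⟨h1, Ne.symm h⟩⟩]

/-- two matrices with the same values above the diagonal, which are symmetric and zero in the
blocks, are equal -/
theorem off_ext {β : Fin n → κ} {M N : Matrix (Fin n) (Fin n) ℝ} (hM : Mᵀ = M) (hN : Nᵀ = N)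
    (h0 : ∀ i j, β i = β j → M i j = N i j)
    (h : ∀ p : Op β, M p.1.1 p.1.2 = N p.1.1 p.1.2) : M = N := by
  ext i j
  by_cases hb : β i = β j
  · exact h0 i j hb
  · have hij : i ≠ j := fun e => hb (congrArg β e)
    rcases lt_or_gt_of_ne hij with h1 | h1
    · exact h ⟨(i, j), ⟨h1, hb⟩⟩
    · have h2 := h ⟨(j, i), ⟨h1, Ne.symm hb⟩⟩
      calc M i j = Mᵀ i j := by rw [hM]
        _ = M j i := rfl
        _ = N j i := h2
        _ = Nᵀ i j := rfl
        _ = N i j := by rw [hN]

/-- the symmetric matrix with zero diagonal blocks -/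
def so (β : Fin n → κ) : Eo β →ₗ[ℝ] Sy n where
  toFun x := sOf (soM β x) (by
    ext i j
    rw [Matrix.transpose_apply]
    exact soM_symm β x j i)
  map_add' x y := by
    apply sy_ext
    ext i j
    change soM β (x + y) i j = soM β x i j + soM β y i j
    rw [soM_apply, soM_apply, soM_apply]
    split_ifs
    · rfl
    · rfl
    · simp
  map_smul' c x := by
    apply sy_ext
    ext i j
    change soM β (c • x) i j = c * soM β x i j
    rw [soM_apply, soM_apply]
    split_ifs
    · rfl
    · rfl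
    · simp

theorem sM_so (β : Fin n → κ) (x : Eo β) : sM (so β x) = soM β x := rfl

/-- the coordinates of the off-diagonal blocks -/
def off (β : Fin n → κ) : Sy n →ₗ[ℝ] Eo β where
  toFun G := WithLp.toLp 2 fun p => sM G p.1.1 p.1.2
  map_add' G H := by
    ext p
    rfl
  map_smul' c G := by
    ext p
    rfl

theorem off_apply (β : Fin n → κ) (G : Sy n) (p : Op β) : off β G p = sM G p.1.1 p.1.2 := rfl

theorem off_so (β : Fin n → κ) (x : Eo β) : off β (so β x) = x := by
  ext p
  rw [off_apply, sM_so, soM_lt]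

theorem sM_symm' (G : Sy n) : (sM G)ᵀ = sM G := sM_transpose G

/-- a symmetric matrix with zero diagonal blocks -/
theorem so_off (β : Fin n → κ) {G : Sy n} (h : ∀ i j, β i = β j → sM G i j = 0) :
    so β (off β G) = G := by
  apply sy_ext
  refine off_ext (β := β) (sM_transpose _) (sM_transpose _) (fun i j hij => ?_) fun p => ?_
  · rw [h i j hij]
    exact soM_eq β _ i j hij
  · rw [sM_so, soM_lt, off_apply]

theorem dec (β : Fin n → κ) (G : Sy n) : bd β G + so β (off β G) = G := by
  apply sy_ext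
  refine off_ext (β := β) (sM_transpose _) (sM_transpose _) (fun i j hij => ?_) fun p => ?_
  · change bdM β (sM G) i j + soM β (off β G) i j = _
    rw [soM_eq β _ i j hij, add_zero, bdM_apply, if_pos hij]
  · change bdM β (sM G) p.1.1 p.1.2 + soM β (off β G) p.1.1 p.1.2 = _
    rw [soM_lt, bdM_apply, if_neg p.2.2, zero_add, off_apply]

theorem bd_so (β : Fin n → κ) (x : Eo β) : bd β (so β x) = 0 := by
  apply sy_ext
  ext i j
  change bdM β (soM β x) i j = 0
  rw [bdM_apply]
  split_ifs with h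
  · exact soM_eq β x i j h
  · rfl

theorem bd_of_isB {β : Fin n → κ} {G : Sy n} (h : IsB β (sM G)) : bd β G = G :=
  sy_ext (bdM_of_isB h)

theorem off_of_isB {β : Fin n → κ} {G : Sy n} (h : IsB β (sM G)) : off β G = 0 := by
  ext p
  rw [off_apply, h _ _ p.2.2]
  rfl

/-- pairs of indices in the same block -/
abbrev Ip (β : Fin n → κ) : Type := {p : Fin n × Fin n // p.1 ≤ p.2 ∧ β p.1 = β p.2}

/-- coordinates of the block diagonal symmetric matrices -/
abbrev Ei (β : Fin n → κ) : Type := Ip β → ℝ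

/-- the entries of the block diagonal symmetric matrix -/
def siM (β : Fin n → κ) (x : Ei β) : Matrix (Fin n) (Fin n) ℝ := Matrix.of fun i j =>
  if h : i ≤ j ∧ β i = β j then x ⟨(i, j), h⟩ else if h : j ≤ i ∧ β j = β i then x ⟨(j, i), h⟩ else 0

theorem siM_apply (β : Fin n → κ) (x : Ei β) (i j : Fin n) : siM β x i j =
  if h : i ≤ j ∧ β i = β j then x ⟨(i, j), h⟩ else if h : j ≤ i ∧ β j = β i then x ⟨(j, i), h⟩ else 0 :=
  rfl

theorem siM_le (β : Fin n → κ) (x : Ei β) (p : Ip β) : siM β x p.1.1 p.1.2 = x p := by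
  rw [siM_apply, dif_pos p.2]

theorem siM_isB (β : Fin n → κ) (x : Ei β) : IsB β (siM β x) := by
  intro i j h
  rw [siM_apply, dif_neg (fun h' => h h'.2), dif_neg (fun h' => h h'.2.symm)]

theorem siM_symm (β : Fin n → κ) (x : Ei β) (i j : Fin n) : siM β x i j = siM β x j i := by
  by_cases h : β i = β j
  · rcases le_total i j with h1 | h1
    · rw [siM_apply, dif_pos ⟨h1, h⟩]
      rcases eq_or_lt_of_le h1 with e | h2
      · subst e
        rw [siM_apply, dif_pos ⟨le_rfl, rfl⟩]
      · rw [siM_apply, dif_neg (fun h' => absurd h'.1 (not_le.2 h2)), dif_pos ⟨h1, h⟩]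
    · rw [siM_apply β x j i, dif_pos ⟨h1, h.symm⟩]
      rcases eq_or_lt_of_le h1 with e | h2
      · subst e
        rw [siM_apply, dif_pos ⟨le_rfl, rfl⟩]
      · rw [siM_apply, dif_neg (fun h' => absurd h'.1 (not_le.2 h2)), dif_pos ⟨h1, h.symm⟩]
  · rw [siM_isB β x i j h, siM_isB β x j i (Ne.symm h)]

/-- the block diagonal symmetric matrix -/
def si (β : Fin n → κ) : Ei β →ₗ[ℝ] Sy n where
  toFun x := sOf (siM β x) (by
    ext i j
    rw [Matrix.transpose_apply]
    exact siM_symm β x j i)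
  map_add' x y := by
    apply sy_ext
    ext i j
    change siM β (x + y) i j = siM β x i j + siM β y i j
    rw [siM_apply, siM_apply, siM_apply]
    split_ifs
    · rfl
    · rfl
    · simp
  map_smul' c x := by
    apply sy_ext
    ext i j
    change siM β (c • x) i j = c * siM β x i j
    rw [siM_apply, siM_apply]
    split_ifs
    · rfl
    · rfl
    · simp

theorem sM_si (β : Fin n → κ) (x : Ei β) : sM (si β x) = siM β x := rfl

theorem isB_si (β : Fin n → κ) (x : Ei β) : IsB β (sM (si β x)) := siM_isB β x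

/-- the coordinates of the diagonal blocks -/
def inn (β : Fin n → κ) : Sy n →ₗ[ℝ] Ei β where
  toFun G := fun p => sM G p.1.1 p.1.2
  map_add' G H := by
    ext p
    rfl
  map_smul' c G := by
    ext p
    rfl

theorem inn_apply (β : Fin n → κ) (G : Sy n) (p : Ip β) : inn β G p = sM G p.1.1 p.1.2 := rfl

theorem inn_si (β : Fin n → κ) (x : Ei β) : inn β (si β x) = x := by
  ext p
  rw [inn_apply, sM_si, siM_le]

theorem inn_so (β : Fin n → κ) (x : Eo β) : inn β (so β x) = 0 := by
  ext p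
  rw [inn_apply, sM_so]
  exact soM_eq β x _ _ p.2.2

theorem si_inn (β : Fin n → κ) (G : Sy n) : si β (inn β G) = bd β G := by
  apply sy_ext
  ext i j
  rw [sM_si, sM_bd, bdM_apply]
  by_cases h : β i = β j
  · rw [if_pos h]
    rcases le_total i j with h1 | h1
    · rw [siM_le β _ ⟨(i, j), ⟨h1, h⟩⟩, inn_apply]
    · rw [siM_symm, siM_le β _ ⟨(j, i), ⟨h1, h.symm⟩⟩, inn_apply, sM_symm]
  · rw [if_neg h]
    exact siM_isB β _ i j h

theorem bd_si (β : Fin n → κ) (x : Ei β) : bd β (si β x) = si β x := bd_of_isB (isB_si β x)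

theorem off_si (β : Fin n → κ) (x : Ei β) : off β (si β x) = 0 := off_of_isB (isB_si β x)

/-- block decomposition of the space of symmetric matrices -/
noncomputable def dcE (β : Fin n → κ) : (Ei β × Eo β) ≃ₗ[ℝ] Sy n where
  toFun z := si β z.1 + so β z.2
  invFun G := (inn β G, off β G)
  map_add' z w := by
    simp only [Prod.fst_add, Prod.snd_add, map_add]
    abel
  map_smul' c z := by
    simp only [Prod.smul_fst, Prod.smul_snd, map_smul, RingHom.id_apply, smul_add]
  left_inv z := by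
    refine Prod.ext ?_ ?_
    · change inn β (si β z.1 + so β z.2) = z.1
      rw [map_add, inn_so, inn_si, add_zero]
    · change off β (si β z.1 + so β z.2) = z.2
      rw [map_add, off_so, off_si, zero_add]
  right_inv G := by
    change si β (inn β G) + so β (off β G) = G
    rw [si_inn]
    exact dec β G

/-- Haar measures and linear isomorphisms -/
theorem haar_lin {V W : Type} [NormedAddCommGroup V] [NormedSpace ℝ V] [FiniteDimensional ℝ V]
    [MeasurableSpace V] [BorelSpace V] [NormedAddCommGroup W] [NormedSpace ℝ W]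
    [FiniteDimensional ℝ W] [MeasurableSpace W] [BorelSpace W] (μ : Measure V)
    [μ.IsAddHaarMeasure] (ν : Measure W) [ν.IsAddHaarMeasure] (e : V ≃ₗ[ℝ] W) :
    ∃ c : ℝ≥0∞, c ≠ 0 ∧ c ≠ ⊤ ∧ ∀ φ : W → ℝ≥0∞, Measurable φ →
      ∫⁻ w, φ w ∂ν = c * ∫⁻ v, φ (e v) ∂μ := by
  have h1 : (μ.map e.toContinuousLinearEquiv).IsAddHaarMeasure :=
    e.toContinuousLinearEquiv.isAddHaarMeasure_map μ
  have h2 := Measure.isAddLeftInvariant_eq_smul ν (μ.map e.toContinuousLinearEquiv)
  refine ⟨(Measure.addHaarScalarFactor ν (μ.map e.toContinuousLinearEquiv) : ℝ≥0∞), ?_,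
    ENNReal.coe_ne_top, fun φ hφ => ?_⟩
  · rw [Ne, ENNReal.coe_eq_zero]
    exact (Measure.addHaarScalarFactor_pos_of_isAddHaarMeasure _ _).ne'
  · conv_lhs => rw [h2]
    rw [lintegral_smul_measure, lintegral_map hφ e.toContinuousLinearEquiv.continuous.measurable]
    rfl

theorem nu_split (β : Fin n → κ) : ∃ c : ℝ≥0∞, c ≠ 0 ∧ c ≠ ⊤ ∧ ∀ φ : Sy n → ℝ≥0∞, Measurable φ →
    ∫⁻ G, φ G ∂(nu n) = c * ∫⁻ d : Ei β, ∫⁻ x : Eo β, φ (si β d + so β x) := by
  have i1 : ((volume : Measure (Ei β)).prod (volume : Measure (Eo β))).IsAddHaarMeasure :=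
    Measure.prod.instIsAddHaarMeasure _ _
  obtain ⟨c, h0, h1, h⟩ := haar_lin (V := Ei β × Eo β) (W := Sy n)
    ((volume : Measure (Ei β)).prod (volume : Measure (Eo β))) (nu n) (dcE β)
  refine ⟨c, h0, h1, fun φ hφ => ?_⟩
  rw [h φ hφ, lintegral_prod _ ?_]
  · rfl
  · have hm : Measurable (dcE β) := (dcE β).toContinuousLinearEquiv.continuous.measurable
    exact (hφ.comp hm).aemeasurable

/-- the identity -/
def oneS (n : ℕ) : Sy n := sOf 1 Matrix.transpose_one

theorem sM_oneS : sM (oneS n) = 1 := rfl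

/-- positive definite matrices with diagonal blocks `1` -/
def Ko (β : Fin n → κ) : Set (Eo β) := {x | oneS n + so β x ∈ PD n}

theorem continuous_so (β : Fin n → κ) : Continuous (so β) :=
  LinearMap.continuous_of_finiteDimensional _

theorem continuous_off (β : Fin n → κ) : Continuous (off β) :=
  LinearMap.continuous_of_finiteDimensional _

theorem continuous_bd (β : Fin n → κ) : Continuous (bd β) :=
  LinearMap.continuous_of_finiteDimensional _

theorem isOpen_Ko (β : Fin n → κ) : IsOpen (Ko β) :=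
  R9.isOpen_PD.preimage (continuous_const.add (continuous_so β))

theorem one_mem_PD : oneS n ∈ PD n := by
  intro v hv
  rw [sM_oneS, Matrix.one_mulVec]
  have := dotProduct_self_star_pos_iff.2 hv
  simpa using this

theorem zero_mem_Ko (β : Fin n → κ) : (0 : Eo β) ∈ Ko β := by
  change oneS n + so β 0 ∈ PD n
  rw [map_zero, add_zero]
  exact one_mem_PD

theorem convex_PD : Convex ℝ (PD n) := by
  intro P hP Q hQ a b ha hb hab v hv
  have e : v ⬝ᵥ (sM (a • P + b • Q) *ᵥ v) = a * (v ⬝ᵥ (sM P *ᵥ v)) + b * (v ⬝ᵥ (sM Q *ᵥ v)) := by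
    have e1 : sM (a • P + b • Q) = a • sM P + b • sM Q := rfl
    rw [e1, Matrix.add_mulVec, Matrix.smul_mulVec, Matrix.smul_mulVec, dotProduct_add,
      dotProduct_smul, dotProduct_smul]
    rfl
  rw [e]
  have h1 := hP v hv
  have h2 := hQ v hv
  rcases lt_or_eq_of_le ha with h | h
  · have := mul_pos h h1
    have := mul_nonneg hb h2.le
    linarith
  · have hb1 : b = 1 := by linarith
    rw [← h, hb1]
    linarith

theorem convex_Ko (β : Fin n → κ) : Convex ℝ (Ko β) := by
  intro x hx y hy a b ha hb hab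
  have h := convex_PD hx hy ha hb hab
  have e : a • (oneS n + so β x) + b • (oneS n + so β y) = oneS n + so β (a • x + b • y) := by
    rw [map_add, map_smul, map_smul, smul_add, smul_add]
    have : oneS n = a • oneS n + b • oneS n := by rw [← add_smul, hab, one_smul]
    conv_rhs => rw [this]
    abel
  rw [e] at h
  exact h

theorem entry_lt {G : Sy n} (hG : G ∈ PD n) (i j : Fin n) (hij : i ≠ j) :
    sM G i j ^ 2 < sM G i i * sM G j j := by
  have hi : 0 < sM G i i := by
    have := hG (Pi.single i 1) (by simp)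
    simpa using this
  have key := hG (Pi.single j (sM G i i) - Pi.single i (sM G i j)) (by
    intro h
    have := congrFun h j
    simp [hij.symm] at this
    exact hi.ne' this)
  have e : (Pi.single j (sM G i i) - Pi.single i (sM G i j) : Fin n → ℝ) ⬝ᵥ
      (sM G *ᵥ (Pi.single j (sM G i i) - Pi.single i (sM G i j))) =
      sM G i i * (sM G i i * sM G j j - sM G i j ^ 2) := by
    simp only [Matrix.mulVec_sub, sub_dotProduct, dotProduct_sub, Matrix.mulVec_single,
      single_dotProduct, Pi.smul_apply, MulOpposite.smul_eq_mul_unop, MulOpposite.unop_op,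
      Matrix.col_apply]
    rw [sM_symm G j i]
    ring
  rw [e] at key
  have := (pos_iff_pos_of_mul_pos key).1 hi
  linarith

theorem entry_Ko {β : Fin n → κ} {x : Eo β} (hx : x ∈ Ko β) (p : Op β) : |x p| ≤ 1 := by
  have hne : p.1.1 ≠ p.1.2 := fun e => p.2.2 (congrArg β e)
  have h := entry_lt hx p.1.1 p.1.2 hne
  have e1 : ∀ i j, sM (oneS n + so β x) i j = (1 : Matrix (Fin n) (Fin n) ℝ) i j + soM β x i j :=
    fun _ _ => rfl
  rw [e1, e1, e1, Matrix.one_apply_eq, Matrix.one_apply_eq, Matrix.one_apply_ne hne,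
    soM_eq β x _ _ rfl, soM_eq β x _ _ rfl, soM_lt] at h
  rw [← sq_le_one_iff_abs_le_one]
  nlinarith

theorem bdd_Ko (β : Fin n → κ) : Bornology.IsBounded (Ko β) := by
  rw [isBounded_iff_forall_norm_le]
  refine ⟨Real.sqrt (Fintype.card (Op β)), fun x hx => ?_⟩
  rw [EuclideanSpace.norm_eq]
  refine Real.sqrt_le_sqrt ?_
  calc ∑ p, ‖x p‖ ^ 2 ≤ ∑ _p : Op β, (1 : ℝ) := by
        refine Finset.sum_le_sum fun p _ => ?_
        rw [Real.norm_eq_abs]
        have := entry_Ko hx p
        have := abs_nonneg (x p)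
        nlinarith
    _ = _ := by simp

theorem vol_Ko_pos (β : Fin n → κ) : (volume : Measure (Eo β)) (Ko β) ≠ 0 :=
  ((isOpen_Ko β).measure_pos volume ⟨0, zero_mem_Ko β⟩).ne'

theorem vol_Ko_fin (β : Fin n → κ) : (volume : Measure (Eo β)) (Ko β) ≠ ⊤ :=
  (bdd_Ko β).measure_lt_top.ne

end Pool.Agent.L0h31.KE
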