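import Pool.Agent.L0h31.KE.Off

/-!
# The operator norm of a matrix
-/

set_option autoImplicit false
set_option linter.unusedSectionVars false

namespace Pool.Agent.L0h31.KE

open MeasureTheory Set Matrix
open scoped ENNReal InnerProductSpace
open Pool.Agent.H212R2.KLS

/-- the operator of a matrix -/
noncomputable def mvL (m n : ℕ) : E m n →ₗ[ℝ] (V n →L[ℝ] V m) where
  toFun X := LinearMap.toContinuousLinearMap
    { toFun := fun v => mv X v
      map_add' := fun v w => by
        ext i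
        change (toM X *ᵥ (v.ofLp + w.ofLp)) i = (toM X *ᵥ v.ofLp) i + (toM X *ᵥ w.ofLp) i
        rw [Matrix.mulVec_add]
        rfl
      map_smul' := fun c v => by
        ext i
        change (toM X *ᵥ (c • v.ofLp)) i = c * (toM X *ᵥ v.ofLp) i
        rw [Matrix.mulVec_smul]
        rfl }
  map_add' X Y := by
    ext v i
    change (toM (X + Y) *ᵥ v.ofLp) i = (toM X *ᵥ v.ofLp) i + (toM Y *ᵥ v.ofLp) i
    have : toM (X + Y) = toM X + toM Y := rfl
    rw [this, Matrix.add_mulVec]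
    rfl
  map_smul' c X := by
    ext v i
    change (toM (c • X) *ᵥ v.ofLp) i = c * (toM X *ᵥ v.ofLp) i
    have : toM (c • X) = c • toM X := rfl
    rw [this, Matrix.smul_mulVec]
    rfl

theorem mvL_apply {m n : ℕ} (X : E m n) (v : V n) : mvL m n X v = mv X v := rfl

/-- the operator norm -/
noncomputable def opn {m n : ℕ} (X : E m n) : ℝ := ‖mvL m n X‖

theorem opn_nonneg {m n : ℕ} (X : E m n) : 0 ≤ opn X := norm_nonneg _

theorem continuous_opn {m n : ℕ} : Continuous (opn : E m n → ℝ) :=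
  (LinearMap.continuous_of_finiteDimensional (mvL m n)).norm

theorem opn_opLe {m n : ℕ} (X : E m n) : OpLe (opn X) X := fun v =>
  (mvL m n X).le_opNorm v

theorem opn_le {m n : ℕ} {X : E m n} {r : ℝ} (hr : 0 ≤ r) (h : OpLe r X) : opn X ≤ r :=
  ContinuousLinearMap.opNorm_le_bound _ hr h

/-- the quadratic form and the operator norm -/
theorem quad_le_opn {n : ℕ} (G : Sy n) (v : Fin n → ℝ) :
    v ⬝ᵥ (sM G *ᵥ v) ≤ opn (G : E n n) * ∑ i, v i ^ 2 := by
  have h1 : v ⬝ᵥ (sM G *ᵥ v) = ⟪(WithLp.toLp 2 v : V n), mv (G : E n n) (WithLp.toLp 2 v)⟫_ℝ := by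
    rw [PiLp.inner_apply]
    refine Finset.sum_congr rfl fun i _ => ?_
    change v i * (sM G *ᵥ v) i = (sM G *ᵥ v) i * v i
    ring
  have h2 : ‖(WithLp.toLp 2 v : V n)‖ ^ 2 = ∑ i, v i ^ 2 := by
    rw [EuclideanSpace.real_norm_sq_eq]
  rw [h1, ← h2]
  refine (real_inner_le_norm _ _).trans ?_
  have := opn_opLe (G : E n n) (WithLp.toLp 2 v)
  calc ‖(WithLp.toLp 2 v : V n)‖ * ‖mv (G : E n n) (WithLp.toLp 2 v)‖
      ≤ ‖(WithLp.toLp 2 v : V n)‖ * (opn (G : E n n) * ‖(WithLp.toLp 2 v : V n)‖) :=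
        mul_le_mul_of_nonneg_left this (norm_nonneg _)
    _ = _ := by ring

/-- the norm of the matrix with blocks `1` on the diagonal -/
noncomputable def Lam {n : ℕ} {κ : Type} [DecidableEq κ] (β : Fin n → κ) (x : Eo β) : ℝ :=
  opn ((oneS n + so β x : Sy n) : E n n)

theorem Lam_nonneg {n : ℕ} {κ : Type} [DecidableEq κ] (β : Fin n → κ) (x : Eo β) :
    0 ≤ Lam β x := opn_nonneg _

theorem continuous_Lam {n : ℕ} {κ : Type} [DecidableEq κ] (β : Fin n → κ) :
    Continuous (Lam β) :=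
  continuous_opn.comp (continuous_subtype_val.comp (continuous_const.add (continuous_so β)))

end Pool.Agent.L0h31.KE
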