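import Pool.Agent.H212R2.KLS.Rad

/-!
# Block structure of the positive square root
-/

set_option autoImplicit false

namespace Pool.Agent.L0h31.KE

open MeasureTheory Set Matrix
open scoped ENNReal InnerProductSpace
open Pool.Agent.H212R2.KLS

variable {n : ℕ}

theorem sy_ext {P Q : Sy n} (h : sM P = sM Q) : P = Q := R10.sM_injective h

theorem sM_symm (P : Sy n) (i j : Fin n) : sM P i j = sM P j i := P.2 i j

open Classical in
/-- the positive square root -/
noncomputable def rt (G : Sy n) : Sy n :=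
  if h : G ∈ PD n then Classical.choose (R10.exists_sqrt h) else G

theorem rt_mem {G : Sy n} (h : G ∈ PD n) : rt G ∈ PD n := by
  unfold rt
  rw [dif_pos h]
  exact (Classical.choose_spec (R10.exists_sqrt h)).1

theorem sq_rt {G : Sy n} (h : G ∈ PD n) : sq (rt G) = G := by
  unfold rt
  rw [dif_pos h]
  exact (Classical.choose_spec (R10.exists_sqrt h)).2

theorem rt_eq {G P : Sy n} (hP : P ∈ PD n) (h : sq P = G) : rt G = P := by
  have hG : G ∈ PD n := h ▸ R10.sq_mem_PD hP
  exact R10.injOn_sq (rt_mem hG) hP ((sq_rt hG).trans h.symm)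

theorem rt_mul {G : Sy n} (h : G ∈ PD n) : sM (rt G) * sM (rt G) = sM G := by
  have := congrArg sM (sq_rt h)
  exact this

theorem measurable_rt : Measurable (rt : Sy n → Sy n) := by
  intro A hA
  have hPD := R10.measurableSet_PD n
  have h : rt ⁻¹' A = (sq '' (A ∩ PD n)) ∪ ((PD n)ᶜ ∩ A) := by
    ext G
    by_cases hG : G ∈ PD n
    · constructor
      · intro h
        exact Or.inl ⟨rt G, ⟨h, rt_mem hG⟩, sq_rt hG⟩
      · rintro (⟨P, ⟨hPA, hP⟩, hPG⟩ | ⟨h1, _⟩)
        · rw [mem_preimage, rt_eq hP hPG]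
          exact hPA
        · exact absurd hG h1
    · have hr : rt G = G := by
        unfold rt
        rw [dif_neg hG]
      constructor
      · intro h
        rw [mem_preimage, hr] at h
        exact Or.inr ⟨hG, h⟩
      · rintro (⟨P, ⟨_, hP⟩, hPG⟩ | ⟨_, h2⟩)
        · exact absurd (hPG ▸ R10.sq_mem_PD hP) hG
        · rw [mem_preimage, hr]
          exact h2
  rw [h]
  refine MeasurableSet.union ?_ (hPD.compl.inter hA)
  exact (hA.inter hPD).image_of_continuousOn_injOn r12_cont_sq.continuousOn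
    (R10.injOn_sq.mono inter_subset_right)

/-! ### block diagonal matrices -/

variable {κ : Type} [DecidableEq κ]

/-- block diagonal matrices -/
def IsB (β : Fin n → κ) (M : Matrix (Fin n) (Fin n) ℝ) : Prop := ∀ i j, β i ≠ β j → M i j = 0

/-- the block diagonal part -/
def bdM (β : Fin n → κ) (M : Matrix (Fin n) (Fin n) ℝ) : Matrix (Fin n) (Fin n) ℝ :=
  Matrix.of fun i j => if β i = β j then M i j else 0

/-- the block `a`, and the identity outside of it -/
def baM (β : Fin n → κ) (a : κ) (M : Matrix (Fin n) (Fin n) ℝ) : Matrix (Fin n) (Fin n) ℝ :=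
  Matrix.of fun i j => if β i = a ∧ β j = a then M i j else (1 : Matrix (Fin n) (Fin n) ℝ) i j

theorem bdM_apply (β : Fin n → κ) (M : Matrix (Fin n) (Fin n) ℝ) (i j : Fin n) :
    bdM β M i j = if β i = β j then M i j else 0 := rfl

theorem baM_apply (β : Fin n → κ) (a : κ) (M : Matrix (Fin n) (Fin n) ℝ) (i j : Fin n) :
    baM β a M i j = if β i = a ∧ β j = a then M i j else (1 : Matrix (Fin n) (Fin n) ℝ) i j := rfl

theorem isB_bdM (β : Fin n → κ) (M : Matrix (Fin n) (Fin n) ℝ) : IsB β (bdM β M) := by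
  intro i j h
  rw [bdM_apply, if_neg h]

theorem bdM_of_isB {β : Fin n → κ} {M : Matrix (Fin n) (Fin n) ℝ} (h : IsB β M) : bdM β M = M := by
  ext i j
  rw [bdM_apply]
  split_ifs with hij
  · rfl
  · exact (h i j hij).symm

theorem isB_one (β : Fin n → κ) : IsB β (1 : Matrix (Fin n) (Fin n) ℝ) := by
  intro i j h
  exact Matrix.one_apply_ne (fun e => h (congrArg β e))

theorem IsB.mul {β : Fin n → κ} {A B : Matrix (Fin n) (Fin n) ℝ} (hA : IsB β A) (hB : IsB β B) :
    IsB β (A * B) := by
  intro i j h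
  rw [Matrix.mul_apply]
  refine Finset.sum_eq_zero fun k _ => ?_
  by_cases hk : β i = β k
  · rw [hB k j (by rw [← hk]; exact h), mul_zero]
  · rw [hA i k hk, zero_mul]

theorem IsB.transpose {β : Fin n → κ} {A : Matrix (Fin n) (Fin n) ℝ} (hA : IsB β A) :
    IsB β Aᵀ := fun i j h => hA j i (Ne.symm h)

theorem baM_one (β : Fin n → κ) (a : κ) : baM β a (1 : Matrix (Fin n) (Fin n) ℝ) = 1 := by
  ext i j
  rw [baM_apply]
  split_ifs <;> rfl

theorem baM_bdM (β : Fin n → κ) (a : κ) (M : Matrix (Fin n) (Fin n) ℝ) :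
    baM β a (bdM β M) = baM β a M := by
  ext i j
  rw [baM_apply, baM_apply]
  split_ifs with h
  · rw [bdM_apply, if_pos (h.1.trans h.2.symm)]
  · rfl

theorem baM_mul {β : Fin n → κ} (a : κ) {A : Matrix (Fin n) (Fin n) ℝ}
    (B : Matrix (Fin n) (Fin n) ℝ) (hA : IsB β A) :
    baM β a (A * B) = baM β a A * baM β a B := by
  ext i j
  rw [baM_apply, Matrix.mul_apply, Matrix.mul_apply]
  by_cases hi : β i = a
  · by_cases hj : β j = a
    · rw [if_pos ⟨hi, hj⟩]
      refine Finset.sum_congr rfl fun k _ => ?_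
      by_cases hk : β k = a
      · rw [baM_apply, baM_apply, if_pos ⟨hi, hk⟩, if_pos ⟨hk, hj⟩]
      · rw [hA i k (by rw [hi]; exact Ne.symm hk), baM_apply, if_neg (fun h => hk h.2),
          Matrix.one_apply_ne (fun e => hk (by rw [← e]; exact hi)), zero_mul, zero_mul]
    · rw [if_neg (fun h => hj h.2), Matrix.one_apply_ne (fun e => hj (by rw [← e]; exact hi))]
      symm
      refine Finset.sum_eq_zero fun k _ => ?_
      by_cases hk : β k = a
      · rw [baM_apply β a B, if_neg (fun h => hj h.2),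
          Matrix.one_apply_ne (fun e => hj (by rw [← e]; exact hk)), mul_zero]
      · rw [baM_apply β a A, if_neg (fun h => hk h.2),
          Matrix.one_apply_ne (fun e => hk (by rw [← e]; exact hi)), zero_mul]
  · rw [if_neg (fun h => hi h.1), Finset.sum_eq_single i]
    · rw [baM_apply, baM_apply, if_neg (fun h => hi h.1), if_neg (fun h => hi h.1),
        Matrix.one_apply_eq, one_mul]
    · intro k _ hk
      rw [baM_apply, if_neg (fun h => hi h.1), Matrix.one_apply_ne (Ne.symm hk), zero_mul]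
    · intro h
      exact absurd (Finset.mem_univ i) h

theorem bdM_symm (β : Fin n → κ) (G : Sy n) : (bdM β (sM G))ᵀ = bdM β (sM G) := by
  ext i j
  rw [Matrix.transpose_apply, bdM_apply, bdM_apply, sM_symm G j i]
  by_cases h : β i = β j
  · rw [if_pos h, if_pos h.symm]
  · rw [if_neg h, if_neg (Ne.symm h)]

theorem baM_symm (β : Fin n → κ) (a : κ) (G : Sy n) :
    (baM β a (sM G))ᵀ = baM β a (sM G) := by
  ext i j
  rw [Matrix.transpose_apply, baM_apply, baM_apply, sM_symm G j i]
  by_cases h : β i = a ∧ β j = a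
  · rw [if_pos h, if_pos ⟨h.2, h.1⟩]
  · rw [if_neg h, if_neg (fun h' => h ⟨h'.2, h'.1⟩)]
    by_cases e : i = j
    · rw [e]
    · rw [Matrix.one_apply_ne e, Matrix.one_apply_ne (Ne.symm e)]

/-- block diagonal part of a symmetric matrix -/
def bd (β : Fin n → κ) : Sy n →ₗ[ℝ] Sy n where
  toFun G := sOf (bdM β (sM G)) (bdM_symm β G)
  map_add' G H := by
    apply sy_ext
    ext i j
    change (if β i = β j then sM (G + H) i j else 0) =
      (if β i = β j then sM G i j else 0) + (if β i = β j then sM H i j else 0)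
    split_ifs
    · rfl
    · simp
  map_smul' c G := by
    apply sy_ext
    ext i j
    change (if β i = β j then sM (c • G) i j else 0) = c * (if β i = β j then sM G i j else 0)
    split_ifs
    · rfl
    · simp

theorem sM_bd (β : Fin n → κ) (G : Sy n) : sM (bd β G) = bdM β (sM G) := rfl

/-- one block of a symmetric matrix -/
def ba (β : Fin n → κ) (a : κ) (G : Sy n) : Sy n := sOf (baM β a (sM G)) (baM_symm β a G)

theorem sM_ba (β : Fin n → κ) (a : κ) (G : Sy n) : sM (ba β a G) = baM β a (sM G) := rfl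

theorem ba_bd (β : Fin n → κ) (a : κ) (G : Sy n) : ba β a (bd β G) = ba β a G :=
  sy_ext (baM_bdM β a (sM G))

/-- restriction of a vector to a block -/
def rv (β : Fin n → κ) (a : κ) (v : Fin n → ℝ) : Fin n → ℝ := fun i => if β i = a then v i else 0

theorem quad_sum (M : Matrix (Fin n) (Fin n) ℝ) (v w : Fin n → ℝ) :
    v ⬝ᵥ (M *ᵥ w) = ∑ i, ∑ j, v i * M i j * w j := by
  simp only [dotProduct, Matrix.mulVec, Finset.mul_sum]
  refine Finset.sum_congr rfl fun i _ => Finset.sum_congr rfl fun j _ => ?_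
  ring

theorem quad_bd [Fintype κ] (β : Fin n → κ) (M : Matrix (Fin n) (Fin n) ℝ) (v : Fin n → ℝ) :
    v ⬝ᵥ (bdM β M *ᵥ v) = ∑ a, (rv β a v) ⬝ᵥ (M *ᵥ rv β a v) := by
  simp only [quad_sum]
  have e : ∑ a, ∑ i, ∑ j, rv β a v i * M i j * rv β a v j =
      ∑ i, ∑ a, ∑ j, rv β a v i * M i j * rv β a v j := Finset.sum_comm
  rw [e]
  refine Finset.sum_congr rfl fun i _ => ?_
  have e2 : ∑ a, ∑ j, rv β a v i * M i j * rv β a v j =
      ∑ j, ∑ a, rv β a v i * M i j * rv β a v j := Finset.sum_comm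
  rw [e2]
  refine Finset.sum_congr rfl fun j _ => ?_
  rw [Finset.sum_eq_single (β i)]
  · simp only [rv, bdM_apply, if_true]
    by_cases h : β i = β j
    · rw [if_pos h, if_pos h.symm]
    · rw [if_neg h, if_neg (Ne.symm h)]
      simp
  · intro a _ ha
    simp [rv, Ne.symm ha]
  · intro h
    exact absurd (Finset.mem_univ _) h

theorem bd_mem [Fintype κ] (β : Fin n → κ) {G : Sy n} (hG : G ∈ PD n) : bd β G ∈ PD n := by
  intro v hv
  rw [sM_bd, quad_bd]
  obtain ⟨i, hi⟩ := Function.ne_iff.1 hv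
  refine Finset.sum_pos' (fun a _ => ?_) ⟨β i, Finset.mem_univ _, ?_⟩
  · by_cases h : rv β a v = 0
    · rw [h, zero_dotProduct]
    · exact (hG _ h).le
  · refine hG _ (Function.ne_iff.2 ⟨i, ?_⟩)
    simpa [rv] using hi

theorem quad_ba (β : Fin n → κ) (a : κ) (M : Matrix (Fin n) (Fin n) ℝ) (v : Fin n → ℝ) :
    v ⬝ᵥ (baM β a M *ᵥ v) = (rv β a v) ⬝ᵥ (M *ᵥ rv β a v) +
      ∑ i, (if β i = a then 0 else v i ^ 2) := by
  simp only [quad_sum]
  rw [← Finset.sum_add_distrib]
  refine Finset.sum_congr rfl fun i _ => ?_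
  by_cases hi : β i = a
  · rw [if_pos hi, add_zero]
    refine Finset.sum_congr rfl fun j _ => ?_
    rw [baM_apply]
    by_cases hj : β j = a
    · rw [if_pos ⟨hi, hj⟩]
      simp [rv, hi, hj]
    · rw [if_neg (fun h => hj h.2), Matrix.one_apply_ne (fun e => hj (by rw [← e]; exact hi))]
      simp [rv, hj]
  · rw [if_neg hi, Finset.sum_eq_single i, Finset.sum_eq_zero]
    · rw [baM_apply, if_neg (fun h => hi h.1), Matrix.one_apply_eq]
      ring
    · intro j _
      simp [rv, hi]
    · intro j _ hj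
      rw [baM_apply, if_neg (fun h => hi h.1), Matrix.one_apply_ne (Ne.symm hj)]
      ring
    · intro h
      exact absurd (Finset.mem_univ _) h

theorem ba_mem (β : Fin n → κ) (a : κ) {G : Sy n} (hG : G ∈ PD n) : ba β a G ∈ PD n := by
  intro v hv
  rw [sM_ba, quad_ba]
  by_cases h : rv β a v = 0
  · rw [h, zero_dotProduct, zero_add]
    obtain ⟨i, hi⟩ := Function.ne_iff.1 hv
    have hia : β i ≠ a := by
      intro e
      have := congrFun h i
      simp only [rv, e, if_true] at this
      exact hi this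
    refine Finset.sum_pos' (fun j _ => ?_) ⟨i, Finset.mem_univ _, ?_⟩
    · split_ifs
      · exact le_rfl
      · exact sq_nonneg _
    · rw [if_neg hia]
      exact sq_pos_of_ne_zero hi
  · refine add_pos_of_pos_of_nonneg (hG _ h) (Finset.sum_nonneg fun j _ => ?_)
    split_ifs
    · exact le_rfl
    · exact sq_nonneg _

/-- the square root of a block diagonal matrix is block diagonal -/
theorem rt_isB {β : Fin n → κ} {G : Sy n} (hG : G ∈ PD n) (h : IsB β (sM G)) :
    IsB β (sM (rt G)) := by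
  intro i j hij
  set D : Matrix (Fin n) (Fin n) ℝ := Matrix.diagonal fun k => if β k = β i then 1 else -1 with hD
  have hDD : D * D = 1 := by
    rw [hD, Matrix.diagonal_mul_diagonal, ← Matrix.diagonal_one]
    congr 1
    funext k
    split_ifs <;> norm_num
  have hDT : Dᵀ = D := Matrix.diagonal_transpose _
  have hdet : D.det ≠ 0 := by
    intro h0
    have := congrArg Matrix.det hDD
    rw [Matrix.det_mul, h0, zero_mul, Matrix.det_one] at this
    exact zero_ne_one this
  have h1 : cong D (rt G) ∈ PD n := (R9.cong_mem_iff D hdet _).2 (rt_mem hG)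
  have e1 : D * sM G * D = sM G := by
    ext k l
    rw [hD, Matrix.mul_diagonal, Matrix.diagonal_mul]
    by_cases hkl : β k = β l
    · rw [hkl]
      split_ifs <;> ring
    · rw [h k l hkl]
      ring
  have h2 : sq (cong D (rt G)) = G := by
    apply sy_ext
    change (Dᵀ * sM (rt G) * D) * (Dᵀ * sM (rt G) * D) = sM G
    rw [hDT]
    calc D * sM (rt G) * D * (D * sM (rt G) * D) = D * (sM (rt G) * (D * D) * sM (rt G)) * D := by
          simp only [Matrix.mul_assoc]
      _ = D * sM G * D := by rw [hDD, Matrix.mul_one, rt_mul hG]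
      _ = sM G := e1
  have h3 : sM (rt G) = D * sM (rt G) * D := by
    conv_lhs => rw [rt_eq h1 h2]
    change Dᵀ * sM (rt G) * D = _
    rw [hDT]
  have h4 := congrFun (congrFun h3 i) j
  rw [hD, Matrix.mul_diagonal, Matrix.diagonal_mul, if_pos rfl, if_neg (Ne.symm hij)] at h4
  linarith

/-- locality of the square root -/
theorem rt_ba {β : Fin n → κ} {G : Sy n} (hG : G ∈ PD n) (h : IsB β (sM G)) (a : κ) :
    rt (ba β a G) = ba β a (rt G) := by
  refine rt_eq (ba_mem β a (rt_mem hG)) (sy_ext ?_)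
  change baM β a (sM (rt G)) * baM β a (sM (rt G)) = baM β a (sM G)
  rw [← baM_mul a _ (rt_isB hG h), rt_mul hG]

/-- the inverse of a block diagonal matrix -/
theorem inv_isB {β : Fin n → κ} {M : Matrix (Fin n) (Fin n) ℝ} (h : IsB β M) (hM : M.det ≠ 0) :
    IsB β M⁻¹ := by
  have hu : IsUnit M.det := isUnit_iff_ne_zero.2 hM
  intro i j hij
  set D : Matrix (Fin n) (Fin n) ℝ := Matrix.diagonal fun k => if β k = β i then 1 else -1 with hD
  have hDD : D * D = 1 := by
    rw [hD, Matrix.diagonal_mul_diagonal, ← Matrix.diagonal_one]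
    congr 1
    funext k
    split_ifs <;> norm_num
  have e1 : D * M * D = M := by
    ext k l
    rw [hD, Matrix.mul_diagonal, Matrix.diagonal_mul]
    by_cases hkl : β k = β l
    · rw [hkl]
      split_ifs <;> ring
    · rw [h k l hkl]
      ring
  have h2 : M * (D * M⁻¹ * D) = 1 := by
    calc M * (D * M⁻¹ * D) = (D * M * D) * (D * M⁻¹ * D) := by rw [e1]
      _ = D * (M * (D * D) * M⁻¹) * D := by simp only [Matrix.mul_assoc]
      _ = 1 := by rw [hDD, Matrix.mul_one, Matrix.mul_nonsing_inv _ hu, Matrix.mul_one, hDD]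
  have h3 : M⁻¹ = D * M⁻¹ * D := Matrix.inv_eq_right_inv h2
  have h4 := congrFun (congrFun h3 i) j
  rw [hD, Matrix.mul_diagonal, Matrix.diagonal_mul, if_pos rfl, if_neg (Ne.symm hij)] at h4
  linarith

theorem inv_ba {β : Fin n → κ} {M : Matrix (Fin n) (Fin n) ℝ} (h : IsB β M) (hM : M.det ≠ 0)
    (a : κ) : (baM β a M)⁻¹ = baM β a M⁻¹ := by
  have hu : IsUnit M.det := isUnit_iff_ne_zero.2 hM
  refine Matrix.inv_eq_right_inv ?_
  rw [← baM_mul a _ h, Matrix.mul_nonsing_inv _ hu, baM_one]

end Pool.Agent.L0h31.KE
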