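import Pool.Agent.L0h31.KE.Law
import Pool.Agent.L0h31.KE.Opn
import Pool.Agent.L0h31.KE.Mom
import Pool.Agent.H212R2.KLS.T3

/-!
# Independent vectors in the unit ball: symmetries, moments, tails
-/

set_option autoImplicit false
set_option linter.unusedSectionVars false

namespace Pool.Agent.L0h31.KE

open MeasureTheory Set Matrix
open scoped ENNReal InnerProductSpace
open Pool.Agent.H212R2.KLS

variable {m n : ℕ}

theorem ub_iso (m : ℕ) (g : V m ≃ₗᵢ[ℝ] V m) : MeasurePreserving g (ub m) (ub m) := by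
  have h1 : MeasurePreserving g (volume.restrict (g ⁻¹' Metric.closedBall 0 1))
      (volume.restrict (Metric.closedBall 0 1)) :=
    g.measurePreserving.restrict_preimage Metric.isClosed_closedBall.measurableSet
  have h2 : g ⁻¹' Metric.closedBall 0 1 = Metric.closedBall 0 1 := by
    ext y
    simp
  rw [h2] at h1
  exact h1.smul_measure _

/-- isometries applied to the vectors -/
theorem mB_iso (g : Fin n → (V m ≃ₗᵢ[ℝ] V m)) :
    MeasurePreserving (fun (ω : Om m n) j => g j (ω j)) (mB m n) (mB m n) :=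
  measurePreserving_pi _ _ fun j => ub_iso m (g j)

theorem ae_ball : ∀ᵐ ω ∂(mB m n), ω ∈ Set.univ.pi fun _ : Fin n => Metric.closedBall (0 : V m) 1 := by
  rw [mB_eq]
  exact Measure.ae_smul_measure (ae_restrict_mem (MeasurableSet.univ_pi fun _ =>
    Metric.isClosed_closedBall.measurableSet)) _

theorem ae_norm : ∀ᵐ ω ∂(mB m n), ∀ j, ‖ω j‖ ≤ 1 := by
  filter_upwards [ae_ball (m := m) (n := n)] with ω hω j
  exact mem_closedBall_zero_iff.1 (hω j (mem_univ j))

theorem int_mB {F : Om m n → ℝ} (hF : Continuous F) : Integrable F (mB m n) := by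
  obtain ⟨M, hM⟩ := (isCompact_univ_pi fun _ : Fin n =>
    isCompact_closedBall (0 : V m) 1).exists_bound_of_continuousOn hF.continuousOn
  refine Integrable.of_bound hF.aestronglyMeasurable M ?_
  filter_upwards [ae_ball (m := m) (n := n)] with ω hω
  exact hM ω hω

theorem mB_inv (g : Fin n → (V m ≃ₗᵢ[ℝ] V m)) {F : Om m n → ℝ}
    (hF : AEStronglyMeasurable F (mB m n)) :
    ∫ ω, F (fun j => g j (ω j)) ∂(mB m n) = ∫ ω, F ω ∂(mB m n) := by
  have h := mB_iso g
  rw [← h.map_eq] at hF
  have := integral_map h.measurable.aemeasurable hF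
  rw [h.map_eq] at this
  exact this.symm

/-- the sign flip of one vector -/
noncomputable def fl (m : ℕ) (i j : Fin n) : V m ≃ₗᵢ[ℝ] V m :=
  if j = i then LinearIsometryEquiv.neg ℝ else LinearIsometryEquiv.refl ℝ _

theorem fl_apply (i j : Fin n) (y : V m) : fl m i j y = (if j = i then -1 else 1 : ℝ) • y := by
  unfold fl
  split_ifs
  · rw [neg_one_smul]
    rfl
  · rw [one_smul]
    rfl

theorem cross (i j : Fin n) (hij : i ≠ j) : ∫ ω, ⟪ω i, ω j⟫_ℝ ∂(mB m n) = 0 := by
  have hc : Continuous fun ω : Om m n => ⟪ω i, ω j⟫_ℝ :=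
    (continuous_apply i).inner (continuous_apply j)
  have h := mB_inv (fl m i) hc.aestronglyMeasurable
  have e : ∀ ω : Om m n, ⟪fl m i i (ω i), fl m i j (ω j)⟫_ℝ = -⟪ω i, ω j⟫_ℝ := by
    intro ω
    rw [fl_apply, fl_apply, if_pos rfl, if_neg hij.symm, neg_one_smul, one_smul, inner_neg_left]
  simp_rw [e] at h
  rw [integral_neg] at h
  linarith

theorem mv_colE (ω : Om m n) (t : V n) : mv (colE m n ω) t = ∑ j, t j • ω j := by
  ext i
  rw [T2.mv_apply, WithLp.ofLp_sum, Finset.sum_apply]
  refine Finset.sum_congr rfl fun j _ => ?_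
  change ω j i * t j = t j * ω j i
  ring

theorem mv_mom (t : V n) : ∫ ω, ‖mv (colE m n ω) t‖ ^ 2 ∂(mB m n) ≤ 1 * ‖t‖ ^ 2 := by
  have hci : ∀ i j : Fin n, Continuous fun ω : Om m n => ⟪ω i, ω j⟫_ℝ := fun i j =>
    (continuous_apply i).inner (continuous_apply j)
  have e : ∀ ω : Om m n, ‖mv (colE m n ω) t‖ ^ 2 = ∑ i, ∑ j, t i * t j * ⟪ω i, ω j⟫_ℝ := by
    intro ω
    rw [mv_colE, ← real_inner_self_eq_norm_sq, sum_inner]
    refine Finset.sum_congr rfl fun i _ => ?_
    rw [inner_sum]
    refine Finset.sum_congr rfl fun j _ => ?_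
    rw [inner_smul_left, inner_smul_right]
    simp only [conj_trivial]
    ring
  simp_rw [e]
  have i1 : ∀ i j : Fin n, Integrable (fun ω : Om m n => t i * t j * ⟪ω i, ω j⟫_ℝ) (mB m n) :=
    fun i j => (int_mB (hci i j)).const_mul _
  rw [integral_finsetSum _ fun i _ => integrable_finsetSum _ fun j _ => i1 i j,
    EuclideanSpace.real_norm_sq_eq, Finset.mul_sum]
  refine Finset.sum_le_sum fun i _ => ?_
  rw [integral_finsetSum _ fun j _ => i1 i j, Finset.sum_eq_single i]
  · rw [integral_const_mul]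
    have h1 : ∫ ω, ⟪ω i, ω i⟫_ℝ ∂(mB m n) ≤ ∫ _ω, (1 : ℝ) ∂(mB m n) := by
      refine integral_mono_ae (int_mB (hci i i)) (integrable_const _) ?_
      filter_upwards [ae_norm (m := m) (n := n)] with ω hω
      rw [real_inner_self_eq_norm_sq]
      have := hω i
      have := norm_nonneg (ω i)
      nlinarith
    rw [integral_const, probReal_univ, one_smul] at h1
    have h2 : 0 ≤ t i * t i := mul_self_nonneg _
    nlinarith
  · intro j _ hj
    rw [integral_const_mul, cross i j (Ne.symm hj), mul_zero]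
  · intro h
    exact absurd (Finset.mem_univ i) h

/-- the second moment of the norm of one vector -/
theorem norm_mom (hm : 1 ≤ m) (i : Fin n) : 1 / 8 ≤ ∫ ω, ‖ω i‖ ^ 2 ∂(mB m n) := by
  have hp : MeasurePreserving (Function.eval i) (mB m n) (ub m) :=
    measurePreserving_eval (fun _ : Fin n => ub m) i
  have h1 : ∫ ω, ‖ω i‖ ^ 2 ∂(mB m n) = ∫ y, ‖y‖ ^ 2 ∂(ub m) := by
    have h0 := integral_map (μ := mB m n) hp.measurable.aemeasurable (f := fun y : V m => ‖y‖ ^ 2)
      (continuous_norm.pow 2).aestronglyMeasurable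
    rw [hp.map_eq] at h0
    exact h0.symm
  rw [h1]
  set B : Set (V m) := Metric.closedBall 0 (1 / 2) with hB
  have hBm : MeasurableSet B := Metric.isClosed_closedBall.measurableSet
  have h2 : (ub m) B = ENNReal.ofReal ((1 / 2) ^ m) := by
    unfold ub
    rw [Measure.smul_apply, Measure.restrict_apply hBm, inter_eq_left.2
      (Metric.closedBall_subset_closedBall (by norm_num)),
      Measure.addHaar_closedBall' volume (0 : V m) (by norm_num : (0 : ℝ) ≤ 1 / 2),
      smul_eq_mul, mul_comm, mul_assoc, ENNReal.mul_inv_cancel (ball_pos m) (ball_fin m), mul_one,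
      finrank_euclideanSpace_fin]
  have h3 : (ub m).real B ≤ 1 / 2 := by
    rw [Measure.real, h2, ENNReal.toReal_ofReal (by positivity)]
    calc ((1 : ℝ) / 2) ^ m ≤ (1 / 2) ^ 1 := pow_le_pow_of_le_one (by norm_num) (by norm_num) hm
      _ = 1 / 2 := pow_one _
  have h4 : (1 : ℝ) / 2 ≤ (ub m).real Bᶜ := by
    rw [probReal_compl_eq_one_sub hBm]
    linarith
  have hint : Integrable (fun y : V m => ‖y‖ ^ 2) (ub m) := by
    refine Integrable.of_bound (continuous_norm.pow 2).aestronglyMeasurable 1 ?_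
    have : ∀ᵐ y ∂(ub m), y ∈ Metric.closedBall (0 : V m) 1 := by
      unfold ub
      exact Measure.ae_smul_measure (ae_restrict_mem Metric.isClosed_closedBall.measurableSet) _
    filter_upwards [this] with y hy
    have h5 := mem_closedBall_zero_iff.1 hy
    rw [Real.norm_eq_abs, abs_of_nonneg (sq_nonneg _)]
    have := norm_nonneg y
    nlinarith
  calc (1 : ℝ) / 8 ≤ 1 / 4 * (ub m).real Bᶜ := by linarith
    _ = ∫ y, Bᶜ.indicator (fun _ => (1 / 4 : ℝ)) y ∂(ub m) := by
        rw [integral_indicator_const _ hBm.compl, smul_eq_mul, mul_comm]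
    _ ≤ ∫ y, ‖y‖ ^ 2 ∂(ub m) := by
        refine integral_mono ((integrable_const _).indicator hBm.compl) hint fun y => ?_
        by_cases hy : y ∈ Bᶜ
        · rw [indicator_of_mem hy]
          have h5 : 1 / 2 < ‖y‖ := by
            rw [mem_compl_iff, hB, mem_closedBall_zero_iff, not_le] at hy
            exact hy
          change (1 : ℝ) / 4 ≤ ‖y‖ ^ 2
          nlinarith
        · rw [indicator_of_notMem hy]
          exact sq_nonneg _

/-! ### the density -/

/-- matrices with columns in the unit ball -/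
def Cb (m n : ℕ) : Set (E m n) := {X | ∀ j : Fin n, ‖mv X (EuclideanSpace.single j 1)‖ ≤ 1}

theorem mv_single (ω : Om m n) (j : Fin n) :
    mv (colE m n ω) (EuclideanSpace.single j 1) = ω j := by
  rw [mv_colE, Finset.sum_eq_single j]
  · simp
  · intro i _ hi
    simp [hi]
  · simp

theorem mem_Cb (ω : Om m n) : colE m n ω ∈ Cb m n ↔
    ω ∈ Set.univ.pi fun _ : Fin n => Metric.closedBall (0 : V m) 1 := by
  rw [mem_univ_pi]
  refine forall_congr' fun j => ?_
  rw [mv_single, mem_closedBall_zero_iff]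

theorem Cb_closed : IsClosed (Cb m n) := by
  have : Cb m n = ⋂ j : Fin n, {X : E m n | ‖mv X (EuclideanSpace.single j 1)‖ ≤ 1} := by
    ext X
    simp [Cb]
  rw [this]
  exact isClosed_iInter fun j => isClosed_le (T2.mv_continuous _).norm continuous_const

theorem Cb_dens : Dens m n ((Cb m n).indicator fun _ => (1 : ℝ)) where
  nonneg x := indicator_nonneg (fun _ _ => zero_le_one) x
  meas := measurable_const.indicator Cb_closed.measurableSet
  logc x y t ht0 ht1 := by
    by_cases hx : x ∈ Cb m n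
    · by_cases hy : y ∈ Cb m n
      · have h : (1 - t) • x + t • y ∈ Cb m n := by
          intro j
          rw [T2.mv_comb]
          calc ‖(1 - t) • mv x (EuclideanSpace.single j 1) + t • mv y (EuclideanSpace.single j 1)‖
              ≤ ‖(1 - t) • mv x (EuclideanSpace.single j 1)‖ +
                ‖t • mv y (EuclideanSpace.single j 1)‖ := norm_add_le _ _
            _ ≤ (1 - t) * 1 + t * 1 := by
                rw [norm_smul, norm_smul, Real.norm_eq_abs, Real.norm_eq_abs,
                  abs_of_pos ht0, abs_of_pos (by linarith : 0 < 1 - t)]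
                exact add_le_add (mul_le_mul_of_nonneg_left (hx j) (by linarith))
                  (mul_le_mul_of_nonneg_left (hy j) ht0.le)
            _ = 1 := by ring
        rw [indicator_of_mem hx, indicator_of_mem hy, indicator_of_mem h, Real.one_rpow,
          Real.one_rpow, one_mul]
      · rw [indicator_of_notMem hy, Real.zero_rpow ht0.ne', mul_zero]
        exact indicator_nonneg (fun _ _ => zero_le_one) _
    · rw [indicator_of_notMem hx, Real.zero_rpow (by linarith : 1 - t ≠ 0), zero_mul]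
      exact indicator_nonneg (fun _ _ => zero_le_one) _
  inv g hg x := by
    have h : lm g x ∈ Cb m n ↔ x ∈ Cb m n := by
      refine forall_congr' fun j => ?_
      have h1 := T2.norm_mulVec g hg (mv x (EuclideanSpace.single j 1)) 0
      have h2 : (WithLp.toLp 2 (g *ᵥ (0 : V m).ofLp) : V m) = 0 := by
        rw [WithLp.ofLp_zero, Matrix.mulVec_zero, WithLp.toLp_zero]
      rw [h2, sub_zero, sub_zero] at h1
      rw [T2.mv_lm, h1]
    by_cases hx : x ∈ Cb m n
    · rw [indicator_of_mem hx, indicator_of_mem (h.2 hx)]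
    · rw [indicator_of_notMem hx, indicator_of_notMem fun h' => hx (h.1 h')]

theorem Cb_bdd : Bornology.IsBounded (Cb m n) := by
  rw [isBounded_iff_forall_norm_le]
  refine ⟨Real.sqrt n, fun X hX => ?_⟩
  obtain ⟨ω, rfl⟩ := (colE m n).surjective X
  have h1 : ‖colE m n ω‖ ^ 2 = ∑ j, ‖ω j‖ ^ 2 := by
    rw [EuclideanSpace.real_norm_sq_eq, Fintype.sum_prod_type, Finset.sum_comm]
    refine Finset.sum_congr rfl fun j _ => ?_
    rw [EuclideanSpace.real_norm_sq_eq]
    rfl
  refine Real.le_sqrt_of_sq_le ?_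
  rw [h1]
  calc ∑ j, ‖ω j‖ ^ 2 ≤ ∑ _j : Fin n, (1 : ℝ) := by
        refine Finset.sum_le_sum fun j _ => ?_
        have := (mem_Cb ω).1 hX j (mem_univ j)
        rw [mem_closedBall_zero_iff] at this
        have := norm_nonneg (ω j)
        nlinarith
    _ = n := by simp

theorem colE_cont : Continuous (colE m n) :=
  LinearMap.continuous_of_finiteDimensional (colE m n).toLinearMap

/-- the law of the matrix -/
theorem law_colE : ∃ ρ : E m n → ℝ, Dens m n ρ ∧ Bdd ρ ∧ (mB m n).map (colE m n) = mu ρ := by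
  obtain ⟨c, hc0, hc1, hc⟩ := haar_lin (V := Om m n) (W := E m n) volume volume (colE m n)
  set b : ℝ≥0∞ := (volume (Metric.closedBall (0 : V m) 1))⁻¹ ^ n with hb
  have hb0 : b ≠ 0 := pow_ne_zero _ (ENNReal.inv_ne_zero.2 (ball_fin m))
  have hb1 : b ≠ ⊤ := ENNReal.pow_ne_top (ENNReal.inv_ne_top.2 (ball_pos m))
  set k : ℝ≥0∞ := b * c⁻¹ with hk
  have hk1 : k ≠ ⊤ := ENNReal.mul_ne_top hb1 (ENNReal.inv_ne_top.2 hc0)
  have hmap : (mB m n).map (colE m n) = k • (volume : Measure (E m n)).restrict (Cb m n) := by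
    ext s hs
    rw [Measure.map_apply colE_cont.measurable hs, mB_eq, Measure.smul_apply, Measure.smul_apply,
      Measure.restrict_apply (colE_cont.measurable hs), Measure.restrict_apply hs,
      smul_eq_mul, smul_eq_mul, ← hb]
    have h1 := hc ((s ∩ Cb m n).indicator 1)
      (measurable_one.indicator (hs.inter Cb_closed.measurableSet))
    rw [lintegral_indicator_one (hs.inter Cb_closed.measurableSet)] at h1
    have h2 : ∫⁻ ω : Om m n, (s ∩ Cb m n).indicator 1 (colE m n ω) =
        volume ((colE m n) ⁻¹' s ∩ Set.univ.pi fun _ : Fin n => Metric.closedBall (0 : V m) 1) := by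
      rw [← lintegral_indicator_one ((colE_cont.measurable hs).inter
        (MeasurableSet.univ_pi fun _ => Metric.isClosed_closedBall.measurableSet))]
      refine lintegral_congr fun ω => ?_
      by_cases hω : colE m n ω ∈ s ∩ Cb m n
      · have h' : ω ∈ (colE m n) ⁻¹' s ∩
            Set.univ.pi fun _ : Fin n => Metric.closedBall (0 : V m) 1 :=
          ⟨hω.1, (mem_Cb ω).1 hω.2⟩
        rw [indicator_of_mem hω, indicator_of_mem h']
        rfl
      · have h' : ω ∉ (colE m n) ⁻¹' s ∩
            Set.univ.pi fun _ : Fin n => Metric.closedBall (0 : V m) 1 :=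
          fun h => hω ⟨h.1, (mem_Cb ω).2 h.2⟩
        rw [indicator_of_notMem hω, indicator_of_notMem h']
    rw [h2] at h1
    rw [h1, hk, mul_assoc, ← mul_assoc c⁻¹, ENNReal.inv_mul_cancel hc0 hc1, one_mul]
  set r : ℝ := k.toReal with hr
  have hr0 : 0 ≤ r := ENNReal.toReal_nonneg
  refine ⟨fun x => r * (Cb m n).indicator (fun _ => (1 : ℝ)) x, g2_dens_smul Cb_dens r hr0, ?_, ?_⟩
  · obtain ⟨R, hR⟩ := isBounded_iff_forall_norm_le.1 (Cb_bdd (m := m) (n := n))
    refine ⟨R, fun x hx => ?_⟩
    have : x ∉ Cb m n := fun h => absurd (hR x h) (not_le.2 hx)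
    simp only [indicator_of_notMem this, mul_zero]
  · rw [hmap, g2_mu (F := E m n) (fun _ => (1 : ℝ)) (fun _ => zero_le_one) measurable_const
      (Cb m n) Cb_closed.measurableSet r hr0, hr, ENNReal.ofReal_toReal hk1]
    have h2 : mu (fun _ : E m n => (1 : ℝ)) = volume := by
      unfold mu
      simp
    rw [h2]

/-- the tail of the operator norm -/
theorem tail (hm : 1 ≤ m) (hn : 1 ≤ n) (hnm : n ≤ m) :
    (mB m n) {ω | ¬ OpLe 320 (colE m n ω)} ≤ ENNReal.ofReal (Real.exp (-(4 * m))) := by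
  obtain ⟨ρ, hd, hb, hmap⟩ := law_colE (m := m) (n := n)
  have hcm : Measurable (colE m n) := colE_cont.measurable
  have hP : IsProbabilityMeasure (mu ρ) := by
    rw [← hmap]
    exact Measure.isProbabilityMeasure_map hcm.aemeasurable
  have h1 : mu ρ univ = 1 := measure_univ
  have hm0 : (0 : ℝ) < m := by exact_mod_cast hm
  have hI : Inv (mu ρ) := by
    refine ⟨fun g hg => l2_map hd hg, ?_⟩
    obtain ⟨R, hR⟩ := hb
    refine ⟨R, ?_⟩
    have h2 : (mu ρ) {x | R < ‖x‖} = 0 := by
      have hms : MeasurableSet {x : E m n | R < ‖x‖} :=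
        (isOpen_lt continuous_const continuous_norm).measurableSet
      unfold mu
      rw [withDensity_apply _ hms]
      refine (setLIntegral_congr_fun hms fun x hx => ?_).trans (lintegral_zero)
      rw [hR x hx, ENNReal.ofReal_zero]
    rw [ae_iff]
    simpa only [not_le] using h2
  have hmom := hI.mom hm 1 (fun t => by
    have e := integral_map (μ := mB m n) hcm.aemeasurable
      (f := fun X : E m n => ‖mv X t‖ ^ 2)
      ((T2.mv_continuous t).norm.pow 2).aestronglyMeasurable
    rw [hmap] at e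
    rw [e]
    exact mv_mom t)
  have hs : (0 : ℝ) < 1 / m := by positivity
  have ht := op_tail hm hn hnm ρ hd h1 (1 / m) hs
    (fun v hv r => mv_tail hm ρ hd hb h1 (1 / m) hs hmom v hv r) 16
  have e1 : (m : ℝ) * (1 / m) = 1 := by field_simp
  rw [e1, Real.sqrt_one] at ht
  have e2 : (20 : ℝ) * 16 * 1 = 320 := by norm_num
  have e3 : (m : ℝ) * (4 - 16 / 2) = -(4 * m) := by ring
  have hms : MeasurableSet {X : E m n | ¬ OpLe 320 X} :=
    (l2_OpLe_closed 320).measurableSet.compl
  rw [e2, e3, ← hmap, Measure.map_apply hcm hms] at ht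
  exact ht

/-! ### the Gram matrix -/

theorem gm_opLe {r : ℝ} (hr : 0 ≤ r) {ω : Om m n} (h : OpLe r (colE m n ω)) :
    OpLe (r ^ 2) ((gm ω : Sy n) : E n n) := by
  intro v
  set w : V n := mv ((gm ω : Sy n) : E n n) v with hw
  have h1 : ∀ u : V n, ⟪u, w⟫_ℝ = ⟪mv (colE m n ω) u, mv (colE m n ω) v⟫_ℝ := by
    intro u
    rw [mv_colE, mv_colE, sum_inner, PiLp.inner_apply]
    refine Finset.sum_congr rfl fun i _ => ?_
    rw [inner_sum]
    have e : w i = ∑ j, sM (gm ω) i j * v j := rfl
    change w i * u i = _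
    rw [e, Finset.sum_mul]
    refine Finset.sum_congr rfl fun j _ => ?_
    rw [inner_smul_left, inner_smul_right, gm_apply]
    simp only [conj_trivial]
    ring
  have h2 := h1 w
  rw [real_inner_self_eq_norm_sq] at h2
  have h3 : ‖w‖ ^ 2 ≤ (r * ‖w‖) * (r * ‖v‖) := by
    rw [h2]
    refine (real_inner_le_norm _ _).trans ?_
    exact mul_le_mul (h w) (h v) (norm_nonneg _) (by positivity)
  rcases eq_or_lt_of_le (norm_nonneg w) with h0 | h0
  · rw [← h0]
    positivity
  · nlinarith

theorem colE_norm (ω : Om m n) : ‖colE m n ω‖ ^ 2 = ∑ j, ‖ω j‖ ^ 2 := by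
  rw [EuclideanSpace.real_norm_sq_eq, Fintype.sum_prod_type, Finset.sum_comm]
  refine Finset.sum_congr rfl fun j _ => ?_
  rw [EuclideanSpace.real_norm_sq_eq]
  rfl

theorem opLe_norm (X : E m n) : OpLe ‖X‖ X := by
  intro v
  have h1 : ‖mv X v‖ ^ 2 ≤ (‖X‖ * ‖v‖) ^ 2 := by
    have e : ‖mv X v‖ ^ 2 = ∑ i, (∑ j, X (i, j) * v j) ^ 2 := by
      rw [EuclideanSpace.real_norm_sq_eq]
      rfl
    rw [e]
    calc ∑ i, (∑ j, X (i, j) * v j) ^ 2 ≤ ∑ i, (∑ j, X (i, j) ^ 2) * ∑ j, v j ^ 2 :=
          Finset.sum_le_sum fun i _ => Finset.sum_mul_sq_le_sq_mul_sq _ _ _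
      _ = ‖X‖ ^ 2 * ‖v‖ ^ 2 := by
          rw [← Finset.sum_mul, EuclideanSpace.real_norm_sq_eq X,
            EuclideanSpace.real_norm_sq_eq v, Fintype.sum_prod_type]
      _ = (‖X‖ * ‖v‖) ^ 2 := by ring
  exact (pow_le_pow_iff_left₀ (norm_nonneg _) (by positivity) two_ne_zero).1 h1

theorem opn_gm_le {ω : Om m n} (h : ∀ j, ‖ω j‖ ≤ 1) : opn ((gm ω : Sy n) : E n n) ≤ n := by
  have h1 := gm_opLe (norm_nonneg _) (opLe_norm (colE m n ω))
  refine (opn_le (sq_nonneg _) h1).trans ?_
  rw [colE_norm]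
  calc ∑ j, ‖ω j‖ ^ 2 ≤ ∑ _j : Fin n, (1 : ℝ) := by
        refine Finset.sum_le_sum fun j _ => ?_
        have := h j
        have := norm_nonneg (ω j)
        nlinarith
    _ = n := by simp

theorem continuous_opn_gm : Continuous fun ω : Om m n => opn ((gm ω : Sy n) : E n n) :=
  continuous_opn.comp (continuous_subtype_val.comp (R7.continuous_gram.comp colE_cont))

theorem measurableSet_tail : MeasurableSet {ω : Om m n | ¬ OpLe 320 (colE m n ω)} :=
  colE_cont.measurable (l2_OpLe_closed 320).measurableSet.compl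

/-- the expected operator norm of the Gram matrix -/
theorem opn_gm (hm : 1 ≤ m) (hn : 1 ≤ n) (hnm : n ≤ m) :
    ∫ ω, opn ((gm ω : Sy n) : E n n) ∂(mB m n) ≤ 320 ^ 2 + 1 := by
  set A : Set (Om m n) := {ω | ¬ OpLe 320 (colE m n ω)} with hA
  have hAm : MeasurableSet A := measurableSet_tail
  have h1 : ∫ ω, opn ((gm ω : Sy n) : E n n) ∂(mB m n) ≤
      ∫ ω, (320 ^ 2 + A.indicator (fun _ => (n : ℝ)) ω) ∂(mB m n) := by
    refine integral_mono_ae (int_mB continuous_opn_gm)
      ((integrable_const _).add ((integrable_const _).indicator hAm)) ?_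
    filter_upwards [ae_norm (m := m) (n := n)] with ω hω
    by_cases h : ω ∈ A
    · rw [indicator_of_mem h]
      have := opn_gm_le hω
      linarith
    · rw [indicator_of_notMem h, add_zero]
      rw [hA, mem_ofPred_eq, not_not] at h
      exact opn_le (by norm_num) (gm_opLe (by norm_num) h)
  refine h1.trans ?_
  rw [integral_add (integrable_const _) ((integrable_const _).indicator hAm), integral_const,
    probReal_univ, one_smul, integral_indicator_const _ hAm, smul_eq_mul]
  have h2 : (mB m n).real A ≤ Real.exp (-(4 * m)) := by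
    have := tail hm hn hnm
    rw [← hA] at this
    exact ENNReal.toReal_le_of_le_ofReal (Real.exp_pos _).le this
  have h3 : Real.exp (-(4 * (m : ℝ))) * n ≤ 1 := by
    have h4 : (n : ℝ) ≤ m := by exact_mod_cast hnm
    have h5 : (m : ℝ) ≤ Real.exp (4 * m) := by
      have := Real.add_one_le_exp (4 * (m : ℝ))
      have : (0 : ℝ) ≤ m := by positivity
      linarith
    rw [Real.exp_neg, inv_mul_le_iff₀ (Real.exp_pos _), mul_one]
    linarith
  have h6 : (mB m n).real A * n ≤ Real.exp (-(4 * (m : ℝ))) * n :=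
    mul_le_mul_of_nonneg_right h2 (by positivity)
  linarith

end Pool.Agent.L0h31.KE
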